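import Pool.Agent.Helper51.Cube6.Shared
import Pool.Agent.Helper63.Cube6.Enum

/-!
# Assembly of the counting certificate for vertex simplices of the 6-cube
-/

set_option autoImplicit false

namespace Helper67.Cube6

open Helper67.Cube Helper51.Cube6
open Pool.Agent.Helper63.Cube6 (allR allR_iff orR testBit_orR lane_get oneL bL oneL_eq bL_eq)

/-- a representative: vertex codes (8 bits each), codes of the facet functionals, partial sums of
the orbit groups for covers and for dissections (32 bits each) -/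
structure Ent where
  c : ℕ
  f : List ℕ
  pc : ℕ
  pd : ℕ

/-- vertex code number `q` of the packed list `c` -/
def vc (c q : ℕ) : ℕ := Nat.mod (Nat.shiftRight c (Nat.mul 8 q)) 256

/-- vertex code number `q` -/
def Ent.C (e : Ent) (q : ℕ) : ℕ := vc e.c q

/-! ### Value tables of functionals -/

/-- `∑ z < 64, (112 - 16 * (number of ones of z)) * 2 ^ (8 z)` -/
def K0 : ℕ := 0x10202030203030402030304030404050203030403040405030404050405050602030304030404050304040504050506030404050405050604050506050606070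

/-- `∑ z < 64, 128 * 2 ^ (8 z)` -/
def HL : ℕ := 0x80808080808080808080808080808080808080808080808080808080808080808080808080808080808080808080808080808080808080808080808080808080

lemma K0_eq : K0 = ∑ z ∈ Finset.range 64, (112 - 16 * (bit z 0 + bit z 1 + bit z 2 + bit z 3 +
    bit z 4 + bit z 5)) * 2 ^ (8 * z) := by decide +kernel

lemma HL_eq : HL = ∑ z ∈ Finset.range 64, 128 * 2 ^ (8 * z) := by decide +kernel

/-- digit `j` of the functional code `m` -/
def dg5 (m j : ℕ) : ℕ := Nat.mod (Nat.shiftRight m (Nat.mul 5 j)) 32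

/-- the packed values plus 128 of the functional with code `m` at the 64 vertices -/
def vtab (m : ℕ) : ℕ :=
  Nat.add K0 (Nat.add (Nat.mul (dg5 m 0) oneL) (Nat.add (Nat.mul (dg5 m 1) (bL 0)) (Nat.add
    (Nat.mul (dg5 m 2) (bL 1)) (Nat.add (Nat.mul (dg5 m 3) (bL 2)) (Nat.add
    (Nat.mul (dg5 m 4) (bL 3)) (Nat.add (Nat.mul (dg5 m 5) (bL 4)) (Nat.mul (dg5 m 6) (bL 5))))))))

/-- the value plus 128 of the functional with code `m` at the vertex `z` -/
def val8 (m z : ℕ) : ℕ :=
  112 - 16 * (bit z 0 + bit z 1 + bit z 2 + bit z 3 + bit z 4 + bit z 5) +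
    (dg5 m 0 + (dg5 m 1 * bit z 0 + (dg5 m 2 * bit z 1 + (dg5 m 3 * bit z 2 +
      (dg5 m 4 * bit z 3 + (dg5 m 5 * bit z 4 + dg5 m 6 * bit z 5))))))

lemma bit_le (z j : ℕ) : bit z j ≤ 1 := by
  unfold bit; omega

lemma dg5_le (m j : ℕ) : dg5 m j ≤ 31 := by
  have : dg5 m j < 32 := Nat.mod_lt _ (by norm_num)
  omega

lemma val8_bounds (m z : ℕ) : 1 ≤ val8 m z ∧ val8 m z < 256 := by
  unfold val8
  have hb := bit_le z
  have hd := dg5_le m
  have hm : ∀ i j, dg5 m i * bit z j ≤ 31 * bit z j := fun i j => Nat.mul_le_mul_right _ (hd i)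
  have h0 := hd 0
  have h1 := hm 1 0
  have h2 := hm 2 1
  have h3 := hm 3 2
  have h4 := hm 4 3
  have h5 := hm 5 4
  have h6 := hm 6 5
  have b0 := hb 0
  have b1 := hb 1
  have b2 := hb 2
  have b3 := hb 3
  have b4 := hb 4
  have b5 := hb 5
  constructor
  · omega
  · omega

lemma vtab_eq (m : ℕ) : vtab m = ∑ z ∈ Finset.range 64, val8 m z * 2 ^ (8 * z) := by
  have h2 : vtab m = K0 + (dg5 m 0 * oneL + (dg5 m 1 * bL 0 + (dg5 m 2 * bL 1 + (dg5 m 3 * bL 2 +
      (dg5 m 4 * bL 3 + (dg5 m 5 * bL 4 + dg5 m 6 * bL 5)))))) := rfl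
  rw [h2, K0_eq, oneL_eq, bL_eq 0 (by norm_num), bL_eq 1 (by norm_num), bL_eq 2 (by norm_num),
    bL_eq 3 (by norm_num), bL_eq 4 (by norm_num), bL_eq 5 (by norm_num)]
  simp only [Finset.mul_sum, ← Finset.sum_add_distrib]
  refine Finset.sum_congr rfl fun z _ => ?_
  unfold val8
  ring

lemma lanes_testBit (f : ℕ → ℕ) (hf : ∀ z < 64, f z < 256) {z : ℕ} (hz : z < 64) :
    (∑ z ∈ Finset.range 64, f z * 2 ^ (8 * z)).testBit (8 * z + 7) = decide (128 ≤ f z) := by
  have h1 := lane_get 8 f 64 hf z hz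
  have h2 : ((∑ z ∈ Finset.range 64, f z * 2 ^ (8 * z)) >>> (8 * z) % 2 ^ 8).testBit 7 =
      (∑ z ∈ Finset.range 64, f z * 2 ^ (8 * z)).testBit (8 * z + 7) := by
    rw [Nat.testBit_mod_two_pow, Nat.testBit_shiftRight]
    simp
  rw [← h2, h1, Nat.testBit_eq_decide_div_mod_eq]
  have h3 := hf z hz
  by_cases h4 : 128 ≤ f z
  · simp [h4]; omega
  · simp [h4]; omega

/-- vertices where the functional is nonnegative -/
def G1 (m : ℕ) : ℕ := Nat.land (vtab m) HL

/-- vertices where the functional is positive -/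
def G2 (m : ℕ) : ℕ := Nat.land (Nat.sub (vtab m) oneL) HL

lemma HL_testBit {z : ℕ} (h : HL.testBit (8 * z + 7) = true) : z < 64 := by
  by_contra hz
  have h1 : HL < 2 ^ (8 * z + 7) := by
    calc HL < 2 ^ 512 := by decide +kernel
      _ ≤ 2 ^ (8 * z + 7) := Nat.pow_le_pow_right (by norm_num) (by omega)
  rw [Nat.testBit_lt_two_pow h1] at h
  exact absurd h (by simp)

lemma G1_testBit {m z : ℕ} (h : (G1 m).testBit (8 * z + 7) = true) : z < 64 ∧ 128 ≤ val8 m z := by
  have h1 : (vtab m &&& HL).testBit (8 * z + 7) = true := h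
  rw [Nat.testBit_and, Bool.and_eq_true] at h1
  have hz := HL_testBit h1.2
  refine ⟨hz, ?_⟩
  have h2 := h1.1
  rw [vtab_eq, lanes_testBit _ (fun z _ => (val8_bounds m z).2) hz, decide_eq_true_eq] at h2
  exact h2

lemma G2_testBit {m z : ℕ} (hz : z < 64) :
    (G2 m).testBit (8 * z + 7) = decide (129 ≤ val8 m z) := by
  have h1 : (G2 m).testBit (8 * z + 7) = ((vtab m - oneL) &&& HL).testBit (8 * z + 7) := rfl
  have h2 : vtab m - oneL = ∑ z ∈ Finset.range 64, (val8 m z - 1) * 2 ^ (8 * z) := by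
    rw [vtab_eq, oneL_eq]
    refine Nat.sub_eq_of_eq_add ?_
    rw [← Finset.sum_add_distrib]
    refine Finset.sum_congr rfl fun z _ => ?_
    rw [← add_mul, Nat.sub_add_cancel (val8_bounds m z).1]
  rw [h1, h2, HL_eq, Nat.testBit_and, lanes_testBit _ (fun z _ => by
    have := (val8_bounds m z).2
    omega) hz, lanes_testBit (fun _ => 128) (fun z _ => by norm_num) hz]
  have := (val8_bounds m z).1
  simp only [le_refl, decide_true, Bool.and_true]
  by_cases h : 129 ≤ val8 m z
  · simp [h]; omega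
  · simp [h]; omega

lemma val8_eq (m z : ℕ) : val8 m z + vlin 6 (cb m) z = 128 + vlin 6 (ca m) z := by
  have hd : ∀ j, dg5 m j + cb m j = 16 + ca m j := by
    intro j
    have h1 : dg5 m j = (m >>> (5 * j)) % 32 := rfl
    unfold cb ca
    rw [← h1]
    omega
  have hm : ∀ j i, dg5 m j * bit z i + cb m j * bit z i = 16 * bit z i + ca m j * bit z i := by
    intro j i
    rw [← add_mul, hd, add_mul]
  unfold val8 vlin
  simp only [sumN, Nat.zero_add, Nat.reduceAdd]
  have h0 := hd 0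
  have h1 := hm 1 0
  have h2 := hm 2 1
  have h3 := hm 3 2
  have h4 := hm 4 3
  have h5 := hm 5 4
  have h6 := hm 6 5
  have hb := bit_le z
  have b0 := hb 0
  have b1 := hb 1
  have b2 := hb 2
  have b3 := hb 3
  have b4 := hb 4
  have b5 := hb 5
  omega

/-! ### Check of the functionals of a representative -/

/-- the functional `m` is nonnegative at the vertices of the mask `M` and positive exactly at the
vertex `z` -/
def funK (M z m : ℕ) : Bool :=
  Nat.beq (Nat.land M (G1 m)) M &&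
    Nat.beq (Nat.land M (G2 m)) (Nat.pow 2 (Nat.add (Nat.mul 8 z) 7))

/-- the coefficients of the functional are small -/
def smallM (Q m : ℕ) : Bool := smallB 6 Q 16 (ca m) && smallB 6 Q 16 (cb m)

/-- check of the list of functionals, starting with number `k` -/
def funL (Q M c : ℕ) : List ℕ → ℕ → Bool
  | [], k => Nat.beq k 7
  | m :: l, k => funK M (vc c k) m && (smallM Q m && funL Q M c l (Nat.succ k))

/-- mask of the vertices -/
def M7 (c : ℕ) : ℕ := orR 7 (fun q => Nat.add (Nat.mul 8 (vc c q)) 7)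

/-- check of the vertices and the functionals -/
def funC (Q c : ℕ) (f : List ℕ) : Bool :=
  allR 7 (fun k => allR k (fun q => !Nat.beq (vc c q) (vc c k))) && funL Q (M7 c) c f 0

/-- check of the representative -/
def funE (Q : ℕ) (e : Ent) : Bool := funC Q e.c e.f

lemma funL_spec {Q M c : ℕ} : ∀ (l : List ℕ) (k : ℕ), funL Q M c l k = true →
    k + l.length = 7 ∧ (∀ i < l.length, funK M (vc c (k + i)) (l.getD i 0) = true ∧
      smallM Q (l.getD i 0) = true) := by
  intro l
  induction l with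
  | nil =>
    intro k h
    exact ⟨Nat.eq_of_beq_eq_true h, fun i hi => absurd hi (Nat.not_lt_zero i)⟩
  | cons m l ih =>
    intro k h
    rw [funL, Bool.and_eq_true, Bool.and_eq_true] at h
    obtain ⟨h1, h2, h3⟩ := h
    obtain ⟨h4, h5⟩ := ih _ h3
    refine ⟨by rw [List.length_cons]; omega, fun i hi => ?_⟩
    cases i with
    | zero => exact ⟨h1, h2⟩
    | succ i =>
      rw [List.length_cons] at hi
      have h6 := h5 i (by omega)
      rw [List.getD_cons_succ]
      have h7 : k + (i + 1) = Nat.succ k + i := by omega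
      rw [h7]
      exact h6

/-- positive and negative parts of the functionals of a list -/
def apL (f : List ℕ) (k j : ℕ) : ℕ := ca (f.getD k 0) j

/-- see `apL` -/
def anL (f : List ℕ) (k j : ℕ) : ℕ := cb (f.getD k 0) j

theorem funC_spec {Q c : ℕ} {f : List ℕ} (h : funC Q c f = true) :
    f.length = 7 ∧ funB 6 Q 16 (apL f) (anL f) (vc c) = true ∧
      ∀ m ∈ f, smallM Q m = true := by
  unfold funC at h
  rw [Bool.and_eq_true] at h
  obtain ⟨hd, hl⟩ := h
  obtain ⟨h1, h2⟩ := funL_spec _ _ hl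
  have hlen : f.length = 7 := by omega
  have hne : ∀ k < 7, ∀ q < 7, q ≠ k → vc c q ≠ vc c k := by
    have h3 : ∀ k < 7, ∀ q < k, vc c q ≠ vc c k := by
      intro k hk q hq
      have h4 := allR_iff.1 (allR_iff.1 hd k hk) q hq
      intro h5
      rw [h5] at h4
      simp at h4
    intro k hk q hq hqk
    rcases lt_or_gt_of_ne hqk with h4 | h4
    · exact h3 k hk q h4
    · exact (h3 q hq k h4).symm
  have hval : ∀ k < 7, ∀ q < 7, vc c q < 64 ∧ 128 ≤ val8 (f.getD k 0) (vc c q) ∧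
      (129 ≤ val8 (f.getD k 0) (vc c q) ↔ q = k) := by
    intro k hk q hq
    have h3 := (h2 k (by omega)).1
    rw [Nat.zero_add, funK, Bool.and_eq_true] at h3
    have e1 : M7 c &&& G1 (f.getD k 0) = M7 c := Nat.eq_of_beq_eq_true h3.1
    have e2 : M7 c &&& G2 (f.getD k 0) = 2 ^ (8 * vc c k + 7) := Nat.eq_of_beq_eq_true h3.2
    have e3 : (M7 c).testBit (8 * vc c q + 7) = true := testBit_orR.2 ⟨q, hq, rfl⟩
    have e4 : (G1 (f.getD k 0)).testBit (8 * vc c q + 7) = true := by
      have : (M7 c &&& G1 (f.getD k 0)).testBit (8 * vc c q + 7) = true := by rw [e1]; exact e3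
      rw [Nat.testBit_and, e3, Bool.true_and] at this
      exact this
    obtain ⟨hz, hv⟩ := G1_testBit e4
    refine ⟨hz, hv, ?_⟩
    have e5 : (M7 c &&& G2 (f.getD k 0)).testBit (8 * vc c q + 7) =
        decide (129 ≤ val8 (f.getD k 0) (vc c q)) := by
      rw [Nat.testBit_and, e3, Bool.true_and, G2_testBit hz]
    rw [e2, Nat.testBit_two_pow] at e5
    constructor
    · intro h4
      by_contra h5
      have h6 : decide (8 * vc c k + 7 = 8 * vc c q + 7) = true := by rw [e5]; simpa using h4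
      rw [decide_eq_true_eq] at h6
      exact hne k hk q hq h5 (by omega)
    · intro h4
      subst h4
      simpa using e5.symm
  refine ⟨hlen, ?_, ?_⟩
  · rw [funB, Bool.and_eq_true, baryB, allB_iff, allB_iff]
    constructor
    · intro k hk
      rw [allB_iff]
      intro q hq
      obtain ⟨-, h4, h5⟩ := hval k hk q hq
      have h6 := val8_eq (f.getD k 0) (vc c q)
      change 128 ≤ val8 (f.getD k 0) (vc c q) at h4
      have e1 : vlin 6 (anL f k) (vc c q) = vlin 6 (cb (f.getD k 0)) (vc c q) := rfl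
      have e2 : vlin 6 (apL f k) (vc c q) = vlin 6 (ca (f.getD k 0)) (vc c q) := rfl
      rw [e1, e2]
      by_cases hqk : q = k
      · have h7 := h5.2 hqk
        have h8 : Nat.beq q k = true := by rw [hqk]; exact Nat.beq_refl k
        rw [h8, cond_true, Nat.blt_eq]
        omega
      · have h7 : ¬ 129 ≤ val8 (f.getD k 0) (vc c q) := fun h => hqk (h5.1 h)
        have h8 : Nat.beq q k = false := by
          rw [Bool.eq_false_iff]; exact fun h => hqk (Nat.eq_of_beq_eq_true h)
        rw [h8, cond_false]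
        have h9 : vlin 6 (cb (f.getD k 0)) (vc c q) = vlin 6 (ca (f.getD k 0)) (vc c q) := by omega
        rw [h9]
        exact Nat.beq_refl _
    · intro k hk
      exact (h2 k (by omega)).2
  · exact (forall_getD hlen (fun m => smallM Q m = true)).1 fun k hk => (h2 k (by omega)).2

/-! ### Check of the counts of one group of orbits -/

/-- digit `γ` to the base `2 ^ 32` -/
def dg32 (p γ : ℕ) : ℕ := Nat.mod (Nat.shiftRight p (Nat.mul 32 γ)) 4294967296

/-- weighted sum of the counts of the first `n` orbits -/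
def sumW (w : ℕ → ℕ) (A one : ℕ) (n : ℕ) : ℕ :=
  Nat.rec (motive := fun _ => ℕ) 0 (fun r ih =>
    bif Nat.beq (w r) 0 then ih else Nat.add ih (Nat.mul (w r) (cR A one r))) n

lemma sumW_eq (w : ℕ → ℕ) (A one : ℕ) (n : ℕ) :
    sumW w A one n = ∑ r ∈ Finset.range n, w r * cR A one r := by
  induction n with
  | zero => rfl
  | succ n ih =>
    have h : sumW w A one (n+1) = bif Nat.beq (w n) 0 then sumW w A one n
      else sumW w A one n + w n * cR A one n := rfl
    rw [h, Finset.sum_range_succ, ← ih]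
    cases h1 : Nat.beq (w n) 0
    · rfl
    · rw [Nat.eq_of_beq_eq_true h1]; simp

/-- check of the weighted counts of one group of `g` orbits, from the joint mask `A` -/
def chkA (g : ℕ) (one : ℕ) (wc wp wn : ℕ → ℕ) (OFF A sc sd : ℕ) : Bool :=
  Nat.ble (sumW wc A one g) sc &&
    Nat.ble (Nat.add (sumW wp A one g) OFF) (Nat.add sd (sumW wn A one g))

/-- check of one group (number `γ`) of `g` orbits for one representative -/
def chkG (Q g : ℕ) (ev : ℕ → ℕ) (Xv : ℕ → ℕ → ℕ) (one : ℕ) (wc wp wn : ℕ → ℕ) (OFF γ : ℕ)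
    (e : Ent) : Bool :=
  match e.f with
  | [] => false
  | m :: l => chkA g one wc wp wn OFF (andL (fun m => cfN Q ev Xv one m g) m l)
      (dg32 e.pc γ) (dg32 e.pd γ)

/-- check of the total sums of one representative -/
def totE (G OFF BC BD : ℕ) (e : Ent) : Bool :=
  Nat.ble (sumN G (dg32 e.pc)) BC && Nat.ble (sumN G (dg32 e.pd)) (BD + G * OFF)

lemma pk_one_testBit {α : Type} (L : List α) :
    ∀ i, (pk 16 (fun _ => 1) L).testBit i = true → i % 16 = 0 := by
  induction L with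
  | nil => intro i h; simp [pk] at h
  | cons y L ih =>
    intro i h
    rw [pk, add_comm, Nat.testBit_two_pow_mul_add _ (by norm_num)] at h
    split_ifs at h with h1
    · rw [Nat.testBit_one_eq_true_iff_self_eq_zero] at h
      omega
    · have := ih _ h
      omega

/-- the certificate -/
structure Cert (Q g G OFF BC BD : ℕ) (D : List Ent) (x : ℕ → ℕ → Fin 6 → ℕ)
    (X : ℕ → ℕ → ℕ → ℕ) (one : ℕ) (ev wc wp wn : ℕ → ℕ → ℕ) : Prop where
  Qpos : 0 < Q
  gle : g ≤ 16
  typ : ∀ γ < G, ∀ r < g, (ev γ r = 0 ∧ wn γ r = 0) ∨ (ev γ r = 1 ∧ wc γ r = 0 ∧ wp γ r = 0)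
  orb : ∀ γ < G, ∀ r < g, PackedOrbit 6 Q 16 (x γ r) (X γ r) one
  fn : ∀ e ∈ D, funE Q e = true
  chk : ∀ γ < G, ∀ e ∈ D, chkG Q g (ev γ) (X γ) one (wc γ) (wp γ) (wn γ) OFF γ e = true
  tot : ∀ e ∈ D, totE G OFF BC BD e = true

/-- every nondegenerate vertex simplex is equivalent to an entry of the list -/
def LevL (D : List Ent) : Prop :=
  ∀ v : Fin 7 → (Fin 6 → ℝ), (∀ q j, v q j = 0 ∨ v q j = 1) → AffineIndependent ℝ v → ∃ e ∈ D,
    ∃ g : Sym 6, ∀ q, ∃ q' < 7, gmap g (v q) = vtx 6 (e.C q')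

lemma sum_div_mod (G g : ℕ) (F : ℕ → ℕ → ℕ) :
    ∑ o : Fin (G * g), F ((o : ℕ) / g) ((o : ℕ) % g) = ∑ γ ∈ Finset.range G,
      ∑ r ∈ Finset.range g, F γ r := by
  rw [← Equiv.sum_comp finProdFinEquiv, Fintype.sum_prod_type, Finset.sum_range]
  refine Finset.sum_congr rfl fun γ _ => ?_
  rw [Finset.sum_range]
  refine Finset.sum_congr rfl fun r _ => ?_
  have hg : 0 < g := lt_of_le_of_lt (Nat.zero_le _) r.2
  rw [finProdFinEquiv_apply_val, Nat.add_mul_div_left _ _ hg, Nat.div_eq_of_lt r.2,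
    Nat.zero_add, Nat.add_mul_mod_self_left, Nat.mod_eq_of_lt r.2]

section bounds
variable {Q g G OFF BC BD : ℕ} {D : List Ent} {x : ℕ → ℕ → Fin 6 → ℕ} {X : ℕ → ℕ → ℕ → ℕ}
  {one : ℕ} {ev wc wp wn : ℕ → ℕ → ℕ}

/-- the counts of a representative -/
lemma Cert.counts (h : Cert Q g G OFF BC BD D x X one ev wc wp wn) {e : Ent} (he : e ∈ D) :
    ∑ γ ∈ Finset.range G, ∑ r ∈ Finset.range g,
        wc γ r * cntE 6 Q 16 0 (apL e.f) (anL e.f) (X γ r) one 7 ≤ BC ∧
      ∑ γ ∈ Finset.range G, ∑ r ∈ Finset.range g,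
        wp γ r * cntE 6 Q 16 0 (apL e.f) (anL e.f) (X γ r) one 7 ≤
      BD + ∑ γ ∈ Finset.range G, ∑ r ∈ Finset.range g,
        wn γ r * cntE 6 Q 16 1 (apL e.f) (anL e.f) (X γ r) one 7 := by
  obtain ⟨hlen, -, hsm⟩ := funC_spec (h.fn e he)
  have hcb : ∀ m' ∈ e.f, cb m' 0 * Q < 2 ^ 15 := by
    intro m' hm'
    have h1 := hsm m' hm'
    rw [smallM, Bool.and_eq_true] at h1
    have h2 := Nat.blt_eq.mp h1.2
    rw [sumN_eq] at h2
    have h3 : cb m' 0 ≤ ∑ j : Fin (6+1), cb m' j :=
      Finset.single_le_sum (f := fun j : Fin (6+1) => cb m' (j : ℕ))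
        (fun i _ => Nat.zero_le _) (Finset.mem_univ (0 : Fin (6+1)))
    exact lt_of_le_of_lt (Nat.mul_le_mul_right _ h3) h2
  have hgr : ∀ γ < G, ∑ r ∈ Finset.range g,
        wc γ r * cntE 6 Q 16 0 (apL e.f) (anL e.f) (X γ r) one 7 ≤ dg32 e.pc γ ∧
      ∑ r ∈ Finset.range g,
        wp γ r * cntE 6 Q 16 0 (apL e.f) (anL e.f) (X γ r) one 7 + OFF ≤
      dg32 e.pd γ + ∑ r ∈ Finset.range g,
        wn γ r * cntE 6 Q 16 1 (apL e.f) (anL e.f) (X γ r) one 7 := by
    intro γ hγ
    have h1 := h.chk γ hγ e he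
    obtain ⟨c, f, pc, pd⟩ := e
    cases f with
    | nil => simp at hlen
    | cons m l =>
      have h2 : chkA g one (wc γ) (wp γ) (wn γ) OFF
        (andL (fun m => cfN Q (ev γ) (X γ) one m g) m l) (dg32 pc γ) (dg32 pd γ) = true := h1
      set A := andL (fun m => cfN Q (ev γ) (X γ) one m g) m l with hA
      rw [chkA, Bool.and_eq_true] at h2
      have h3 := Nat.le_of_ble_eq_true h2.1
      have h4 := Nat.le_of_ble_eq_true h2.2
      change sumW (wp γ) A one g + OFF ≤ dg32 pd γ + sumW (wn γ) A one g at h4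
      rw [sumW_eq] at h3
      rw [sumW_eq, sumW_eq] at h4
      have hc : ∀ r < g, cR A one r = cntE 6 Q 16 (ev γ r) (apL (m :: l)) (anL (m :: l))
          (X γ r) one 7 := by
        intro r hr
        have hone : ∀ i, one.testBit i = true → i % 16 = 0 := by
          rw [(h.orb γ hγ r hr).ones]
          exact pk_one_testBit _
        have hev : ev γ r ≤ 1 := by
          rcases h.typ γ hγ r hr with h5 | h5 <;> omega
        exact cR_eq hone h.gle hr hev hlen hcb
      have e1 : ∑ r ∈ Finset.range g, wc γ r * cR A one r = ∑ r ∈ Finset.range g,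
          wc γ r * cntE 6 Q 16 0 (apL (m :: l)) (anL (m :: l)) (X γ r) one 7 := by
        refine Finset.sum_congr rfl fun r hr => ?_
        rw [Finset.mem_range] at hr
        rcases h.typ γ hγ r hr with h5 | h5
        · rw [hc r hr, h5.1]
        · rw [h5.2.1]; simp
      have e2 : ∑ r ∈ Finset.range g, wp γ r * cR A one r = ∑ r ∈ Finset.range g,
          wp γ r * cntE 6 Q 16 0 (apL (m :: l)) (anL (m :: l)) (X γ r) one 7 := by
        refine Finset.sum_congr rfl fun r hr => ?_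
        rw [Finset.mem_range] at hr
        rcases h.typ γ hγ r hr with h5 | h5
        · rw [hc r hr, h5.1]
        · rw [h5.2.2]; simp
      have e3 : ∑ r ∈ Finset.range g, wn γ r * cR A one r = ∑ r ∈ Finset.range g,
          wn γ r * cntE 6 Q 16 1 (apL (m :: l)) (anL (m :: l)) (X γ r) one 7 := by
        refine Finset.sum_congr rfl fun r hr => ?_
        rw [Finset.mem_range] at hr
        rcases h.typ γ hγ r hr with h5 | h5
        · rw [h5.2]; simp
        · rw [hc r hr, h5.1]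
      rw [e1] at h3
      rw [e2, e3] at h4
      exact ⟨h3, h4⟩
  have ht := h.tot e he
  rw [totE, Bool.and_eq_true] at ht
  have ht1 := Nat.le_of_ble_eq_true ht.1
  have ht2 := Nat.le_of_ble_eq_true ht.2
  rw [sumN_eq, ← Finset.sum_range (fun γ => dg32 e.pc γ)] at ht1
  rw [sumN_eq, ← Finset.sum_range (fun γ => dg32 e.pd γ)] at ht2
  constructor
  · exact (Finset.sum_le_sum fun γ hγ => (hgr γ (Finset.mem_range.1 hγ)).1).trans ht1
  · have h5 := Finset.sum_le_sum fun γ hγ => (hgr γ (Finset.mem_range.1 hγ)).2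
    rw [Finset.sum_add_distrib, Finset.sum_add_distrib, Finset.sum_const, Finset.card_range,
      smul_eq_mul] at h5
    omega

/-- **covers by vertex simplices** -/
theorem Cert.cover (h : Cert Q g G OFF BC BD D x X one ev wc wp wn) (hL : LevL D) {N : ℕ}
    {W : Fin N → Fin 7 → Fin 6 → ℝ} (hW : IsCover W) (hv : IsVertexFamily W) :
    46080 * ∑ γ ∈ Finset.range G, ∑ r ∈ Finset.range g, wc γ r ≤ N * BC := by
  have hLev : LevI 6 7 D.length (fun i => (D.getD i ⟨0, [], 0, 0⟩).C) := by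
    intro v h1 h2
    obtain ⟨e, he, gg, hg⟩ := hL v h1 h2
    obtain ⟨i, hi, rfl⟩ := List.mem_iff_getElem.1 he
    exact ⟨i, hi, gg, by beta_reduce; rw [List.getD_eq_getElem _ _ hi]; exact hg⟩
  have hmem : ∀ i < D.length, D.getD i ⟨0, [], 0, 0⟩ ∈ D := by
    intro i hi
    rw [List.getD_eq_getElem _ _ hi]
    exact List.getElem_mem hi
  have hX : ∀ o < G * g, PackedOrbit 6 Q 16 (x (o / g) (o % g)) (X (o / g) (o % g)) one := by
    intro o ho
    have hg : 0 < g := Nat.pos_of_ne_zero (by rintro rfl; simp at ho)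
    exact h.orb _ ((Nat.div_lt_iff_lt_mul hg).2 ho) _ (Nat.mod_lt _ hg)
  have key := cover_bound_unsigned (d := 6) (Q := Q) (b := 16) (K := G * g) (B := BC)
    (n := D.length) (wt := fun o => wc (o / g) (o % g)) (one := one)
    (ap := fun i => apL (D.getD i ⟨0, [], 0, 0⟩).f) (an := fun i => anL (D.getD i ⟨0, [], 0, 0⟩).f)
    (by norm_num) h.Qpos hX (by norm_num [Nat.factorial]) hLev
    (fun i hi => (funC_spec (h.fn _ (hmem i hi))).2.1)
    (fun o i => cntE 6 Q 16 0 (apL (D.getD i ⟨0, [], 0, 0⟩).f) (anL (D.getD i ⟨0, [], 0, 0⟩).f)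
      (X (o / g) (o % g)) one 7) (fun o _ i _ => le_rfl) ?_ hW hv
  · rw [sum_div_mod G g (fun γ r => wc γ r)] at key
    exact key
  · intro i hi
    have h1 := (h.counts (hmem i hi)).1
    rw [← sum_div_mod G g (fun γ r => wc γ r * cntE 6 Q 16 0 (apL (D.getD i ⟨0, [], 0, 0⟩).f)
      (anL (D.getD i ⟨0, [], 0, 0⟩).f) (X γ r) one 7)] at h1
    exact h1

/-- **dissections by vertex simplices** -/
theorem Cert.dissection (h : Cert Q g G OFF BC BD D x X one ev wc wp wn) (hL : LevL D) {N : ℕ}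
    {W : Fin N → Fin 7 → Fin 6 → ℝ} (hW : IsDissection W) (hv : IsVertexFamily W) :
    46080 * ∑ γ ∈ Finset.range G, ∑ r ∈ Finset.range g, wp γ r ≤
      N * BD + 46080 * ∑ γ ∈ Finset.range G, ∑ r ∈ Finset.range g, wn γ r := by
  have hLev : LevI 6 7 D.length (fun i => (D.getD i ⟨0, [], 0, 0⟩).C) := by
    intro v h1 h2
    obtain ⟨e, he, gg, hg⟩ := hL v h1 h2
    obtain ⟨i, hi, rfl⟩ := List.mem_iff_getElem.1 he
    exact ⟨i, hi, gg, by beta_reduce; rw [List.getD_eq_getElem _ _ hi]; exact hg⟩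
  have hmem : ∀ i < D.length, D.getD i ⟨0, [], 0, 0⟩ ∈ D := by
    intro i hi
    rw [List.getD_eq_getElem _ _ hi]
    exact List.getElem_mem hi
  have hX : ∀ o < G * g, PackedOrbit 6 Q 16 (x (o / g) (o % g)) (X (o / g) (o % g)) one := by
    intro o ho
    have hg : 0 < g := Nat.pos_of_ne_zero (by rintro rfl; simp at ho)
    exact h.orb _ ((Nat.div_lt_iff_lt_mul hg).2 ho) _ (Nat.mod_lt _ hg)
  have key := dissection_bound_signed (d := 6) (Q := Q) (b := 16) (Kp := G * g) (Kn := G * g)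
    (B := BD) (n := D.length) (wp := fun o => wp (o / g) (o % g))
    (wn := fun o => wn (o / g) (o % g)) (one := one)
    (ap := fun i => apL (D.getD i ⟨0, [], 0, 0⟩).f) (an := fun i => anL (D.getD i ⟨0, [], 0, 0⟩).f)
    (by norm_num) h.Qpos hX hX (by norm_num [Nat.factorial]) hLev
    (fun i hi => (funC_spec (h.fn _ (hmem i hi))).2.1)
    (fun o i => cntE 6 Q 16 0 (apL (D.getD i ⟨0, [], 0, 0⟩).f) (anL (D.getD i ⟨0, [], 0, 0⟩).f)
      (X (o / g) (o % g)) one 7)
    (fun o i => cntE 6 Q 16 1 (apL (D.getD i ⟨0, [], 0, 0⟩).f) (anL (D.getD i ⟨0, [], 0, 0⟩).f)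
      (X (o / g) (o % g)) one 7) (fun o _ i _ => le_rfl) (fun o _ i _ => le_rfl) ?_ hW hv
  · rw [sum_div_mod G g (fun γ r => wp γ r), sum_div_mod G g (fun γ r => wn γ r)] at key
    exact key
  · intro i hi
    have h1 := (h.counts (hmem i hi)).2
    rw [← sum_div_mod G g (fun γ r => wp γ r * cntE 6 Q 16 0 (apL (D.getD i ⟨0, [], 0, 0⟩).f)
      (anL (D.getD i ⟨0, [], 0, 0⟩).f) (X γ r) one 7), ← sum_div_mod G g (fun γ r => wn γ r *
      cntE 6 Q 16 1 (apL (D.getD i ⟨0, [], 0, 0⟩).f) (anL (D.getD i ⟨0, [], 0, 0⟩).f)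
      (X γ r) one 7)] at h1
    exact h1

end bounds

end Helper67.Cube6
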