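import Pool.Agent.Helper67.Cube6.Dot
import Pool.Agent.Helper41.Target
import Pool.Agent.Helper67.CubeTri

/-!
# Objectives with negative bounds, and the largest determinant of order six

For dissections the bound of the objective may be negative for some classes; the tables hold the
bound plus an offset.
-/

set_option autoImplicit false

namespace Helper67.BS

open Helper67.Cube

/-- check of the base, the table holds the bound plus `off` -/
def baseZ (V : ℕ → ℕ) (c : ℕ → ℚ) (M : ℕ → ℕ → ℕ) (off : ℕ) (lam mu : ℚ) (m i : ℕ) : Prop :=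
  0 ≤ lam ∧ 0 ≤ mu ∧ ∀ n < m + 1, ∀ δ < V (m - n) + 1,
    δ = 0 ∨ lam * ((M n δ : ℚ) - off) + mu * δ ≤ aQ i n - δ * bQ c i n

instance (V : ℕ → ℕ) (c : ℕ → ℚ) (M : ℕ → ℕ → ℕ) (off : ℕ) (lam mu : ℚ) (m i : ℕ) :
    Decidable (baseZ V c M off lam mu m i) := by
  unfold baseZ; infer_instance

/-- **base of the chain** -/
theorem LevP.baseZ {dis : Bool} {V : ℕ → ℕ} {c : ℕ → ℚ} {M : ℕ → ℕ → ℕ} {off : ℕ} {lam mu : ℚ}
    {m i : ℕ} (hV : ∀ i ≤ m, maxDet i ≤ V i) (hVm : ∀ i < m, V i ≤ V (i+1))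
    (hb : baseZ V c M off lam mu m i) {Φ : (Fin (m+1) → Fin m → ℝ) → ℝ} {Tot : ℚ}
    (hΦ : ∀ w : Fin (m+1) → Fin m → ℝ, AffineIndependent ℝ w → (∀ i j, w i j = 0 ∨ w i j = 1) →
      Φ w + off ≤ M (kk w) (ndet w))
    (hT : ∀ (N : ℕ) (W : Fin N → Fin (m+1) → Fin m → ℝ), IsCover W → IsVertexFamily W →
      (dis = true → IsDissection W) → (Tot : ℝ) ≤ ∑ s, Φ (W s)) :
    LevP dis c m i (lam * Tot + mu * m.factorial) := by
  obtain ⟨V', hV', hVm', hVe⟩ := exists_V hV hVm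
  obtain ⟨hlam, hmu, hb⟩ := hb
  intro N W hW hv hd
  have h1 := base_of_le hW hv (psi := psiQ c i) (Φ := Φ) (lam := (lam : ℝ)) (mu := (mu : ℝ))
    (Tot := (Tot : ℝ)) (by exact_mod_cast hlam) (by exact_mod_cast hmu) ?_ (hT N W hW hv hd)
  · refine le_trans (le_of_eq ?_) h1
    push_cast
    ring
  · intro w hw hv'
    have h2 := ndet_le hV' hVm' hv'
    rw [hVe _ (Nat.sub_le _ _)] at h2
    have h3 := one_le_ndet hw hv'
    have h4 := (hb (kk w) (by have := kk_le w; omega) (ndet w) (by omega)).resolve_left (by omega)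
    have h5 : (lam : ℝ) * Φ w ≤ lam * (M (kk w) (ndet w) - off) :=
      mul_le_mul_of_nonneg_left (by have := hΦ w hw hv'; linarith) (by exact_mod_cast hlam)
    have h6 : ((lam * ((M (kk w) (ndet w) : ℚ) - off) + mu * ndet w : ℚ) : ℝ) ≤
        psiQ c i (ndet w) (kk w) := by
      unfold psiQ
      exact_mod_cast h4
    push_cast at h6
    rw [ndet_cast hv'] at h6
    linarith

end Helper67.BS

namespace Helper67.Cube18

open Helper67.Cube
open Helper67.Cube6 (Ent vc LevL)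
open Helper67.BS (ndet LevP baseZ ndet_cast stepQ)
open Helper63.Cube7 (detE kkE)

/-- the objective is bounded for all entries of the list, the table holds the bound plus `off` -/
def LZ (M : ℕ → ℕ → ℕ) (off : ℕ) (lp ln : List ℕ) (D : List Ent) : Prop :=
  ∀ e ∈ D, wsumL lp e.pc + off ≤ M (Nat.land e.pd 7) (Nat.shiftRight e.pd 3) + wsumL ln e.pc

lemma LZ.append {M : ℕ → ℕ → ℕ} {off : ℕ} {lp ln : List ℕ} {D D' : List Ent}
    (h : LZ M off lp ln D) (h' : LZ M off lp ln D') : LZ M off lp ln (D ++ D') := by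
  intro e he
  rcases List.mem_append.1 he with he | he
  · exact h e he
  · exact h' e he

/-- fast check of an objective with offset -/
def objN (M : ℕ → ℕ → ℕ) (off m s P0 P1 P2 N0 N1 N2 : ℕ) (e : Ent) : Bool :=
  Nat.ble (Nat.add (dot3 m s P0 P1 P2 e.pc) off)
    (Nat.add (M (Nat.land e.pd 7) (Nat.shiftRight e.pd 3)) (dot3 m s N0 N1 N2 e.pc))

theorem LZ.of_fast {M : ℕ → ℕ → ℕ} {off n m s : ℕ} {p0 p1 p2 n0 n1 n2 : List ℕ}
    {P0 P1 P2 N0 N1 N2 : ℕ} {D : List Ent} (hm : MK n = m ∧ 48 * n = s)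
    (hP : okW n p0 P0 ∧ okW n p1 P1 ∧ okW n p2 P2)
    (hN : okW n n0 N0 ∧ okW n n1 N1 ∧ okW n n2 N2) (hn : 3 * n ≤ 255)
    (h : D.all (objN M off m s P0 P1 P2 N0 N1 N2) = true) :
    LZ M off (cd3 p0 p1 p2) (cd3 n0 n1 n2) D := by
  rw [List.all_eq_true] at h
  intro e he
  have h1 := h e he
  rw [wsumL_cd3 hm hP hn, wsumL_cd3 hm hN hn]
  exact Nat.le_of_ble_eq_true h1

lemma pd_of_all {D : List Ent} (h : D.all (fun e => Nat.ble e.pd 79) = true) :
    ∀ e ∈ D, e.pd ≤ 79 := by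
  rw [List.all_eq_true] at h
  exact fun e he => Nat.le_of_ble_eq_true (h e he)

lemma appPd {D D' : List Ent} (h : ∀ e ∈ D, e.pd ≤ 79) (h' : ∀ e ∈ D', e.pd ≤ 79) :
    ∀ e ∈ D ++ D', e.pd ≤ 79 := by
  intro e he
  rcases List.mem_append.1 he with he | he
  · exact h e he
  · exact h' e he

section base
variable {Q g G : ℕ} {x : ℕ → Fin 6 → ℕ} {ev : ℕ → ℕ → ℕ} {D : List Ent}
  {M : ℕ → ℕ → ℕ} {off : ℕ} {lp ln : List ℕ}

/-- the digits of an entry bound the counts of every simplex of its class -/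
lemma HV.digits {X : ℕ → ℕ → ℕ → ℕ} {one : ℕ} (h : HV Q g G X one ev D)
    (hQ : 0 < Q) (hg : g ≤ 18) (hg0 : 0 < g) (hev : ∀ γ < G, ∀ r < g, ev γ r ≤ 1)
    (ho : ∀ γ < G, ∀ r < g, PackedOrbit 6 Q 18 (x (g * γ + r)) (X γ r) one)
    {e : Ent} (he : e ∈ D) {w : Fin 7 → Fin 6 → ℝ} (hw : AffineIndependent ℝ w)
    (hgg : ∃ gg : Sym 6, ∀ q, ∃ q' < 7, gmap gg (w q) = vtx 6 (vc e.c q')) :
    ∀ o < G * g, (ev (o / g) (o % g) = 0 → cnt (rp Q (x o)) (body w) ≤ dg16 e.pc o) ∧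
      (ev (o / g) (o % g) = 1 → dg16 e.pc o ≤ cnt (rp Q (x o)) (interior (body w))) := by
  obtain ⟨gg, hgg⟩ := hgg
  have hf := h.1 e he
  obtain ⟨-, hfun, -⟩ := funC_spec hf
  rw [funB, Bool.and_eq_true] at hfun
  have hlen : (6).factorial * 2 ^ 6 < 2 ^ 18 - 1 := by norm_num [Nat.factorial]
  intro o ho'
  have hγ : o / g < G := (Nat.div_lt_iff_lt_mul hg0).2 ho'
  have hr : o % g < g := Nat.mod_lt _ hg0
  have hoe : g * (o / g) + o % g = o := Nat.div_add_mod o g
  have hp := ho _ hγ _ hr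
  have hone : ∀ i, one.testBit i = true → i % 18 = 0 := by
    rw [hp.ones]
    exact pk_one_testBit _
  have h1 := chkP_spec hg (hev _ hγ) (fun r hr j hj => PackedOrbit.le_mul (ho _ hγ r hr) j hj)
    hone hf (h.2 _ hγ e he) _ hr
  rw [hoe] at h1 hp
  constructor
  · intro h2
    exact (cnt_body_le (by norm_num) hQ hp.le hp.coord hp.ones hlen hfun.1 hfun.2 gg hgg).trans
      (h1.1 h2)
  · intro h2
    exact (h1.2 (by omega)).trans
      (le_cnt_interior (by norm_num) hQ hp.le hp.coord hp.ones hlen hfun.1 hfun.2 hw gg hgg)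

/-- the entries have the right determinants and numbers of exterior facets -/
lemma Base6.ent (h : Base6 Q g G x ev D) {w : Fin 7 → Fin 6 → ℝ} (hw : AffineIndependent ℝ w)
    (hv : ∀ i j, w i j = 0 ∨ w i j = 1) : ∃ e ∈ D, (∃ gg : Sym 6, ∀ q, ∃ q' < 7,
      gmap gg (w q) = vtx 6 (vc e.c q')) ∧ kk w = Nat.land e.pd 7 ∧
        ndet w = Nat.shiftRight e.pd 3 := by
  obtain ⟨e, he, gg, hgg⟩ := h.lev w hv hw
  obtain ⟨hd, hk⟩ := invE e.c w hw hv ⟨gg, hgg⟩
  have h2 := h.ed e he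
  unfold edB at h2
  cases h3 : Nat.beq (kkE e.c) (Nat.land e.pd 7)
  · rw [h3] at h2; exact absurd h2 (by simp)
  · rw [h3, cond_true] at h2
    have h4 := Nat.eq_of_beq_eq_true h3
    have h5 := Nat.eq_of_beq_eq_true h2
    refine ⟨e, he, ⟨gg, hgg⟩, hk.trans h4, ?_⟩
    have := ndet_cast hv
    rw [hd] at this
    have h6 : ndet w = Helper63.Cube7.detE e.c := by exact_mod_cast this
    exact h6.trans h5

lemma Base6.objZ (h : Base6 Q g G x ev D) (hM : LZ M off lp ln D)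
    (hlp : kindB (G * g) 0 (fun o => ev (o / g) (o % g)) lp = true)
    (hln : kindB (G * g) 1 (fun o => ev (o / g) (o % g)) ln = true)
    (w : Fin 7 → Fin 6 → ℝ) (hw : AffineIndependent ℝ w) (hv : ∀ i j, w i j = 0 ∨ w i j = 1) :
    PhiL Q x lp ln w + off ≤ M (kk w) (ndet w) := by
  obtain ⟨e, he, hg, hk, hd⟩ := h.ent hw hv
  obtain ⟨X, one, h1, h2⟩ := h.hv
  have h4 := hM e he
  have hcase := h1.digits h.hQ h.hg h.hg0 h.hev h2 he hw hg
  have hlp' : ∀ q ∈ lp, q &&& 255 < G * g ∧ ev ((q &&& 255) / g) ((q &&& 255) % g) = 0 := by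
    intro q hq
    rw [kindB, List.all_eq_true] at hlp
    have := hlp q hq
    rw [Bool.and_eq_true] at this
    exact ⟨Nat.blt_eq.mp this.1, Nat.eq_of_beq_eq_true this.2⟩
  have hln' : ∀ q ∈ ln, q &&& 255 < G * g ∧ ev ((q &&& 255) / g) ((q &&& 255) % g) = 1 := by
    intro q hq
    rw [kindB, List.all_eq_true] at hln
    have := hln q hq
    rw [Bool.and_eq_true] at this
    exact ⟨Nat.blt_eq.mp this.1, Nat.eq_of_beq_eq_true this.2⟩
  have a1 : (lp.map fun q => (q >>> 8) * cnt (rp Q (x (q &&& 255))) (body w)).sum ≤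
      wsumL lp e.pc := by
    rw [wsumL_eq]
    exact sum_map_le fun q hq => Nat.mul_le_mul_left _ ((hcase _ (hlp' q hq).1).1 (hlp' q hq).2)
  have a2 : wsumL ln e.pc ≤
      (ln.map fun q => (q >>> 8) * cnt (rp Q (x (q &&& 255))) (interior (body w))).sum := by
    rw [wsumL_eq]
    exact sum_map_le fun q hq => Nat.mul_le_mul_left _ ((hcase _ (hln' q hq).1).2 (hln' q hq).2)
  have a3 : (lp.map fun q => (q >>> 8) * cnt (rp Q (x (q &&& 255))) (body w)).sum + off ≤
      M (kk w) (ndet w) +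
        (ln.map fun q => (q >>> 8) * cnt (rp Q (x (q &&& 255))) (interior (body w))).sum := by
    rw [hk, hd]
    omega
  have a4 : (((lp.map fun q => (q >>> 8) * cnt (rp Q (x (q &&& 255))) (body w)).sum : ℕ) : ℝ) +
      off ≤ M (kk w) (ndet w) +
        (((ln.map fun q => (q >>> 8) * cnt (rp Q (x (q &&& 255))) (interior (body w))).sum : ℕ)
          : ℝ) := by exact_mod_cast a3
  unfold PhiL
  linarith

/-- dissections: the inequality at level 6 -/
theorem Base6.dissectionZ (h : Base6 Q g G x ev D) (hM : LZ M off lp ln D)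
    (hlp : kindB (G * g) 0 (fun o => ev (o / g) (o % g)) lp = true)
    (hln : kindB (G * g) 1 (fun o => ev (o / g) (o % g)) ln = true) {V : ℕ → ℕ} {c : ℕ → ℚ}
    {lam mu : ℚ} {i : ℕ} (hV : ∀ i ≤ 6, maxDet i ≤ V i) (hVm : ∀ i < 6, V i ≤ V (i+1))
    (hb : baseZ V c M off lam mu 6 i) :
    LevP true c 6 i (lam * (((46080 * totL lp : ℕ) : ℚ) - ((46080 * totL ln : ℕ) : ℚ)) +
      mu * (6).factorial) := by
  refine LevP.baseZ (Φ := PhiL Q x lp ln)
    (Tot := ((46080 * totL lp : ℕ) : ℚ) - ((46080 * totL ln : ℕ) : ℚ)) hV hVm hb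
    (h.objZ hM hlp hln) ?_
  intro N W hW _ hd
  have h1 := PhiL_total_dissection (lp := lp) (ln := ln) h.hQ (h.le hlp) (hd rfl)
  rw [Rat.cast_sub, Rat.cast_natCast, Rat.cast_natCast]
  exact h1

open Helper41.Target in
/-- dissections in dimension `6 + t` -/
theorem boundDZ (h : Base6 Q g G x ev D) (hM : LZ M off lp ln D)
    (hlp : kindB (G * g) 0 (fun o => ev (o / g) (o % g)) lp = true)
    (hln : kindB (G * g) 1 (fun o => ev (o / g) (o % g)) ln = true) {c : ℕ → ℚ} {lam mu : ℚ}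
    {t : ℕ} (ht : t ≤ 6) (hb : baseZ VV c M off lam mu 6 t)
    (hs : ∀ i < t, stepQ VV c i (5+t-i)) {B : ℕ} (hB : (B : ℚ) - 1 < omF c t
      (lam * (((46080 * totL lp : ℕ) : ℚ) - ((46080 * totL ln : ℕ) : ℚ)) + mu * 720)) {N : ℕ}
    {W : Fin N → Fin (6+t+1) → Fin (6+t) → ℝ} (hW : IsDissection W) (hv : IsVertexFamily W) :
    B ≤ N := by
  have h1 := h.dissectionZ hM hlp hln (V := VV) (c := c) (lam := lam) (mu := mu) (i := t)
    (fun i hi => VV_le i (by omega)) (fun i hi => VV_mono i (by omega)) hb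
  have e : ((6).factorial : ℚ) = 720 := by norm_num [Nat.factorial]
  rw [e] at h1
  have h2 := chain ht hs t le_rfl _ 6 (by omega) h1
  have h3 := h2.target hW.1 hv (fun _ => hW)
  have h4 : omF c t (lam * (((46080 * totL lp : ℕ) : ℚ) - ((46080 * totL ln : ℕ) : ℚ)) +
      mu * 720) ≤ (N : ℚ) := by
    exact_mod_cast h3
  have h5 : (B : ℚ) < (N : ℚ) + 1 := by linarith
  have h6 : B < N + 1 := by exact_mod_cast h5
  omega

/-- determinants of order six are at most nine -/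
theorem Base6.maxDet_six (h : Base6 Q g G x ev D) (h9 : ∀ e ∈ D, e.pd ≤ 79) : maxDet 6 ≤ 9 := by
  unfold maxDet
  refine Finset.sup_le fun A _ => ?_
  by_cases hA : (Matrix.of fun i j => if A i j then (1 : ℤ) else 0).det = 0
  · rw [hA]; simp
  set w : Fin 7 → Fin 6 → ℝ := Fin.cons 0 (fun i j => if A i j then (1:ℝ) else 0) with hwdef
  have hv : ∀ i j, w i j = 0 ∨ w i j = 1 := by
    intro i j
    refine Fin.cases ?_ (fun i => ?_) i
    · left; simp [hwdef]
    · simp only [hwdef, Fin.cons_succ]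
      split_ifs
      · right; rfl
      · left; rfl
  have hedge : edge w =
      ((Matrix.of fun i j => if A i j then (1 : ℤ) else 0).map (Int.cast : ℤ → ℝ)) := by
    ext i j
    simp only [edge, Matrix.of_apply, Matrix.map_apply, hwdef, Fin.cons_succ, Fin.cons_zero]
    split_ifs <;> simp
  have hdet' : (bord w).det =
      (((Matrix.of fun i j => if A i j then (1 : ℤ) else 0).det : ℤ) : ℝ) := by
    rw [det_bord, hedge, Int.cast_det]
  have hdet : vdet w = (((Matrix.of fun i j => if A i j then (1 : ℤ) else 0).det.natAbs : ℕ) : ℝ)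
      := by
    rw [vdet, hdet', Nat.cast_natAbs, Int.cast_abs]
  have hw : AffineIndependent ℝ w := by
    refine affineIndependent_of_det ?_
    rw [hdet']
    exact_mod_cast hA
  obtain ⟨e, he, -, -, hd⟩ := h.ent hw hv
  have h1 := h9 e he
  have h2 : ndet w = (Matrix.of fun i j => if A i j then (1 : ℤ) else 0).det.natAbs := by
    have := ndet_cast hv
    rw [hdet] at this
    exact_mod_cast this
  rw [← h2, hd]
  have h3 : Nat.shiftRight e.pd 3 = e.pd / 2 ^ 3 := Nat.shiftRight_eq_div_pow _ _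
  rw [h3]
  omega

end base

end Helper67.Cube18
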