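import Pool.Agent.Helper67.Cube7.U08
import Pool.Agent.Helper67.Cube7.U09
import Pool.Agent.Helper67.Cube7.U10
import Pool.Agent.Helper67.Cube7.U11
import Pool.Agent.Helper67.Cube6.ObjU
import Pool.Agent.Helper67.Cube6.Neg

/-!
# The objectives for the dimensions 7, ..., 12, part 2
-/

set_option autoImplicit false

namespace Helper67.Cube18.ObjU

open Helper67.Cube18

theorem pd_08 : ∀ e ∈ Helper67.Cube7.U08.D, e.pd ≤ 79 := pd_of_all (by decide +kernel)

theorem loC7_08 : LO MC7 lpC7 [] Helper67.Cube7.U08.D :=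
  LO.of_fastC hmU okPC7 (by norm_num) (by decide +kernel)

theorem loC8_08 : LO MC8 lpC8 [] Helper67.Cube7.U08.D :=
  LO.of_fastC hmU okPC8 (by norm_num) (by decide +kernel)

theorem loC9_08 : LO MC9 lpC9 [] Helper67.Cube7.U08.D :=
  LO.of_fastC hmU okPC9 (by norm_num) (by decide +kernel)

theorem loC10_08 : LO MC10 lpC10 [] Helper67.Cube7.U08.D :=
  LO.of_fastC hmU okPC10 (by norm_num) (by decide +kernel)

theorem loC11_08 : LO MC11 lpC11 [] Helper67.Cube7.U08.D :=
  LO.of_fastC hmU okPC11 (by norm_num) (by decide +kernel)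

theorem loC12_08 : LO MC12 lpC12 [] Helper67.Cube7.U08.D :=
  LO.of_fastC hmU okPC12 (by norm_num) (by decide +kernel)

theorem loD7_08 : LZ MD7 offU lpD7 lnD7 Helper67.Cube7.U08.D :=
  LZ.of_fast hmU okPD7 okND7 (by norm_num) (by decide +kernel)

theorem loD8_08 : LZ MD8 offU lpD8 lnD8 Helper67.Cube7.U08.D :=
  LZ.of_fast hmU okPD8 okND8 (by norm_num) (by decide +kernel)

theorem loD9_08 : LZ MD9 offU lpD9 lnD9 Helper67.Cube7.U08.D :=
  LZ.of_fast hmU okPD9 okND9 (by norm_num) (by decide +kernel)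

theorem loD10_08 : LZ MD10 offU lpD10 lnD10 Helper67.Cube7.U08.D :=
  LZ.of_fast hmU okPD10 okND10 (by norm_num) (by decide +kernel)

theorem loD11_08 : LZ MD11 offU lpD11 lnD11 Helper67.Cube7.U08.D :=
  LZ.of_fast hmU okPD11 okND11 (by norm_num) (by decide +kernel)

theorem loD12_08 : LZ MD12 offU lpD12 lnD12 Helper67.Cube7.U08.D :=
  LZ.of_fast hmU okPD12 okND12 (by norm_num) (by decide +kernel)

theorem pd_09 : ∀ e ∈ Helper67.Cube7.U09.D, e.pd ≤ 79 := pd_of_all (by decide +kernel)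

theorem loC7_09 : LO MC7 lpC7 [] Helper67.Cube7.U09.D :=
  LO.of_fastC hmU okPC7 (by norm_num) (by decide +kernel)

theorem loC8_09 : LO MC8 lpC8 [] Helper67.Cube7.U09.D :=
  LO.of_fastC hmU okPC8 (by norm_num) (by decide +kernel)

theorem loC9_09 : LO MC9 lpC9 [] Helper67.Cube7.U09.D :=
  LO.of_fastC hmU okPC9 (by norm_num) (by decide +kernel)

theorem loC10_09 : LO MC10 lpC10 [] Helper67.Cube7.U09.D :=
  LO.of_fastC hmU okPC10 (by norm_num) (by decide +kernel)

theorem loC11_09 : LO MC11 lpC11 [] Helper67.Cube7.U09.D :=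
  LO.of_fastC hmU okPC11 (by norm_num) (by decide +kernel)

theorem loC12_09 : LO MC12 lpC12 [] Helper67.Cube7.U09.D :=
  LO.of_fastC hmU okPC12 (by norm_num) (by decide +kernel)

theorem loD7_09 : LZ MD7 offU lpD7 lnD7 Helper67.Cube7.U09.D :=
  LZ.of_fast hmU okPD7 okND7 (by norm_num) (by decide +kernel)

theorem loD8_09 : LZ MD8 offU lpD8 lnD8 Helper67.Cube7.U09.D :=
  LZ.of_fast hmU okPD8 okND8 (by norm_num) (by decide +kernel)

theorem loD9_09 : LZ MD9 offU lpD9 lnD9 Helper67.Cube7.U09.D :=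
  LZ.of_fast hmU okPD9 okND9 (by norm_num) (by decide +kernel)

theorem loD10_09 : LZ MD10 offU lpD10 lnD10 Helper67.Cube7.U09.D :=
  LZ.of_fast hmU okPD10 okND10 (by norm_num) (by decide +kernel)

theorem loD11_09 : LZ MD11 offU lpD11 lnD11 Helper67.Cube7.U09.D :=
  LZ.of_fast hmU okPD11 okND11 (by norm_num) (by decide +kernel)

theorem loD12_09 : LZ MD12 offU lpD12 lnD12 Helper67.Cube7.U09.D :=
  LZ.of_fast hmU okPD12 okND12 (by norm_num) (by decide +kernel)

theorem pd_10 : ∀ e ∈ Helper67.Cube7.U10.D, e.pd ≤ 79 := pd_of_all (by decide +kernel)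

theorem loC7_10 : LO MC7 lpC7 [] Helper67.Cube7.U10.D :=
  LO.of_fastC hmU okPC7 (by norm_num) (by decide +kernel)

theorem loC8_10 : LO MC8 lpC8 [] Helper67.Cube7.U10.D :=
  LO.of_fastC hmU okPC8 (by norm_num) (by decide +kernel)

theorem loC9_10 : LO MC9 lpC9 [] Helper67.Cube7.U10.D :=
  LO.of_fastC hmU okPC9 (by norm_num) (by decide +kernel)

theorem loC10_10 : LO MC10 lpC10 [] Helper67.Cube7.U10.D :=
  LO.of_fastC hmU okPC10 (by norm_num) (by decide +kernel)

theorem loC11_10 : LO MC11 lpC11 [] Helper67.Cube7.U10.D :=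
  LO.of_fastC hmU okPC11 (by norm_num) (by decide +kernel)

theorem loC12_10 : LO MC12 lpC12 [] Helper67.Cube7.U10.D :=
  LO.of_fastC hmU okPC12 (by norm_num) (by decide +kernel)

theorem loD7_10 : LZ MD7 offU lpD7 lnD7 Helper67.Cube7.U10.D :=
  LZ.of_fast hmU okPD7 okND7 (by norm_num) (by decide +kernel)

theorem loD8_10 : LZ MD8 offU lpD8 lnD8 Helper67.Cube7.U10.D :=
  LZ.of_fast hmU okPD8 okND8 (by norm_num) (by decide +kernel)

theorem loD9_10 : LZ MD9 offU lpD9 lnD9 Helper67.Cube7.U10.D :=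
  LZ.of_fast hmU okPD9 okND9 (by norm_num) (by decide +kernel)

theorem loD10_10 : LZ MD10 offU lpD10 lnD10 Helper67.Cube7.U10.D :=
  LZ.of_fast hmU okPD10 okND10 (by norm_num) (by decide +kernel)

theorem loD11_10 : LZ MD11 offU lpD11 lnD11 Helper67.Cube7.U10.D :=
  LZ.of_fast hmU okPD11 okND11 (by norm_num) (by decide +kernel)

theorem loD12_10 : LZ MD12 offU lpD12 lnD12 Helper67.Cube7.U10.D :=
  LZ.of_fast hmU okPD12 okND12 (by norm_num) (by decide +kernel)

theorem pd_11 : ∀ e ∈ Helper67.Cube7.U11.D, e.pd ≤ 79 := pd_of_all (by decide +kernel)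

theorem loC7_11 : LO MC7 lpC7 [] Helper67.Cube7.U11.D :=
  LO.of_fastC hmU okPC7 (by norm_num) (by decide +kernel)

theorem loC8_11 : LO MC8 lpC8 [] Helper67.Cube7.U11.D :=
  LO.of_fastC hmU okPC8 (by norm_num) (by decide +kernel)

theorem loC9_11 : LO MC9 lpC9 [] Helper67.Cube7.U11.D :=
  LO.of_fastC hmU okPC9 (by norm_num) (by decide +kernel)

theorem loC10_11 : LO MC10 lpC10 [] Helper67.Cube7.U11.D :=
  LO.of_fastC hmU okPC10 (by norm_num) (by decide +kernel)

theorem loC11_11 : LO MC11 lpC11 [] Helper67.Cube7.U11.D :=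
  LO.of_fastC hmU okPC11 (by norm_num) (by decide +kernel)

theorem loC12_11 : LO MC12 lpC12 [] Helper67.Cube7.U11.D :=
  LO.of_fastC hmU okPC12 (by norm_num) (by decide +kernel)

theorem loD7_11 : LZ MD7 offU lpD7 lnD7 Helper67.Cube7.U11.D :=
  LZ.of_fast hmU okPD7 okND7 (by norm_num) (by decide +kernel)

theorem loD8_11 : LZ MD8 offU lpD8 lnD8 Helper67.Cube7.U11.D :=
  LZ.of_fast hmU okPD8 okND8 (by norm_num) (by decide +kernel)

theorem loD9_11 : LZ MD9 offU lpD9 lnD9 Helper67.Cube7.U11.D :=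
  LZ.of_fast hmU okPD9 okND9 (by norm_num) (by decide +kernel)

theorem loD10_11 : LZ MD10 offU lpD10 lnD10 Helper67.Cube7.U11.D :=
  LZ.of_fast hmU okPD10 okND10 (by norm_num) (by decide +kernel)

theorem loD11_11 : LZ MD11 offU lpD11 lnD11 Helper67.Cube7.U11.D :=
  LZ.of_fast hmU okPD11 okND11 (by norm_num) (by decide +kernel)

theorem loD12_11 : LZ MD12 offU lpD12 lnD12 Helper67.Cube7.U11.D :=
  LZ.of_fast hmU okPD12 okND12 (by norm_num) (by decide +kernel)

end Helper67.Cube18.ObjU
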