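import Pool.Agent.Helper67.Cube6.Chunk
import Pool.Agent.Helper67.BS.Lift

/-!
# Certificates at level 6 for bounds in dimension 7

For every class of vertex simplices of the 6-cube the weighted counts are bounded in terms of the
number of exterior facets and of the determinant.
-/

set_option autoImplicit false

namespace Helper67.Cube18

open Helper67.Cube
open Helper67.Cube6 (Ent vc dg32 totE LevL apL anL)
open Pool.Agent.Helper63.Cube6 (fc fc_eq)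

/-- check of the total sums of one representative with `kkF e.c` exterior facets and determinant
`detF e.c` -/
def totV (G OFF LC LD : ℕ) (kkF detF : ℕ → ℕ) (e : Ent) : Bool :=
  fc (kkF e.c) fun n => fc (detF e.c) fun δ =>
    cond (Nat.ble δ 32)
      (cond (Nat.ble (Nat.mul (Nat.succ n) (sumN G (dg32 e.pc))) (Nat.mul LC (Nat.sub 32 δ)))
        (Nat.ble (Nat.mul (Nat.succ n) (Nat.sub (sumN G (dg32 e.pd)) (Nat.mul G OFF)))
          (Nat.mul LD (Nat.sub 32 δ))) false) false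

lemma totV_spec {G OFF LC LD : ℕ} {kkF detF : ℕ → ℕ} {e : Ent}
    (h : totV G OFF LC LD kkF detF e = true) :
    detF e.c ≤ 32 ∧ (kkF e.c + 1) * sumN G (dg32 e.pc) ≤ LC * (32 - detF e.c) ∧
      (kkF e.c + 1) * (sumN G (dg32 e.pd) - G * OFF) ≤ LD * (32 - detF e.c) := by
  unfold totV at h
  rw [fc_eq, fc_eq] at h
  cases h1 : Nat.ble (detF e.c) 32
  · rw [h1] at h; exact absurd h (by simp)
  · rw [h1, cond_true] at h
    cases h2 : Nat.ble (Nat.mul (Nat.succ (kkF e.c)) (sumN G (dg32 e.pc)))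
        (Nat.mul LC (Nat.sub 32 (detF e.c)))
    · rw [h2] at h; exact absurd h (by simp)
    · rw [h2, cond_true] at h
      exact ⟨Nat.le_of_ble_eq_true h1, Nat.le_of_ble_eq_true h2, Nat.le_of_ble_eq_true h⟩

/-- a property of all numbers below `G` -/
def AllG (P : ℕ → Prop) : ℕ → Prop
  | 0 => True
  | n+1 => AllG P n ∧ P n

lemma AllG.spec {P : ℕ → Prop} : ∀ {G : ℕ}, AllG P G → ∀ γ < G, P γ := by
  intro G
  induction G with
  | zero => intro _ γ hγ; exact absurd hγ (Nat.not_lt_zero γ)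
  | succ G ih =>
    rintro ⟨h1, h2⟩ γ hγ
    rcases Nat.lt_succ_iff_lt_or_eq.1 hγ with h | h
    · exact ih h1 γ h
    · rw [h]; exact h2

section ok
variable (Q g G OFF LC LD : ℕ) (kkF detF : ℕ → ℕ) (X : ℕ → ℕ → ℕ → ℕ) (one : ℕ)
  (ev wc wp wn : ℕ → ℕ → ℕ)

/-- the checks hold for all entries of the list -/
def OKV (D : List Ent) : Prop :=
  (∀ e ∈ D, funE Q e = true) ∧ (∀ e ∈ D, totV G OFF LC LD kkF detF e = true) ∧
    ∀ γ < G, ∀ e ∈ D, chkF Q g (ev γ) (X γ) one (wc γ) (wp γ) (wn γ) OFF γ e = true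

variable {Q g G OFF LC LD kkF detF X one ev wc wp wn}

lemma OKV.append {D D' : List Ent} (h : OKV Q g G OFF LC LD kkF detF X one ev wc wp wn D)
    (h' : OKV Q g G OFF LC LD kkF detF X one ev wc wp wn D') :
    OKV Q g G OFF LC LD kkF detF X one ev wc wp wn (D ++ D') := by
  refine ⟨fun e he => ?_, fun e he => ?_, fun γ hγ e he => ?_⟩
  · rcases List.mem_append.1 he with he | he
    · exact h.1 e he
    · exact h'.1 e he
  · rcases List.mem_append.1 he with he | he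
    · exact h.2.1 e he
    · exact h'.2.1 e he
  · rcases List.mem_append.1 he with he | he
    · exact h.2.2 γ hγ e he
    · exact h'.2.2 γ hγ e he

/-- a chunk: one check for each group -/
lemma OKV.of_all {D : List Ent} (h1 : D.all (funE Q) = true)
    (h2 : D.all (totV G OFF LC LD kkF detF) = true)
    (h3 : AllG (fun γ => D.all (chkF Q g (ev γ) (X γ) one (wc γ) (wp γ) (wn γ) OFF γ) = true) G) :
    OKV Q g G OFF LC LD kkF detF X one ev wc wp wn D := by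
  rw [List.all_eq_true] at h1 h2
  refine ⟨h1, h2, fun γ hγ => ?_⟩
  have h4 := h3.spec γ hγ
  rw [List.all_eq_true] at h4
  exact h4

end ok

/-- weighted count of a simplex for covers -/
noncomputable def PhiC (Q G g : ℕ) (wc : ℕ → ℕ → ℕ) (x : ℕ → ℕ → Fin 6 → ℕ)
    (w : Fin 7 → Fin 6 → ℝ) : ℝ :=
  ((∑ γ ∈ Finset.range G, ∑ r ∈ Finset.range g, wc γ r * cnt (rp Q (x γ r)) (body w) : ℕ) : ℝ)

/-- weighted count of a simplex for dissections -/
noncomputable def PhiD (Q G g : ℕ) (wp wn : ℕ → ℕ → ℕ) (x : ℕ → ℕ → Fin 6 → ℕ)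
    (w : Fin 7 → Fin 6 → ℝ) : ℝ :=
  ((∑ γ ∈ Finset.range G, ∑ r ∈ Finset.range g, wp γ r * cnt (rp Q (x γ r)) (body w) : ℕ) : ℝ) -
    ((∑ γ ∈ Finset.range G, ∑ r ∈ Finset.range g,
      wn γ r * cnt (rp Q (x γ r)) (interior (body w)) : ℕ) : ℝ)

/-- the functions `kkF`, `detF` bound the number of exterior facets and the determinant -/
def Inv6 (kkF detF : ℕ → ℕ) : Prop :=
  ∀ (c : ℕ) (w : Fin 7 → Fin 6 → ℝ), AffineIndependent ℝ w → (∀ i j, w i j = 0 ∨ w i j = 1) →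
    (∃ g : Sym 6, ∀ q, ∃ q' < 7, gmap g (w q) = vtx 6 (vc c q')) →
    kk w ≤ kkF c ∧ vdet w ≤ detF c

section main
variable {Q g G OFF LC LD : ℕ} {kkF detF : ℕ → ℕ} {x : ℕ → ℕ → Fin 6 → ℕ} {X : ℕ → ℕ → ℕ → ℕ}
  {one : ℕ} {ev wc wp wn : ℕ → ℕ → ℕ}

theorem OKV.simplex {D : List Ent} (h : OKV Q g G OFF LC LD kkF detF X one ev wc wp wn D)
    (hQ : 0 < Q) (hg : g ≤ 18)
    (ht : ∀ γ < G, ∀ r < g, (ev γ r = 0 ∧ wn γ r = 0) ∨ (ev γ r = 1 ∧ wc γ r = 0 ∧ wp γ r = 0))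
    (ho : ∀ γ < G, ∀ r < g, PackedOrbit 6 Q 18 (x γ r) (X γ r) one)
    (hE : Inv6 kkF detF) (hL : LevL D) {w : Fin 7 → Fin 6 → ℝ} (hw : AffineIndependent ℝ w)
    (hv : ∀ i j, w i j = 0 ∨ w i j = 1) :
    (1 + (kk w : ℝ)) * PhiC Q G g wc x w ≤ LC * (32 - vdet w) ∧
      (1 + (kk w : ℝ)) * PhiD Q G g wp wn x w ≤ LD * (32 - vdet w) := by
  obtain ⟨e, he, gg, hgg⟩ := hL w hv hw
  obtain ⟨hk, hd⟩ := hE e.c w hw hv ⟨gg, hgg⟩
  obtain ⟨t1, t2, t3⟩ := totV_spec (h.2.1 e he)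
  have hc : CertF Q g G OFF (sumN G (dg32 e.pc)) (sumN G (dg32 e.pd) - G * OFF) [e] x X one ev
      wc wp wn := by
    refine ⟨hQ, hg, ht, ho, fun e' he' => ?_, fun γ hγ e' he' => ?_, fun e' he' => ?_⟩
    · rw [List.mem_singleton.1 he']; exact h.1 e he
    · rw [List.mem_singleton.1 he']; exact h.2.2 γ hγ e he
    · rw [List.mem_singleton.1 he', totE, Bool.and_eq_true]
      exact ⟨Nat.ble_eq.mpr le_rfl, Nat.ble_eq.mpr (by omega)⟩
  obtain ⟨h1, h2⟩ := hc.cert.counts (List.mem_singleton_self e)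
  obtain ⟨-, hfun, -⟩ := funC_spec (h.1 e he)
  rw [funB, Bool.and_eq_true] at hfun
  have hlen : (6).factorial * 2 ^ 6 < 2 ^ 18 - 1 := by norm_num [Nat.factorial]
  have hcl : ∀ γ < G, ∀ r < g, cnt (rp Q (x γ r)) (body w) ≤
      cntE 6 Q 18 0 (apL e.f) (anL e.f) (X γ r) one 7 := by
    intro γ hγ r hr
    have hp := ho γ hγ r hr
    exact cnt_body_le (by norm_num) hQ hp.le hp.coord hp.ones hlen hfun.1 hfun.2 gg hgg
  have hop : ∀ γ < G, ∀ r < g, cntE 6 Q 18 1 (apL e.f) (anL e.f) (X γ r) one 7 ≤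
      cnt (rp Q (x γ r)) (interior (body w)) := by
    intro γ hγ r hr
    have hp := ho γ hγ r hr
    exact le_cnt_interior (by norm_num) hQ hp.le hp.coord hp.ones hlen hfun.1 hfun.2 hw gg hgg
  have a1 : ∑ γ ∈ Finset.range G, ∑ r ∈ Finset.range g,
      wc γ r * cnt (rp Q (x γ r)) (body w) ≤ sumN G (dg32 e.pc) := by
    refine le_trans (Finset.sum_le_sum fun γ hγ => Finset.sum_le_sum fun r hr => ?_) h1
    exact Nat.mul_le_mul_left _ (hcl γ (Finset.mem_range.1 hγ) r (Finset.mem_range.1 hr))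
  have a2 : ∑ γ ∈ Finset.range G, ∑ r ∈ Finset.range g,
      wp γ r * cnt (rp Q (x γ r)) (body w) ≤ (sumN G (dg32 e.pd) - G * OFF) +
      ∑ γ ∈ Finset.range G, ∑ r ∈ Finset.range g,
        wn γ r * cnt (rp Q (x γ r)) (interior (body w)) := by
    refine le_trans (Finset.sum_le_sum fun γ hγ => Finset.sum_le_sum fun r hr => ?_)
      (h2.trans (Nat.add_le_add_left
        (Finset.sum_le_sum fun γ hγ => Finset.sum_le_sum fun r hr => ?_) _))
    · exact Nat.mul_le_mul_left _ (hcl γ (Finset.mem_range.1 hγ) r (Finset.mem_range.1 hr))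
    · exact Nat.mul_le_mul_left _ (hop γ (Finset.mem_range.1 hγ) r (Finset.mem_range.1 hr))
  have hk' : (1 + (kk w : ℝ)) ≤ ((kkF e.c + 1 : ℕ) : ℝ) := by
    have : (kk w : ℝ) ≤ (kkF e.c : ℝ) := by exact_mod_cast hk
    push_cast
    linarith
  have hd' : ((32 - detF e.c : ℕ) : ℝ) ≤ 32 - vdet w := by
    rw [Nat.cast_sub t1]
    push_cast
    linarith
  have hk0 : (0:ℝ) ≤ 1 + (kk w : ℝ) := by positivity
  constructor
  · calc (1 + (kk w : ℝ)) * PhiC Q G g wc x w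
        ≤ (1 + (kk w : ℝ)) * ((sumN G (dg32 e.pc) : ℕ) : ℝ) := by
          refine mul_le_mul_of_nonneg_left ?_ hk0
          unfold PhiC
          exact_mod_cast a1
      _ ≤ ((kkF e.c + 1 : ℕ) : ℝ) * ((sumN G (dg32 e.pc) : ℕ) : ℝ) :=
          mul_le_mul_of_nonneg_right hk' (Nat.cast_nonneg _)
      _ ≤ (LC : ℝ) * ((32 - detF e.c : ℕ) : ℝ) := by exact_mod_cast t2
      _ ≤ LC * (32 - vdet w) := mul_le_mul_of_nonneg_left hd' (Nat.cast_nonneg _)
  · calc (1 + (kk w : ℝ)) * PhiD Q G g wp wn x w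
        ≤ (1 + (kk w : ℝ)) * ((sumN G (dg32 e.pd) - G * OFF : ℕ) : ℝ) := by
          refine mul_le_mul_of_nonneg_left ?_ hk0
          unfold PhiD
          rw [sub_le_iff_le_add]
          exact_mod_cast a2
      _ ≤ ((kkF e.c + 1 : ℕ) : ℝ) * ((sumN G (dg32 e.pd) - G * OFF : ℕ) : ℝ) :=
          mul_le_mul_of_nonneg_right hk' (Nat.cast_nonneg _)
      _ ≤ (LD : ℝ) * ((32 - detF e.c : ℕ) : ℝ) := by exact_mod_cast t3
      _ ≤ LD * (32 - vdet w) := mul_le_mul_of_nonneg_left hd' (Nat.cast_nonneg _)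

lemma card6 : Fintype.card (Equiv.Perm (Fin 6) × (Fin 6 → Bool)) = 46080 := by
  have h : Nat.factorial 6 * 2 ^ 6 = 46080 := by norm_num [Nat.factorial]
  exact (card_sym 6).trans h

lemma sum_swap {N : ℕ} (w : ℕ → ℕ → ℕ) (F : ℕ → ℕ → Fin N → ℕ) :
    ∑ s, ∑ γ ∈ Finset.range G, ∑ r ∈ Finset.range g, w γ r * F γ r s =
      ∑ γ ∈ Finset.range G, ∑ r ∈ Finset.range g, w γ r * ∑ s, F γ r s := by
  rw [Finset.sum_comm]
  refine Finset.sum_congr rfl fun γ _ => ?_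
  rw [Finset.sum_comm]
  exact Finset.sum_congr rfl fun r _ => (Finset.mul_sum _ _ _).symm

lemma sum_const' (w : ℕ → ℕ → ℕ) :
    46080 * ∑ γ ∈ Finset.range G, ∑ r ∈ Finset.range g, w γ r =
      ∑ γ ∈ Finset.range G, ∑ r ∈ Finset.range g, w γ r * 46080 := by
  rw [Finset.mul_sum]
  refine Finset.sum_congr rfl fun γ _ => ?_
  rw [Finset.mul_sum]
  exact Finset.sum_congr rfl fun r _ => mul_comm _ _

lemma PhiC_total (hQ : 0 < Q) (ho : ∀ γ < G, ∀ r < g, PackedOrbit 6 Q 18 (x γ r) (X γ r) one)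
    {N : ℕ} {W : Fin N → Fin 7 → Fin 6 → ℝ} (hW : IsCover W) :
    ((46080 * ∑ γ ∈ Finset.range G, ∑ r ∈ Finset.range g, wc γ r : ℕ) : ℝ) ≤
      ∑ s, PhiC Q G g wc x (W s) := by
  unfold PhiC
  rw [← Nat.cast_sum]
  refine Nat.cast_le.2 ?_
  rw [sum_swap wc (fun γ r s => cnt (rp Q (x γ r)) (body (W s))), sum_const']
  refine Finset.sum_le_sum fun γ hγ => Finset.sum_le_sum fun r hr => Nat.mul_le_mul_left _ ?_
  have hp := ho γ (Finset.mem_range.1 hγ) r (Finset.mem_range.1 hr)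
  exact (le_of_eq card6.symm).trans (card_le_sum_cnt hW (rp_mem_cube hQ hp.le))

lemma PhiD_total (hQ : 0 < Q) (ho : ∀ γ < G, ∀ r < g, PackedOrbit 6 Q 18 (x γ r) (X γ r) one)
    {N : ℕ} {W : Fin N → Fin 7 → Fin 6 → ℝ} (hW : IsDissection W) :
    ((46080 * ∑ γ ∈ Finset.range G, ∑ r ∈ Finset.range g, wp γ r : ℕ) : ℝ) -
      ((46080 * ∑ γ ∈ Finset.range G, ∑ r ∈ Finset.range g, wn γ r : ℕ) : ℝ) ≤
      ∑ s, PhiD Q G g wp wn x (W s) := by
  unfold PhiD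
  rw [Finset.sum_sub_distrib]
  refine sub_le_sub (PhiC_total (wc := wp) hQ ho hW.1) ?_
  rw [← Nat.cast_sum]
  refine Nat.cast_le.2 ?_
  rw [sum_swap wn (fun γ r s => cnt (rp Q (x γ r)) (interior (body (W s)))), sum_const']
  refine Finset.sum_le_sum fun γ hγ => Finset.sum_le_sum fun r hr => Nat.mul_le_mul_left _ ?_
  exact (sum_cnt_interior_le hW (rp Q (x γ r))).trans (le_of_eq card6)

/-- **Covers of the 7-cube by vertex simplices.** -/
theorem OKV.cover7 {D : List Ent} (h : OKV Q g G OFF LC LD kkF detF X one ev wc wp wn D)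
    (hQ : 0 < Q) (hg : g ≤ 18)
    (ht : ∀ γ < G, ∀ r < g, (ev γ r = 0 ∧ wn γ r = 0) ∨ (ev γ r = 1 ∧ wc γ r = 0 ∧ wp γ r = 0))
    (ho : ∀ γ < G, ∀ r < g, PackedOrbit 6 Q 18 (x γ r) (X γ r) one)
    (hE : Inv6 kkF detF) (hL : LevL D) {N : ℕ} {W : Fin N → Fin 8 → Fin 7 → ℝ} (hW : IsCover W)
    (hv : IsVertexFamily W) :
    5040 * LC + 14 * (46080 * ∑ γ ∈ Finset.range G, ∑ r ∈ Finset.range g, wc γ r) ≤
      32 * LC * N := by
  have h1 := Helper67.BS.seven_cover hW hv (Φ := PhiC Q G g wc x) (Λ := (LC : ℝ))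
    (Tot := ((46080 * ∑ γ ∈ Finset.range G, ∑ r ∈ Finset.range g, wc γ r : ℕ) : ℝ))
    (Nat.cast_nonneg _) (fun w hw hv' => (h.simplex hQ hg ht ho hE hL hw hv').1)
    (fun N' W' hW' _ => PhiC_total hQ ho hW')
  exact_mod_cast h1

/-- **Dissections of the 7-cube by vertex simplices.** -/
theorem OKV.dissection7 {D : List Ent} (h : OKV Q g G OFF LC LD kkF detF X one ev wc wp wn D)
    (hQ : 0 < Q) (hg : g ≤ 18)
    (ht : ∀ γ < G, ∀ r < g, (ev γ r = 0 ∧ wn γ r = 0) ∨ (ev γ r = 1 ∧ wc γ r = 0 ∧ wp γ r = 0))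
    (ho : ∀ γ < G, ∀ r < g, PackedOrbit 6 Q 18 (x γ r) (X γ r) one)
    (hE : Inv6 kkF detF) (hL : LevL D) {N : ℕ} {W : Fin N → Fin 8 → Fin 7 → ℝ}
    (hW : IsDissection W) (hv : IsVertexFamily W) :
    5040 * LD + 14 * (46080 * ∑ γ ∈ Finset.range G, ∑ r ∈ Finset.range g, wp γ r) ≤
      32 * LD * N + 14 * (46080 * ∑ γ ∈ Finset.range G, ∑ r ∈ Finset.range g, wn γ r) := by
  have h1 := Helper67.BS.seven_dissection hW hv (Φ := PhiD Q G g wp wn x) (Λ := (LD : ℝ))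
    (Tot := ((46080 * ∑ γ ∈ Finset.range G, ∑ r ∈ Finset.range g, wp γ r : ℕ) : ℝ) -
      ((46080 * ∑ γ ∈ Finset.range G, ∑ r ∈ Finset.range g, wn γ r : ℕ) : ℝ))
    (Nat.cast_nonneg _) (fun w hw hv' => (h.simplex hQ hg ht ho hE hL hw hv').2)
    (fun N' W' hW' _ => PhiD_total hQ ho hW')
  have h2 : ((5040 * LD + 14 * (46080 * ∑ γ ∈ Finset.range G, ∑ r ∈ Finset.range g, wp γ r) : ℕ)
      : ℝ) ≤ ((32 * LD * N + 14 * (46080 * ∑ γ ∈ Finset.range G, ∑ r ∈ Finset.range g,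
        wn γ r) : ℕ) : ℝ) := by
    push_cast at h1 ⊢
    linarith
  exact_mod_cast h2

end main

end Helper67.Cube18
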