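import Pool.Agent.Helper67.Cube6.Chunk
import Pool.Agent.Helper67.BS.Lift2

/-!
# Certificates at level 6 with the vector of the counts

The field `pc` of an entry holds the counts of all orbits of points (16 bits each): upper bounds of
the closed counts and lower bounds of the open counts. Objectives are lists of codes
`orbit + 256 * weight`.
-/

set_option autoImplicit false

namespace Helper67.Cube18

open Helper67.Cube
open Helper67.Cube6 (Ent vc LevL apL anL)
open Pool.Agent.Helper63.Cube6 (fc fc_eq)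
open Helper67.BS (ndet ndet_cast)
open Helper51.Cube6 (cb andL)

/-- digit number `o` (16 bits) -/
def dg16 (p o : ℕ) : ℕ := Nat.land (Nat.shiftRight p (Nat.mul 16 o)) 65535

/-- comparison of the counts of the first `n` orbits of a group with the digits `base + r` -/
def cntB (ev : ℕ → ℕ) (A one base p n : ℕ) : Bool :=
  Nat.rec (motive := fun _ => Bool) true (fun r ih =>
    cond (cond (Nat.beq (ev r) 0) (Nat.ble (cRF A one r) (dg16 p (Nat.add base r)))
      (Nat.ble (dg16 p (Nat.add base r)) (cRF A one r))) ih false) n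

lemma cntB_spec {ev : ℕ → ℕ} {A one base p : ℕ} : ∀ {n : ℕ}, cntB ev A one base p n = true →
    ∀ r < n, (ev r = 0 → cR A one r ≤ dg16 p (base + r)) ∧
      (ev r ≠ 0 → dg16 p (base + r) ≤ cR A one r) := by
  intro n
  induction n with
  | zero => intro _ r hr; exact absurd hr (Nat.not_lt_zero r)
  | succ n ih =>
    intro h r hr
    have h1 : cntB ev A one base p (n+1) =
      cond (cond (Nat.beq (ev n) 0) (Nat.ble (cR A one n) (dg16 p (base + n)))
        (Nat.ble (dg16 p (base + n)) (cR A one n))) (cntB ev A one base p n) false := rfl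
    rw [h1] at h
    cases h2 : cond (Nat.beq (ev n) 0) (Nat.ble (cR A one n) (dg16 p (base + n)))
        (Nat.ble (dg16 p (base + n)) (cR A one n))
    · rw [h2] at h; exact absurd h (by simp)
    · rw [h2, cond_true] at h
      rcases Nat.lt_succ_iff_lt_or_eq.1 hr with h3 | h3
      · exact ih h r h3
      · rw [h3]
        constructor
        · intro h4
          rw [h4, Nat.beq_refl, cond_true] at h2
          exact Nat.le_of_ble_eq_true h2
        · intro h4
          have h5 : Nat.beq (ev n) 0 = false := by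
            rw [Bool.eq_false_iff]; exact fun h => h4 (Nat.eq_of_beq_eq_true h)
          rw [h5, cond_false] at h2
          exact Nat.le_of_ble_eq_true h2

/-- check of the counts of one group of `g` orbits for one representative -/
def chkP (Q g : ℕ) (ev : ℕ → ℕ) (Xv : ℕ → ℕ → ℕ) (one base : ℕ) (e : Ent) : Bool :=
  List.rec (motive := fun _ => Bool) false (fun m l _ =>
    cntB ev (andF (fun m => cfF Q ev Xv one m g) m l) one base e.pc g) e.f

lemma chkP_spec {Q g : ℕ} {ev : ℕ → ℕ} {Xv : ℕ → ℕ → ℕ} {one base : ℕ} {e : Ent}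
    (hg : g ≤ 18) (he : ∀ r < g, ev r ≤ 1) (hX : ∀ r < g, ∀ j < 6, Xv r j ≤ Q * one)
    (hone : ∀ i, one.testBit i = true → i % 18 = 0) (hf : funE Q e = true)
    (h : chkP Q g ev Xv one base e = true) :
    ∀ r < g, (ev r = 0 → cntE 6 Q 18 0 (apL e.f) (anL e.f) (Xv r) one 7 ≤ dg16 e.pc (base + r)) ∧
      (ev r ≠ 0 → dg16 e.pc (base + r) ≤ cntE 6 Q 18 1 (apL e.f) (anL e.f) (Xv r) one 7) := by
  obtain ⟨hlen, -, hsm⟩ := funC_spec hf
  have hcb : ∀ m' ∈ e.f, cb m' 0 * Q < 2 ^ 17 := by
    intro m' hm'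
    have h1 := hsm m' hm'
    rw [smallM, Bool.and_eq_true] at h1
    have h2 := Nat.blt_eq.mp h1.2
    rw [sumN_eq] at h2
    have h3 : cb m' 0 ≤ ∑ j : Fin (6+1), cb m' j :=
      Finset.single_le_sum (f := fun j : Fin (6+1) => cb m' (j : ℕ))
        (fun i _ => Nat.zero_le _) (Finset.mem_univ (0 : Fin (6+1)))
    exact lt_of_le_of_lt (Nat.mul_le_mul_right _ h3) h2
  obtain ⟨c, f, pc, pd⟩ := e
  cases f with
  | nil => simp at hlen
  | cons m l =>
    have hA : andF (fun m => cfF Q ev Xv one m g) m l = andL (fun m => cfN Q ev Xv one m g) m l := by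
      refine andF_eq l m fun m' hm' => ?_
      have h1 := hsm m' hm'
      rw [smallM, Bool.and_eq_true] at h1
      exact cfF_eq (Nat.blt_eq.mp h1.2) g he hX
    have h1 : cntB ev (andF (fun m => cfF Q ev Xv one m g) m l) one base pc g = true := h
    rw [hA] at h1
    have h2 := cntB_spec h1
    intro r hr
    have h3 : cR (andL (fun m => cfN Q ev Xv one m g) m l) one r =
        cntE 6 Q 18 (ev r) (apL (m :: l)) (anL (m :: l)) (Xv r) one 7 :=
      cR_eq hone hg hr (he r hr) hlen hcb
    obtain ⟨h4, h5⟩ := h2 r hr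
    rw [h3] at h4 h5
    constructor
    · intro h6
      have h7 := h4 h6
      rw [h6] at h7
      exact h7
    · intro h6
      have h7 := h5 h6
      have h8 : ev r = 1 := by
        have := he r hr
        omega
      rw [h8] at h7
      exact h7

/-- weighted sum of the digits, codes `orbit + 256 * weight` -/
def wsumL (l : List ℕ) (p : ℕ) : ℕ :=
  List.rec (motive := fun _ => ℕ) 0 (fun q _ ih =>
    Nat.add ih (Nat.mul (Nat.shiftRight q 8) (dg16 p (Nat.land q 255)))) l

lemma wsumL_eq (l : List ℕ) (p : ℕ) :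
    wsumL l p = (l.map fun q => (q >>> 8) * dg16 p (q &&& 255)).sum := by
  induction l with
  | nil => rfl
  | cons q l ih =>
    have h1 : wsumL (q :: l) p = wsumL l p + (q >>> 8) * dg16 p (q &&& 255) := rfl
    rw [h1, List.map_cons, List.sum_cons, ih, add_comm]

/-- check of an objective with positive part `lp` (closed orbits), negative part `ln` (open orbits)
and bounds `M n δ` for `n` exterior facets and determinant `δ` -/
def objB (kkF detF : ℕ → ℕ) (M : ℕ → ℕ → ℕ) (lp ln : List ℕ) (e : Ent) : Bool :=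
  fc (kkF e.c) fun n => fc (detF e.c) fun δ =>
    Nat.ble (wsumL lp e.pc) (Nat.add (M n δ) (wsumL ln e.pc))

lemma objB_spec {kkF detF : ℕ → ℕ} {M : ℕ → ℕ → ℕ} {lp ln : List ℕ} {e : Ent}
    (h : objB kkF detF M lp ln e = true) :
    wsumL lp e.pc ≤ M (kkF e.c) (detF e.c) + wsumL ln e.pc := by
  unfold objB at h
  rw [fc_eq, fc_eq] at h
  exact Nat.le_of_ble_eq_true h

/-- the orbits of the list are smaller than `K` and of the kind `t` -/
def kindB (K t : ℕ) (ev : ℕ → ℕ) (l : List ℕ) : Bool :=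
  l.all fun q => Nat.blt (Nat.land q 255) K && Nat.beq (ev (Nat.land q 255)) t

/-- sum of the weights -/
def totL (l : List ℕ) : ℕ := (l.map fun q => q >>> 8).sum

/-- a property of all numbers below `G` -/
def AllK (P : ℕ → Prop) : ℕ → Prop
  | 0 => True
  | n+1 => AllK P n ∧ P n

lemma AllK.spec {P : ℕ → Prop} : ∀ {G : ℕ}, AllK P G → ∀ γ < G, P γ := by
  intro G
  induction G with
  | zero => intro _ γ hγ; exact absurd hγ (Nat.not_lt_zero γ)
  | succ G ih =>
    rintro ⟨h1, h2⟩ γ hγ
    rcases Nat.lt_succ_iff_lt_or_eq.1 hγ with h | h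
    · exact ih h1 γ h
    · rw [h]; exact h2

section hv
variable (Q g G : ℕ) (X : ℕ → ℕ → ℕ → ℕ) (one : ℕ) (ev : ℕ → ℕ → ℕ)

/-- the counts of all entries of the list are correct -/
def HV (D : List Ent) : Prop :=
  (∀ e ∈ D, funE Q e = true) ∧
    ∀ γ < G, ∀ e ∈ D, chkP Q g (ev γ) (X γ) one (g * γ) e = true

variable {Q g G X one ev}

lemma HV.append {D D' : List Ent} (h : HV Q g G X one ev D) (h' : HV Q g G X one ev D') :
    HV Q g G X one ev (D ++ D') := by
  refine ⟨fun e he => ?_, fun γ hγ e he => ?_⟩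
  · rcases List.mem_append.1 he with he | he
    · exact h.1 e he
    · exact h'.1 e he
  · rcases List.mem_append.1 he with he | he
    · exact h.2 γ hγ e he
    · exact h'.2 γ hγ e he

/-- a chunk: one check for each group -/
lemma HV.of_all {D : List Ent} (h1 : D.all (funE Q) = true)
    (h3 : AllK (fun γ => D.all (chkP Q g (ev γ) (X γ) one (g * γ)) = true) G) :
    HV Q g G X one ev D := by
  rw [List.all_eq_true] at h1
  refine ⟨h1, fun γ hγ => ?_⟩
  have h4 := h3.spec γ hγ
  rw [List.all_eq_true] at h4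
  exact h4

end hv

section lt
variable (kkF detF : ℕ → ℕ) (M : ℕ → ℕ → ℕ) (lp ln : List ℕ)

/-- the objective is bounded for all entries of the list -/
def LT (D : List Ent) : Prop := ∀ e ∈ D, objB kkF detF M lp ln e = true

variable {kkF detF M lp ln}

lemma LT.append {D D' : List Ent} (h : LT kkF detF M lp ln D) (h' : LT kkF detF M lp ln D') :
    LT kkF detF M lp ln (D ++ D') := by
  intro e he
  rcases List.mem_append.1 he with he | he
  · exact h e he
  · exact h' e he

lemma LT.of_all {D : List Ent} (h : D.all (objB kkF detF M lp ln) = true) :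
    LT kkF detF M lp ln D := by
  rw [List.all_eq_true] at h
  exact h

end lt

/-- the objective of a simplex -/
noncomputable def PhiL (Q : ℕ) (x : ℕ → Fin 6 → ℕ) (lp ln : List ℕ) (w : Fin 7 → Fin 6 → ℝ) : ℝ :=
  (((lp.map fun q => (q >>> 8) * cnt (rp Q (x (q &&& 255))) (body w)).sum : ℕ) : ℝ) -
    (((ln.map fun q => (q >>> 8) * cnt (rp Q (x (q &&& 255))) (interior (body w))).sum : ℕ) : ℝ)

/-- the functions `kkF`, `detF` give the number of exterior facets and the determinant -/
def InvE (kkF detF : ℕ → ℕ) : Prop :=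
  ∀ (c : ℕ) (w : Fin 7 → Fin 6 → ℝ), AffineIndependent ℝ w → (∀ i j, w i j = 0 ∨ w i j = 1) →
    (∃ g : Sym 6, ∀ q, ∃ q' < 7, gmap g (w q) = vtx 6 (vc c q')) →
    vdet w = detF c ∧ kk w = kkF c

section main
variable {Q g G : ℕ} {kkF detF : ℕ → ℕ} {x : ℕ → Fin 6 → ℕ} {X : ℕ → ℕ → ℕ → ℕ}
  {one : ℕ} {ev : ℕ → ℕ → ℕ} {M : ℕ → ℕ → ℕ} {lp ln : List ℕ}

lemma sum_map_le {l : List ℕ} {F F' : ℕ → ℕ} (h : ∀ q ∈ l, F q ≤ F' q) :
    (l.map F).sum ≤ (l.map F').sum :=
  List.sum_le_sum h

/-- **the bound of an objective at level 6** -/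
theorem HV.obj {D : List Ent} (h : HV Q g G X one ev D) (hM : LT kkF detF M lp ln D)
    (hQ : 0 < Q) (hg : g ≤ 18) (hg0 : 0 < g) (hev : ∀ γ < G, ∀ r < g, ev γ r ≤ 1)
    (ho : ∀ γ < G, ∀ r < g, PackedOrbit 6 Q 18 (x (g * γ + r)) (X γ r) one)
    (hlp : kindB (G * g) 0 (fun o => ev (o / g) (o % g)) lp = true)
    (hln : kindB (G * g) 1 (fun o => ev (o / g) (o % g)) ln = true)
    (hE : InvE kkF detF) (hL : LevL D) {w : Fin 7 → Fin 6 → ℝ} (hw : AffineIndependent ℝ w)
    (hv : ∀ i j, w i j = 0 ∨ w i j = 1) :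
    PhiL Q x lp ln w ≤ M (kk w) (ndet w) := by
  obtain ⟨e, he, gg, hgg⟩ := hL w hv hw
  obtain ⟨hd, hk⟩ := hE e.c w hw hv ⟨gg, hgg⟩
  have hnd : ndet w = detF e.c := by
    have := ndet_cast hv
    rw [hd] at this
    exact_mod_cast this
  have ht := objB_spec (hM e he)
  rw [← hk, ← hnd] at ht
  have hf := h.1 e he
  obtain ⟨-, hfun, -⟩ := funC_spec hf
  rw [funB, Bool.and_eq_true] at hfun
  have hlen : (6).factorial * 2 ^ 6 < 2 ^ 18 - 1 := by norm_num [Nat.factorial]
  have hcase : ∀ o < G * g, (ev (o / g) (o % g) = 0 →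
      cnt (rp Q (x o)) (body w) ≤ dg16 e.pc o) ∧
      (ev (o / g) (o % g) = 1 → dg16 e.pc o ≤ cnt (rp Q (x o)) (interior (body w))) := by
    intro o ho'
    have hγ : o / g < G := (Nat.div_lt_iff_lt_mul hg0).2 ho'
    have hr : o % g < g := Nat.mod_lt _ hg0
    have hoe : g * (o / g) + o % g = o := Nat.div_add_mod o g
    have hp := ho _ hγ _ hr
    have hone : ∀ i, one.testBit i = true → i % 18 = 0 := by
      rw [hp.ones]
      exact pk_one_testBit _
    have h1 := chkP_spec hg (hev _ hγ) (fun r hr j hj => PackedOrbit.le_mul (ho _ hγ r hr) j hj)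
      hone hf (h.2 _ hγ e he) _ hr
    rw [hoe] at h1 hp
    constructor
    · intro h2
      exact (cnt_body_le (by norm_num) hQ hp.le hp.coord hp.ones hlen hfun.1 hfun.2 gg hgg).trans
        (h1.1 h2)
    · intro h2
      exact (h1.2 (by omega)).trans
        (le_cnt_interior (by norm_num) hQ hp.le hp.coord hp.ones hlen hfun.1 hfun.2 hw gg hgg)
  have hlp' : ∀ q ∈ lp, q &&& 255 < G * g ∧ ev ((q &&& 255) / g) ((q &&& 255) % g) = 0 := by
    intro q hq
    rw [kindB, List.all_eq_true] at hlp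
    have := hlp q hq
    rw [Bool.and_eq_true] at this
    exact ⟨Nat.blt_eq.mp this.1, Nat.eq_of_beq_eq_true this.2⟩
  have hln' : ∀ q ∈ ln, q &&& 255 < G * g ∧ ev ((q &&& 255) / g) ((q &&& 255) % g) = 1 := by
    intro q hq
    rw [kindB, List.all_eq_true] at hln
    have := hln q hq
    rw [Bool.and_eq_true] at this
    exact ⟨Nat.blt_eq.mp this.1, Nat.eq_of_beq_eq_true this.2⟩
  have a1 : (lp.map fun q => (q >>> 8) * cnt (rp Q (x (q &&& 255))) (body w)).sum ≤
      wsumL lp e.pc := by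
    rw [wsumL_eq]
    exact sum_map_le fun q hq => Nat.mul_le_mul_left _ ((hcase _ (hlp' q hq).1).1 (hlp' q hq).2)
  have a2 : wsumL ln e.pc ≤
      (ln.map fun q => (q >>> 8) * cnt (rp Q (x (q &&& 255))) (interior (body w))).sum := by
    rw [wsumL_eq]
    exact sum_map_le fun q hq => Nat.mul_le_mul_left _ ((hcase _ (hln' q hq).1).2 (hln' q hq).2)
  unfold PhiL
  rw [sub_le_iff_le_add]
  have a3 := a1.trans (ht.trans (Nat.add_le_add_left a2 _))
  exact_mod_cast a3

lemma card46 : Fintype.card (Equiv.Perm (Fin 6) × (Fin 6 → Bool)) = 46080 := by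
  have h : Nat.factorial 6 * 2 ^ 6 = 46080 := by norm_num [Nat.factorial]
  exact (card_sym 6).trans h

lemma sum_list_swap {N : ℕ} (l : List ℕ) (F : ℕ → Fin N → ℕ) :
    ∑ s, (l.map fun q => (q >>> 8) * F q s).sum = (l.map fun q => (q >>> 8) * ∑ s, F q s).sum := by
  induction l with
  | nil => simp
  | cons q l ih =>
    simp only [List.map_cons, List.sum_cons, Finset.sum_add_distrib, ih, Finset.mul_sum]

lemma list_sum_const (l : List ℕ) :
    (l.map fun q => (q >>> 8) * 46080).sum = 46080 * totL l := by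
  unfold totL
  induction l with
  | nil => rfl
  | cons q l ih => simp only [List.map_cons, List.sum_cons, ih]; ring

/-- covers of the 6-cube: the objective has no negative part -/
lemma PhiL_total_cover (hQ : 0 < Q) (hx : ∀ q ∈ lp, ∀ j, x (q &&& 255) j ≤ Q)
    {N : ℕ} {W : Fin N → Fin 7 → Fin 6 → ℝ} (hW : IsCover W) :
    ((46080 * totL lp : ℕ) : ℝ) ≤ ∑ s, PhiL Q x lp [] (W s) := by
  unfold PhiL
  simp only [List.map_nil, List.sum_nil, Nat.cast_zero, sub_zero]
  rw [← Nat.cast_sum]
  refine Nat.cast_le.2 ?_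
  rw [sum_list_swap lp (fun q s => cnt (rp Q (x (q &&& 255))) (body (W s))), ← list_sum_const]
  refine sum_map_le fun q hq => Nat.mul_le_mul_left _ ?_
  exact (le_of_eq card46.symm).trans (card_le_sum_cnt hW (rp_mem_cube hQ (hx q hq)))

/-- dissections of the 6-cube -/
lemma PhiL_total_dissection (hQ : 0 < Q) (hx : ∀ q ∈ lp, ∀ j, x (q &&& 255) j ≤ Q)
    {N : ℕ} {W : Fin N → Fin 7 → Fin 6 → ℝ} (hW : IsDissection W) :
    ((46080 * totL lp : ℕ) : ℝ) - ((46080 * totL ln : ℕ) : ℝ) ≤ ∑ s, PhiL Q x lp ln (W s) := by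
  have h1 := PhiL_total_cover (lp := lp) hQ hx hW.1
  unfold PhiL at h1 ⊢
  simp only [List.map_nil, List.sum_nil, Nat.cast_zero, sub_zero] at h1
  rw [Finset.sum_sub_distrib]
  refine sub_le_sub h1 ?_
  rw [← Nat.cast_sum]
  refine Nat.cast_le.2 ?_
  rw [sum_list_swap ln (fun q s => cnt (rp Q (x (q &&& 255))) (interior (body (W s)))),
    ← list_sum_const]
  refine sum_map_le fun q _ => Nat.mul_le_mul_left _ ?_
  exact (sum_cnt_interior_le hW (rp Q (x (q &&& 255)))).trans (le_of_eq card46)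

end main

end Helper67.Cube18
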