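import Pool.Agent.Helper67.Cube6.Cert8
import Pool.Agent.Helper67.BS.Chain
import Pool.Agent.Helper63.Cube7.DetE

/-!
# Many objectives at level 6

The field `pd` of an entry holds `n + 8 δ` with the number `n` of exterior facets and the
determinant `δ`, so that the objectives need no determinants.
-/

set_option autoImplicit false

namespace Helper67.Cube18

open Helper67.Cube
open Helper67.Cube6 (Ent vc LevL)
open Helper67.BS (ndet LevP baseQ)
open Helper63.Cube7 (detE kkE detE_kkE)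

/-- check of the field `pd` -/
def edB (e : Ent) : Bool :=
  cond (Nat.beq (kkE e.c) (Nat.land e.pd 7)) (Nat.beq (detE e.c) (Nat.shiftRight e.pd 3)) false

/-- check of an objective; `M n δ` is the bound -/
def objP (M : ℕ → ℕ → ℕ) (lp ln : List ℕ) (e : Ent) : Bool :=
  Nat.ble (wsumL lp e.pc)
    (Nat.add (M (Nat.land e.pd 7) (Nat.shiftRight e.pd 3)) (wsumL ln e.pc))

/-- the fields `pd` of the list are correct -/
def ED (D : List Ent) : Prop := ∀ e ∈ D, edB e = true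

/-- the objective is bounded for all entries of the list -/
def LO (M : ℕ → ℕ → ℕ) (lp ln : List ℕ) (D : List Ent) : Prop := ∀ e ∈ D, objP M lp ln e = true

lemma ED.of_all {D : List Ent} (h : D.all edB = true) : ED D := by
  rw [List.all_eq_true] at h
  exact h

lemma ED.append {D D' : List Ent} (h : ED D) (h' : ED D') : ED (D ++ D') := by
  intro e he
  rcases List.mem_append.1 he with he | he
  · exact h e he
  · exact h' e he

lemma LO.of_all {M : ℕ → ℕ → ℕ} {lp ln : List ℕ} {D : List Ent}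
    (h : D.all (objP M lp ln) = true) : LO M lp ln D := by
  rw [List.all_eq_true] at h
  exact h

lemma LO.append {M : ℕ → ℕ → ℕ} {lp ln : List ℕ} {D D' : List Ent} (h : LO M lp ln D)
    (h' : LO M lp ln D') : LO M lp ln (D ++ D') := by
  intro e he
  rcases List.mem_append.1 he with he | he
  · exact h e he
  · exact h' e he

lemma LO.lt {M : ℕ → ℕ → ℕ} {lp ln : List ℕ} {D : List Ent} (h : LO M lp ln D) (hE : ED D) :
    LT kkE detE M lp ln D := by
  intro e he
  have h1 := h e he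
  have h2 := hE e he
  unfold edB at h2
  cases h3 : Nat.beq (kkE e.c) (Nat.land e.pd 7)
  · rw [h3] at h2; exact absurd h2 (by simp)
  · rw [h3, cond_true] at h2
    have h4 := Nat.eq_of_beq_eq_true h3
    have h5 := Nat.eq_of_beq_eq_true h2
    unfold objB
    rw [Pool.Agent.Helper63.Cube6.fc_eq, Pool.Agent.Helper63.Cube6.fc_eq, h4, h5]
    exact h1

theorem invE : InvE kkE detE := by
  intro c w hw _ ⟨g, hg⟩
  exact detE_kkE hw hg

/-- the data of the level 6 -/
structure Base6 (Q g G : ℕ) (x : ℕ → Fin 6 → ℕ) (ev : ℕ → ℕ → ℕ) (D : List Ent) : Prop where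
  hQ : 0 < Q
  hg : g ≤ 18
  hg0 : 0 < g
  lev : LevL D
  ed : ED D
  hev : ∀ γ < G, ∀ r < g, ev γ r ≤ 1
  hv : ∃ (X : ℕ → ℕ → ℕ → ℕ) (one : ℕ), HV Q g G X one ev D ∧
    ∀ γ < G, ∀ r < g, PackedOrbit 6 Q 18 (x (g * γ + r)) (X γ r) one

section base
variable {Q g G : ℕ} {x : ℕ → Fin 6 → ℕ} {ev : ℕ → ℕ → ℕ} {D : List Ent}
  {M : ℕ → ℕ → ℕ} {lp ln : List ℕ}

lemma Base6.le (h : Base6 Q g G x ev D) {t : ℕ} {l : List ℕ}
    (hl : kindB (G * g) t (fun o => ev (o / g) (o % g)) l = true) :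
    ∀ q ∈ l, ∀ j, x (q &&& 255) j ≤ Q := by
  intro q hq j
  rw [kindB, List.all_eq_true] at hl
  have h1 := hl q hq
  rw [Bool.and_eq_true] at h1
  have h2 : q &&& 255 < G * g := Nat.blt_eq.mp h1.1
  obtain ⟨X, one, -, h3⟩ := h.hv
  have h4 := (h3 ((q &&& 255) / g) ((Nat.div_lt_iff_lt_mul h.hg0).2 h2) ((q &&& 255) % g)
    (Nat.mod_lt _ h.hg0)).le j
  rwa [Nat.div_add_mod] at h4

lemma Base6.obj (h : Base6 Q g G x ev D) (hM : LO M lp ln D)
    (hlp : kindB (G * g) 0 (fun o => ev (o / g) (o % g)) lp = true)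
    (hln : kindB (G * g) 1 (fun o => ev (o / g) (o % g)) ln = true)
    (w : Fin 7 → Fin 6 → ℝ) (hw : AffineIndependent ℝ w) (hv : ∀ i j, w i j = 0 ∨ w i j = 1) :
    PhiL Q x lp ln w ≤ M (kk w) (ndet w) := by
  obtain ⟨X, one, h1, h2⟩ := h.hv
  exact h1.obj (hM.lt h.ed) h.hQ h.hg h.hg0 h.hev h2 hlp hln invE h.lev hw hv

/-- covers: the inequality at level 6 -/
theorem Base6.cover (h : Base6 Q g G x ev D) (hM : LO M lp [] D)
    (hlp : kindB (G * g) 0 (fun o => ev (o / g) (o % g)) lp = true) {V : ℕ → ℕ} {c : ℕ → ℚ}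
    {lam mu : ℚ} {i : ℕ} (hV : ∀ i ≤ 6, maxDet i ≤ V i) (hVm : ∀ i < 6, V i ≤ V (i+1))
    (hb : baseQ V c M lam mu 6 i) :
    LevP false c 6 i (lam * ((46080 * totL lp : ℕ) : ℚ) + mu * (6).factorial) := by
  refine LevP.base (Φ := PhiL Q x lp []) (Tot := ((46080 * totL lp : ℕ) : ℚ)) hV hVm hb
    (h.obj hM hlp (by simp [kindB])) ?_
  intro N W hW _ _
  rw [Rat.cast_natCast]
  exact PhiL_total_cover h.hQ (h.le hlp) hW

/-- dissections: the inequality at level 6 -/
theorem Base6.dissection (h : Base6 Q g G x ev D) (hM : LO M lp ln D)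
    (hlp : kindB (G * g) 0 (fun o => ev (o / g) (o % g)) lp = true)
    (hln : kindB (G * g) 1 (fun o => ev (o / g) (o % g)) ln = true) {V : ℕ → ℕ} {c : ℕ → ℚ}
    {lam mu : ℚ} {i : ℕ} (hV : ∀ i ≤ 6, maxDet i ≤ V i) (hVm : ∀ i < 6, V i ≤ V (i+1))
    (hb : baseQ V c M lam mu 6 i) :
    LevP true c 6 i (lam * (((46080 * totL lp : ℕ) : ℚ) - ((46080 * totL ln : ℕ) : ℚ)) +
      mu * (6).factorial) := by
  refine LevP.base (Φ := PhiL Q x lp ln)
    (Tot := ((46080 * totL lp : ℕ) : ℚ) - ((46080 * totL ln : ℕ) : ℚ)) hV hVm hb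
    (h.obj hM hlp hln) ?_
  intro N W hW _ hd
  have h1 := PhiL_total_dissection (lp := lp) (ln := ln) h.hQ (h.le hlp) (hd rfl)
  rw [Rat.cast_sub, Rat.cast_natCast, Rat.cast_natCast]
  exact h1

end base

end Helper67.Cube18
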