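import Pool.Agent.Helper67.Cube6.Core18
import Pool.Agent.Helper67.Cube6.Orb18
import Pool.Agent.Helper63.Cube6.Data
import Pool.Agent.Helper63.Cube6.Data7

/-!
# Chunks of the certificate for the 6-cube
-/

set_option autoImplicit false

namespace Helper67.Cube18

open Helper67.Cube
open Helper67.Cube6 (Ent vc totE LevL)
open Pool.Agent.Helper63.Cube6 (PTok PT V7 vx vx_lt pv orR testBit_orR fc fc_eq exists_sym)

/-- the representative number `i` of the list `V7` is moved onto the vertices of the entry -/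
def Good (e : Ent) (i : ℕ) : Prop :=
  ∃ g : Sym 6, ∀ q < 7, ∃ q' < 7, gmap g (vtx 6 (vx (V7 i) q)) = vtx 6 (e.C q')

/-- the images of the vertices of `V` lie in the set `M` -/
def oriB (V P t M : ℕ) : Bool := Nat.beq (Nat.lor (orR 7 fun q => pv P t (vx V q)) M) M

/-- orientation certificate `w = i + 2 ^ 14 * (r + 2 ^ 10 * t)` -/
def oriE (e : Ent) (w : ℕ) : Bool :=
  fc (Nat.land w 16383) fun i => fc (Nat.land (Nat.shiftRight w 14) 1023) fun r =>
    cond (Nat.ble r 719) (oriB (V7 i) (PT r) (Nat.shiftRight w 24) (orR 7 (vc e.c))) false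

lemma oriE_spec (hPT : PTok PT) {e : Ent} {w : ℕ} (h : oriE e w = true) : Good e (w % 16384) := by
  unfold oriE at h
  rw [fc_eq, fc_eq] at h
  have e1 : Nat.land w 16383 = w % 16384 := Nat.and_two_pow_sub_one_eq_mod w 14
  rw [e1] at h
  cases h1 : Nat.ble (Nat.land (Nat.shiftRight w 14) 1023) 719 with
  | false => rw [h1] at h; exact absurd h (by simp)
  | true =>
    rw [h1, cond_true] at h
    have hr := Nat.le_of_ble_eq_true h1
    obtain ⟨g, hg⟩ := exists_sym hPT (r := Nat.land (Nat.shiftRight w 14) 1023) (by omega)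
      (Nat.shiftRight w 24)
    refine ⟨g, fun q hq => ?_⟩
    rw [hg _ (vx_lt _ _)]
    have h2 : (orR 7 fun q => pv (PT (Nat.land (Nat.shiftRight w 14) 1023)) (Nat.shiftRight w 24)
        (vx (V7 (w % 16384)) q)) ||| orR 7 (vc e.c) = orR 7 (vc e.c) := Nat.eq_of_beq_eq_true h
    have h3 : (orR 7 (vc e.c)).testBit (pv (PT (Nat.land (Nat.shiftRight w 14) 1023))
        (Nat.shiftRight w 24) (vx (V7 (w % 16384)) q)) = true := by
      rw [← h2, Nat.testBit_or, Bool.or_eq_true]
      exact Or.inl (testBit_orR.mpr ⟨q, hq, rfl⟩)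
    obtain ⟨q', hq', he⟩ := testBit_orR.mp h3
    exact ⟨q', hq', by rw [← he]; rfl⟩

/-- the representatives in the set `S` are covered by the list `D` -/
def Part (D : List Ent) (S : ℕ) : Prop := ∀ i, S.testBit i = true → ∃ e ∈ D, Good e i

lemma Part.append {D D' : List Ent} {S S' : ℕ} (h : Part D S) (h' : Part D' S') :
    Part (D ++ D') (S ||| S') := by
  intro i hi
  rw [Nat.testBit_or, Bool.or_eq_true] at hi
  rcases hi with hi | hi
  · obtain ⟨e, he, hg⟩ := h i hi
    exact ⟨e, List.mem_append_left _ he, hg⟩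
  · obtain ⟨e, he, hg⟩ := h' i hi
    exact ⟨e, List.mem_append_right _ he, hg⟩

/-- all orientation certificates are correct -/
def oriL : List Ent → List ℕ → Bool
  | [], [] => true
  | e :: D, w :: O => cond (oriE e w) (oriL D O) false
  | _, _ => false

/-- the set of the representatives of the certificates -/
def maskL (O : List ℕ) : ℕ :=
  List.rec (motive := fun _ => ℕ) 0 (fun w _ ih => Nat.lor (Nat.pow 2 (Nat.land w 16383)) ih) O

theorem part_of_oriL (hPT : PTok PT) : ∀ (D : List Ent) (O : List ℕ), oriL D O = true →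
    Part D (maskL O) := by
  intro D
  induction D with
  | nil =>
    intro O h
    cases O with
    | nil => intro i hi; exact absurd hi (by simp [maskL])
    | cons w O => exact absurd h (by simp [oriL])
  | cons e D ih =>
    intro O h
    cases O with
    | nil => exact absurd h (by simp [oriL])
    | cons w O =>
      rw [oriL] at h
      cases h1 : oriE e w with
      | false => rw [h1] at h; exact absurd h (by simp)
      | true =>
        rw [h1, cond_true] at h
        intro i hi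
        have h2 : maskL (w :: O) = 2 ^ (Nat.land w 16383) ||| maskL O := rfl
        rw [h2, Nat.testBit_or, Bool.or_eq_true] at hi
        rcases hi with hi | hi
        · rw [Nat.testBit_two_pow, decide_eq_true_eq] at hi
          have e1 : Nat.land w 16383 = w % 16384 := Nat.and_two_pow_sub_one_eq_mod w 14
          rw [e1] at hi
          exact ⟨e, by simp, hi ▸ oriE_spec hPT h1⟩
        · obtain ⟨e', he', hg⟩ := ih O h i hi
          exact ⟨e', List.mem_cons_of_mem _ he', hg⟩

/-- the set of all `i < n` -/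
def fullM (n : ℕ) : ℕ := Nat.sub (Nat.pow 2 n) 1

/-- all representatives are covered -/
theorem levL_of_part {n : ℕ} (hL : LevI 6 7 n (fun i q => vx (V7 i) q)) {D : List Ent} {S : ℕ}
    (h : Part D S) (hS : Nat.beq S (fullM n) = true) : LevL D := by
  intro v h1 h2
  obtain ⟨i, hi, g, hg⟩ := hL v h1 h2
  have h3 : S = 2 ^ n - 1 := Nat.eq_of_beq_eq_true hS
  have h4 : S.testBit i = true := by
    rw [h3, Nat.testBit_two_pow_sub_one]
    simpa using hi
  obtain ⟨e, he, g', hg'⟩ := h i h4
  refine ⟨e, he, gcomp g' g, fun q => ?_⟩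
  obtain ⟨q', hq', he'⟩ := hg q
  obtain ⟨q'', hq'', he''⟩ := hg' q' hq'
  exact ⟨q'', hq'', by rw [gmap_gcomp, he', he'']⟩

section ok
variable (Q g G OFF BC BD : ℕ) (X : ℕ → ℕ → ℕ → ℕ) (one : ℕ) (ev wc wp wn : ℕ → ℕ → ℕ)

/-- the checks hold for all entries of the list -/
def OK (D : List Ent) : Prop :=
  (∀ e ∈ D, funE Q e = true) ∧ (∀ e ∈ D, totE G OFF BC BD e = true) ∧
    ∀ γ < G, ∀ e ∈ D, chkF Q g (ev γ) (X γ) one (wc γ) (wp γ) (wn γ) OFF γ e = true

variable {Q g G OFF BC BD X one ev wc wp wn}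

lemma OK.append {D D' : List Ent} (h : OK Q g G OFF BC BD X one ev wc wp wn D)
    (h' : OK Q g G OFF BC BD X one ev wc wp wn D') :
    OK Q g G OFF BC BD X one ev wc wp wn (D ++ D') := by
  refine ⟨fun e he => ?_, fun e he => ?_, fun γ hγ e he => ?_⟩
  · rcases List.mem_append.1 he with he | he
    · exact h.1 e he
    · exact h'.1 e he
  · rcases List.mem_append.1 he with he | he
    · exact h.2.1 e he
    · exact h'.2.1 e he
  · rcases List.mem_append.1 he with he | he
    · exact h.2.2 γ hγ e he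
    · exact h'.2.2 γ hγ e he

/-- a chunk with six groups -/
lemma OK.of_all {D : List Ent} (h1 : D.all (funE Q) = true)
    (h2 : D.all (totE 6 OFF BC BD) = true)
    (c0 : D.all (chkF Q g (ev 0) (X 0) one (wc 0) (wp 0) (wn 0) OFF 0) = true)
    (c1 : D.all (chkF Q g (ev 1) (X 1) one (wc 1) (wp 1) (wn 1) OFF 1) = true)
    (c2 : D.all (chkF Q g (ev 2) (X 2) one (wc 2) (wp 2) (wn 2) OFF 2) = true)
    (c3 : D.all (chkF Q g (ev 3) (X 3) one (wc 3) (wp 3) (wn 3) OFF 3) = true)
    (c4 : D.all (chkF Q g (ev 4) (X 4) one (wc 4) (wp 4) (wn 4) OFF 4) = true)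
    (c5 : D.all (chkF Q g (ev 5) (X 5) one (wc 5) (wp 5) (wn 5) OFF 5) = true) :
    OK Q g 6 OFF BC BD X one ev wc wp wn D := by
  rw [List.all_eq_true] at h1 h2 c0 c1 c2 c3 c4 c5
  refine ⟨h1, h2, fun γ hγ => ?_⟩
  interval_cases γ
  · exact c0
  · exact c1
  · exact c2
  · exact c3
  · exact c4
  · exact c5

theorem OK.certF {D : List Ent} {x : ℕ → ℕ → Fin 6 → ℕ}
    (h : OK Q g G OFF BC BD X one ev wc wp wn D) (hQ : 0 < Q) (hg : g ≤ 18)
    (ht : ∀ γ < G, ∀ r < g, (ev γ r = 0 ∧ wn γ r = 0) ∨ (ev γ r = 1 ∧ wc γ r = 0 ∧ wp γ r = 0))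
    (ho : ∀ γ < G, ∀ r < g, PackedOrbit 6 Q 18 (x γ r) (X γ r) one) :
    CertF Q g G OFF BC BD D x X one ev wc wp wn :=
  ⟨hQ, hg, ht, ho, h.1, h.2.2, h.2.1⟩

end ok

end Helper67.Cube18
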