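import Pool.Agent.Helper67.Cube6.Assemble

/-!
# Counting check for vertex simplices of the 6-cube with lanes of 18 bits

Up to eighteen orbits are processed together: orbit `r` uses bit `r` of the 18-bit lanes.
-/

set_option autoImplicit false

namespace Helper67.Cube18

open Helper67.Cube
open Helper51.Cube6 (ca cb addA addA_eq subA subA_eq shl_testBit andL andL_testBit maskE_testBit
  forall_getD)
open Helper67.Cube6 (Ent vc dg5 val8 val8_eq G1 G2 G1_testBit G2_testBit funK M7 apL anL dg32 totE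
  LevL sum_div_mod)
open Pool.Agent.Helper63.Cube6 (allR allR_iff orR testBit_orR fc fc_eq)

/-- packed values (plus `2 ^ 17 - e`) of the functional with code `m` -/
def vN (Q e m : ℕ) (X : ℕ → ℕ) (one : ℕ) : ℕ :=
  subA (fun j => cb m (j+1)) X 6
    (addA (fun j => ca m (j+1)) X 6 ((2 ^ 17 - e + ca m 0 * Q - cb m 0 * Q) * one))

lemma vN_eq {Q e m : ℕ} {X : ℕ → ℕ} {one : ℕ} (he : e ≤ 1) (h : cb m 0 * Q < 2 ^ 17) :
    vN Q e m X one = cmpE 6 Q 18 e (ca m) (cb m) X one := by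
  unfold vN cmpE linP
  rw [subA_eq, addA_eq, linN_eq, linN_eq]
  set S := ∑ i : Fin 6, ca m (i + 1) * X i
  set T := ∑ i : Fin 6, cb m (i + 1) * X i
  obtain ⟨k, hk⟩ : ∃ k, 2 ^ 17 - e + ca m 0 * Q = cb m 0 * Q + k :=
    ⟨2 ^ 17 - e + ca m 0 * Q - cb m 0 * Q, by
      have : cb m 0 * Q ≤ 2 ^ 17 - e := by omega
      omega⟩
  have e1 : 2 ^ 17 - e + ca m 0 * Q - cb m 0 * Q = k := by omega
  rw [e1]
  have e2 : (2 ^ (18 - 1) - e) * one + (ca m 0 * Q * one + S)
      = cb m 0 * Q * one + (k * one + S) := by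
    calc (2 ^ (18 - 1) - e) * one + (ca m 0 * Q * one + S)
        = (2 ^ 17 - e + ca m 0 * Q) * one + S := by ring
      _ = cb m 0 * Q * one + (k * one + S) := by rw [hk]; ring
  rw [e2, Nat.add_sub_add_left]

/-- half space masks of the orbits `r < g` of the functional `m`, one bit position each -/
def cfN (Q : ℕ) (ev : ℕ → ℕ) (Xv : ℕ → ℕ → ℕ) (one m : ℕ) : ℕ → ℕ
  | 0 => 0
  | r+1 => ((vN Q (ev r) m (Xv r) one >>> (17 - r)) &&& (one <<< r)) ||| cfN Q ev Xv one m r

section masks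
variable {one : ℕ} (hone : ∀ i, one.testBit i = true → i % 18 = 0)
include hone

lemma shl_disj {r r' i : ℕ} (hr : r < 18) (hr' : r' < 18) (h : (one <<< r).testBit i = true)
    (h' : (one <<< r').testBit i = true) : r = r' := by
  rw [shl_testBit, Bool.and_eq_true, decide_eq_true_eq] at h h'
  have h1 := hone _ h.2
  have h2 := hone _ h'.2
  omega

lemma cfN_testBit_ge {Q : ℕ} {ev : ℕ → ℕ} {Xv : ℕ → ℕ → ℕ} {m g r i : ℕ} (hr : r < 18)
    (hgr : g ≤ r) (hi : (one <<< r).testBit i = true) : (cfN Q ev Xv one m g).testBit i = false := by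
  induction g with
  | zero => simp [cfN]
  | succ g ih =>
    rw [cfN, Nat.testBit_or, ih (by omega), Bool.or_false, Nat.testBit_and]
    have h1 : (one <<< g).testBit i = false := by
      rw [Bool.eq_false_iff]
      intro h
      have := shl_disj hone hr (by omega) hi h
      omega
    rw [h1, Bool.and_false]

lemma cfN_testBit {Q : ℕ} {ev : ℕ → ℕ} {Xv : ℕ → ℕ → ℕ} {m g r i : ℕ} (hg : g ≤ 18)
    (hr : r < g) (hi : (one <<< r).testBit i = true) :
    (cfN Q ev Xv one m g).testBit i = (vN Q (ev r) m (Xv r) one).testBit (i + (17 - r)) := by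
  induction g with
  | zero => omega
  | succ g ih =>
    rw [cfN, Nat.testBit_or, Nat.testBit_and]
    by_cases hrg : r = g
    · subst hrg
      rw [cfN_testBit_ge hone (by omega) le_rfl hi, hi, Bool.and_true, Bool.or_false,
        Nat.testBit_shiftRight, add_comm]
    · have h1 : (one <<< g).testBit i = false := by
        rw [Bool.eq_false_iff]
        intro h
        exact hrg (shl_disj hone (by omega) (by omega) hi h)
      rw [h1, Bool.and_false, Bool.false_or]
      exact ih (by omega) (by omega)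

end masks

/-- number of group elements moving orbit `r` into the region, from the joint mask `A` -/
def cR (A one r : ℕ) : ℕ := (A &&& (one <<< r)) % 262143 * 2 ^ (18 - r) % 262143

theorem and_sel {Q : ℕ} {ev : ℕ → ℕ} {Xv : ℕ → ℕ → ℕ} {one m g r : ℕ} {l : List ℕ}
    (hone : ∀ i, one.testBit i = true → i % 18 = 0) (hg : g ≤ 18) (hr : r < g) (he : ev r ≤ 1)
    (hlen : (m :: l).length = 7) (hs : ∀ m' ∈ m :: l, cb m' 0 * Q < 2 ^ 17) :
    andL (fun m => cfN Q ev Xv one m g) m l &&& (one <<< r) =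
      (maskE 6 Q 18 (ev r) (fun k => ca ((m :: l).getD k 0)) (fun k => cb ((m :: l).getD k 0))
        (Xv r) one 7 / 2 ^ 17) <<< r := by
  refine Nat.eq_of_testBit_eq fun i => ?_
  rw [Bool.eq_iff_iff, Nat.testBit_and, Bool.and_eq_true, andL_testBit,
    shl_testBit (maskE 6 Q 18 (ev r) _ _ (Xv r) one 7 / 2 ^ 17) r i, Bool.and_eq_true,
    decide_eq_true_eq, Nat.testBit_div_two_pow, maskE_testBit]
  have hp : ∀ j, (2 ^ (18 - 1) * one).testBit (j + 17) = one.testBit j := by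
    intro j
    rw [Nat.testBit_two_pow_mul]
    simp
  have key : (one <<< r).testBit i = true → r ≤ i → ∀ m' ∈ m :: l,
      (cfN Q ev Xv one m' g).testBit i =
        (cmpE 6 Q 18 (ev r) (ca m') (cb m') (Xv r) one).testBit (i - r + 17) := by
    intro h hri m' hm'
    rw [cfN_testBit hone hg hr h, vN_eq he (hs m' hm')]
    congr 1
    omega
  constructor
  · rintro ⟨h1, h2⟩
    have h3 := h2
    rw [shl_testBit, Bool.and_eq_true, decide_eq_true_eq] at h3
    refine ⟨h3.1, ?_, ?_⟩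
    · rw [hp]; exact h3.2
    · refine (forall_getD hlen (fun m' => (cmpE 6 Q 18 (ev r) (ca m') (cb m') (Xv r) one).testBit
        (i - r + 17) = true)).2 fun m' hm' => ?_
      rw [← key h2 h3.1 m' hm']
      exact h1 m' hm'
  · rintro ⟨h1, h2, h3⟩
    rw [hp] at h2
    have h4 : (one <<< r).testBit i = true := by
      rw [shl_testBit, Bool.and_eq_true, decide_eq_true_eq]
      exact ⟨h1, h2⟩
    refine ⟨fun m' hm' => ?_, h4⟩
    rw [key h4 h1 m' hm']
    exact (forall_getD hlen (fun m' => (cmpE 6 Q 18 (ev r) (ca m') (cb m') (Xv r) one).testBit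
        (i - r + 17) = true)).1 h3 m' hm'

theorem cR_eq {Q : ℕ} {ev : ℕ → ℕ} {Xv : ℕ → ℕ → ℕ} {one m g r : ℕ} {l : List ℕ}
    (hone : ∀ i, one.testBit i = true → i % 18 = 0) (hg : g ≤ 18) (hr : r < g) (he : ev r ≤ 1)
    (hlen : (m :: l).length = 7) (hs : ∀ m' ∈ m :: l, cb m' 0 * Q < 2 ^ 17) :
    cR (andL (fun m => cfN Q ev Xv one m g) m l) one r =
      cntE 6 Q 18 (ev r) (fun k => ca ((m :: l).getD k 0)) (fun k => cb ((m :: l).getD k 0))
        (Xv r) one 7 := by
  unfold cR cntE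
  rw [and_sel hone hg hr he hlen hs, Nat.shiftLeft_eq]
  set Z := maskE 6 Q 18 (ev r) (fun k => ca ((m :: l).getD k 0))
    (fun k => cb ((m :: l).getD k 0)) (Xv r) one 7 / 2 ^ 17
  have h1 : (2 : ℕ) ^ 18 - 1 = 262143 := by norm_num
  rw [h1]
  have h3 : Z * 2 ^ r % 262143 * 2 ^ (18 - r) ≡ Z [MOD 262143] := by
    calc Z * 2 ^ r % 262143 * 2 ^ (18 - r) ≡ Z * 2 ^ r * 2 ^ (18 - r) [MOD 262143] :=
          Nat.ModEq.mul_right _ (Nat.mod_modEq _ _)
      _ = Z * 262144 := by
          rw [mul_assoc, ← pow_add, show r + (18 - r) = 18 by omega]; norm_num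
      _ ≡ Z * 1 [MOD 262143] := Nat.ModEq.mul_left _ (by decide)
      _ = Z := mul_one _
  exact h3

/-- the coefficients of the functional are small -/
def smallM (Q m : ℕ) : Bool := smallB 6 Q 18 (ca m) && smallB 6 Q 18 (cb m)

/-- check of the list of functionals, starting with number `k` -/
def funL (Q M c : ℕ) : List ℕ → ℕ → Bool
  | [], k => Nat.beq k 7
  | m :: l, k => funK M (vc c k) m && (smallM Q m && funL Q M c l (Nat.succ k))

/-- check of the vertices and the functionals -/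
def funC (Q c : ℕ) (f : List ℕ) : Bool :=
  allR 7 (fun k => allR k (fun q => !Nat.beq (vc c q) (vc c k))) && funL Q (M7 c) c f 0

/-- check of the representative -/
def funE (Q : ℕ) (e : Ent) : Bool := funC Q e.c e.f

lemma funL_spec {Q M c : ℕ} : ∀ (l : List ℕ) (k : ℕ), funL Q M c l k = true →
    k + l.length = 7 ∧ (∀ i < l.length, funK M (vc c (k + i)) (l.getD i 0) = true ∧
      smallM Q (l.getD i 0) = true) := by
  intro l
  induction l with
  | nil =>
    intro k h
    exact ⟨Nat.eq_of_beq_eq_true h, fun i hi => absurd hi (Nat.not_lt_zero i)⟩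
  | cons m l ih =>
    intro k h
    rw [funL, Bool.and_eq_true, Bool.and_eq_true] at h
    obtain ⟨h1, h2, h3⟩ := h
    obtain ⟨h4, h5⟩ := ih _ h3
    refine ⟨by rw [List.length_cons]; omega, fun i hi => ?_⟩
    cases i with
    | zero => exact ⟨h1, h2⟩
    | succ i =>
      rw [List.length_cons] at hi
      have h6 := h5 i (by omega)
      rw [List.getD_cons_succ]
      have h7 : k + (i + 1) = Nat.succ k + i := by omega
      rw [h7]
      exact h6

theorem funC_spec {Q c : ℕ} {f : List ℕ} (h : funC Q c f = true) :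
    f.length = 7 ∧ funB 6 Q 18 (apL f) (anL f) (vc c) = true ∧
      ∀ m ∈ f, smallM Q m = true := by
  unfold funC at h
  rw [Bool.and_eq_true] at h
  obtain ⟨hd, hl⟩ := h
  obtain ⟨h1, h2⟩ := funL_spec _ _ hl
  have hlen : f.length = 7 := by omega
  have hne : ∀ k < 7, ∀ q < 7, q ≠ k → vc c q ≠ vc c k := by
    have h3 : ∀ k < 7, ∀ q < k, vc c q ≠ vc c k := by
      intro k hk q hq
      have h4 := allR_iff.1 (allR_iff.1 hd k hk) q hq
      intro h5
      rw [h5] at h4
      simp at h4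
    intro k hk q hq hqk
    rcases lt_or_gt_of_ne hqk with h4 | h4
    · exact h3 k hk q h4
    · exact (h3 q hq k h4).symm
  have hval : ∀ k < 7, ∀ q < 7, vc c q < 64 ∧ 128 ≤ val8 (f.getD k 0) (vc c q) ∧
      (129 ≤ val8 (f.getD k 0) (vc c q) ↔ q = k) := by
    intro k hk q hq
    have h3 := (h2 k (by omega)).1
    rw [Nat.zero_add, funK, Bool.and_eq_true] at h3
    have e1 : M7 c &&& G1 (f.getD k 0) = M7 c := Nat.eq_of_beq_eq_true h3.1
    have e2 : M7 c &&& G2 (f.getD k 0) = 2 ^ (8 * vc c k + 7) := Nat.eq_of_beq_eq_true h3.2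
    have e3 : (M7 c).testBit (8 * vc c q + 7) = true := testBit_orR.2 ⟨q, hq, rfl⟩
    have e4 : (G1 (f.getD k 0)).testBit (8 * vc c q + 7) = true := by
      have : (M7 c &&& G1 (f.getD k 0)).testBit (8 * vc c q + 7) = true := by rw [e1]; exact e3
      rw [Nat.testBit_and, e3, Bool.true_and] at this
      exact this
    obtain ⟨hz, hv⟩ := G1_testBit e4
    refine ⟨hz, hv, ?_⟩
    have e5 : (M7 c &&& G2 (f.getD k 0)).testBit (8 * vc c q + 7) =
        decide (129 ≤ val8 (f.getD k 0) (vc c q)) := by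
      rw [Nat.testBit_and, e3, Bool.true_and, G2_testBit hz]
    rw [e2, Nat.testBit_two_pow] at e5
    constructor
    · intro h4
      by_contra h5
      have h6 : decide (8 * vc c k + 7 = 8 * vc c q + 7) = true := by rw [e5]; simpa using h4
      rw [decide_eq_true_eq] at h6
      exact hne k hk q hq h5 (by omega)
    · intro h4
      subst h4
      simpa using e5.symm
  refine ⟨hlen, ?_, ?_⟩
  · rw [funB, Bool.and_eq_true, baryB, allB_iff, allB_iff]
    constructor
    · intro k hk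
      rw [allB_iff]
      intro q hq
      obtain ⟨-, h4, h5⟩ := hval k hk q hq
      have h6 := val8_eq (f.getD k 0) (vc c q)
      change 128 ≤ val8 (f.getD k 0) (vc c q) at h4
      have e1 : vlin 6 (anL f k) (vc c q) = vlin 6 (cb (f.getD k 0)) (vc c q) := rfl
      have e2 : vlin 6 (apL f k) (vc c q) = vlin 6 (ca (f.getD k 0)) (vc c q) := rfl
      rw [e1, e2]
      by_cases hqk : q = k
      · have h7 := h5.2 hqk
        have h8 : Nat.beq q k = true := by rw [hqk]; exact Nat.beq_refl k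
        rw [h8, cond_true, Nat.blt_eq]
        omega
      · have h7 : ¬ 129 ≤ val8 (f.getD k 0) (vc c q) := fun h => hqk (h5.1 h)
        have h8 : Nat.beq q k = false := by
          rw [Bool.eq_false_iff]; exact fun h => hqk (Nat.eq_of_beq_eq_true h)
        rw [h8, cond_false]
        have h9 : vlin 6 (cb (f.getD k 0)) (vc c q) = vlin 6 (ca (f.getD k 0)) (vc c q) := by omega
        rw [h9]
        exact Nat.beq_refl _
    · intro k hk
      exact (h2 k (by omega)).2
  · exact (forall_getD hlen (fun m => smallM Q m = true)).1 fun k hk => (h2 k (by omega)).2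

/-- weighted sum of the counts of the first `n` orbits -/
def sumW (w : ℕ → ℕ) (A one : ℕ) (n : ℕ) : ℕ :=
  Nat.rec (motive := fun _ => ℕ) 0 (fun r ih =>
    bif Nat.beq (w r) 0 then ih else Nat.add ih (Nat.mul (w r) (cR A one r))) n

lemma sumW_eq (w : ℕ → ℕ) (A one : ℕ) (n : ℕ) :
    sumW w A one n = ∑ r ∈ Finset.range n, w r * cR A one r := by
  induction n with
  | zero => rfl
  | succ n ih =>
    have h : sumW w A one (n+1) = bif Nat.beq (w n) 0 then sumW w A one n
      else sumW w A one n + w n * cR A one n := rfl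
    rw [h, Finset.sum_range_succ, ← ih]
    cases h1 : Nat.beq (w n) 0
    · rfl
    · rw [Nat.eq_of_beq_eq_true h1]; simp

/-- check of the weighted counts of one group of `g` orbits, from the joint mask `A` -/
def chkA (g : ℕ) (one : ℕ) (wc wp wn : ℕ → ℕ) (OFF A sc sd : ℕ) : Bool :=
  Nat.ble (sumW wc A one g) sc &&
    Nat.ble (Nat.add (sumW wp A one g) OFF) (Nat.add sd (sumW wn A one g))

/-- check of one group (number `γ`) of `g` orbits for one representative -/
def chkG (Q g : ℕ) (ev : ℕ → ℕ) (Xv : ℕ → ℕ → ℕ) (one : ℕ) (wc wp wn : ℕ → ℕ) (OFF γ : ℕ)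
    (e : Ent) : Bool :=
  match e.f with
  | [] => false
  | m :: l => chkA g one wc wp wn OFF (andL (fun m => cfN Q ev Xv one m g) m l)
      (dg32 e.pc γ) (dg32 e.pd γ)

lemma pk_one_testBit {α : Type} (L : List α) :
    ∀ i, (pk 18 (fun _ => 1) L).testBit i = true → i % 18 = 0 := by
  induction L with
  | nil => intro i h; simp [pk] at h
  | cons y L ih =>
    intro i h
    rw [pk, add_comm, Nat.testBit_two_pow_mul_add _ (by norm_num)] at h
    split_ifs at h with h1
    · rw [Nat.testBit_one_eq_true_iff_self_eq_zero] at h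
      omega
    · have := ih _ h
      omega

/-- the certificate -/
structure Cert (Q g G OFF BC BD : ℕ) (D : List Ent) (x : ℕ → ℕ → Fin 6 → ℕ)
    (X : ℕ → ℕ → ℕ → ℕ) (one : ℕ) (ev wc wp wn : ℕ → ℕ → ℕ) : Prop where
  Qpos : 0 < Q
  gle : g ≤ 18
  typ : ∀ γ < G, ∀ r < g, (ev γ r = 0 ∧ wn γ r = 0) ∨ (ev γ r = 1 ∧ wc γ r = 0 ∧ wp γ r = 0)
  orb : ∀ γ < G, ∀ r < g, PackedOrbit 6 Q 18 (x γ r) (X γ r) one
  fn : ∀ e ∈ D, funE Q e = true
  chk : ∀ γ < G, ∀ e ∈ D, chkG Q g (ev γ) (X γ) one (wc γ) (wp γ) (wn γ) OFF γ e = true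
  tot : ∀ e ∈ D, totE G OFF BC BD e = true

section bounds
variable {Q g G OFF BC BD : ℕ} {D : List Ent} {x : ℕ → ℕ → Fin 6 → ℕ} {X : ℕ → ℕ → ℕ → ℕ}
  {one : ℕ} {ev wc wp wn : ℕ → ℕ → ℕ}

/-- the counts of a representative -/
lemma Cert.counts (h : Cert Q g G OFF BC BD D x X one ev wc wp wn) {e : Ent} (he : e ∈ D) :
    ∑ γ ∈ Finset.range G, ∑ r ∈ Finset.range g,
        wc γ r * cntE 6 Q 18 0 (apL e.f) (anL e.f) (X γ r) one 7 ≤ BC ∧
      ∑ γ ∈ Finset.range G, ∑ r ∈ Finset.range g,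
        wp γ r * cntE 6 Q 18 0 (apL e.f) (anL e.f) (X γ r) one 7 ≤
      BD + ∑ γ ∈ Finset.range G, ∑ r ∈ Finset.range g,
        wn γ r * cntE 6 Q 18 1 (apL e.f) (anL e.f) (X γ r) one 7 := by
  obtain ⟨hlen, -, hsm⟩ := funC_spec (h.fn e he)
  have hcb : ∀ m' ∈ e.f, cb m' 0 * Q < 2 ^ 17 := by
    intro m' hm'
    have h1 := hsm m' hm'
    rw [smallM, Bool.and_eq_true] at h1
    have h2 := Nat.blt_eq.mp h1.2
    rw [sumN_eq] at h2
    have h3 : cb m' 0 ≤ ∑ j : Fin (6+1), cb m' j :=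
      Finset.single_le_sum (f := fun j : Fin (6+1) => cb m' (j : ℕ))
        (fun i _ => Nat.zero_le _) (Finset.mem_univ (0 : Fin (6+1)))
    exact lt_of_le_of_lt (Nat.mul_le_mul_right _ h3) h2
  have hgr : ∀ γ < G, ∑ r ∈ Finset.range g,
        wc γ r * cntE 6 Q 18 0 (apL e.f) (anL e.f) (X γ r) one 7 ≤ dg32 e.pc γ ∧
      ∑ r ∈ Finset.range g,
        wp γ r * cntE 6 Q 18 0 (apL e.f) (anL e.f) (X γ r) one 7 + OFF ≤
      dg32 e.pd γ + ∑ r ∈ Finset.range g,
        wn γ r * cntE 6 Q 18 1 (apL e.f) (anL e.f) (X γ r) one 7 := by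
    intro γ hγ
    have h1 := h.chk γ hγ e he
    obtain ⟨c, f, pc, pd⟩ := e
    cases f with
    | nil => simp at hlen
    | cons m l =>
      have h2 : chkA g one (wc γ) (wp γ) (wn γ) OFF
        (andL (fun m => cfN Q (ev γ) (X γ) one m g) m l) (dg32 pc γ) (dg32 pd γ) = true := h1
      set A := andL (fun m => cfN Q (ev γ) (X γ) one m g) m l with hA
      rw [chkA, Bool.and_eq_true] at h2
      have h3 := Nat.le_of_ble_eq_true h2.1
      have h4 := Nat.le_of_ble_eq_true h2.2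
      change sumW (wp γ) A one g + OFF ≤ dg32 pd γ + sumW (wn γ) A one g at h4
      rw [sumW_eq] at h3
      rw [sumW_eq, sumW_eq] at h4
      have hc : ∀ r < g, cR A one r = cntE 6 Q 18 (ev γ r) (apL (m :: l)) (anL (m :: l))
          (X γ r) one 7 := by
        intro r hr
        have hone : ∀ i, one.testBit i = true → i % 18 = 0 := by
          rw [(h.orb γ hγ r hr).ones]
          exact pk_one_testBit _
        have hev : ev γ r ≤ 1 := by
          rcases h.typ γ hγ r hr with h5 | h5 <;> omega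
        exact cR_eq hone h.gle hr hev hlen hcb
      have e1 : ∑ r ∈ Finset.range g, wc γ r * cR A one r = ∑ r ∈ Finset.range g,
          wc γ r * cntE 6 Q 18 0 (apL (m :: l)) (anL (m :: l)) (X γ r) one 7 := by
        refine Finset.sum_congr rfl fun r hr => ?_
        rw [Finset.mem_range] at hr
        rcases h.typ γ hγ r hr with h5 | h5
        · rw [hc r hr, h5.1]
        · rw [h5.2.1]; simp
      have e2 : ∑ r ∈ Finset.range g, wp γ r * cR A one r = ∑ r ∈ Finset.range g,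
          wp γ r * cntE 6 Q 18 0 (apL (m :: l)) (anL (m :: l)) (X γ r) one 7 := by
        refine Finset.sum_congr rfl fun r hr => ?_
        rw [Finset.mem_range] at hr
        rcases h.typ γ hγ r hr with h5 | h5
        · rw [hc r hr, h5.1]
        · rw [h5.2.2]; simp
      have e3 : ∑ r ∈ Finset.range g, wn γ r * cR A one r = ∑ r ∈ Finset.range g,
          wn γ r * cntE 6 Q 18 1 (apL (m :: l)) (anL (m :: l)) (X γ r) one 7 := by
        refine Finset.sum_congr rfl fun r hr => ?_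
        rw [Finset.mem_range] at hr
        rcases h.typ γ hγ r hr with h5 | h5
        · rw [h5.2]; simp
        · rw [hc r hr, h5.1]
      rw [e1] at h3
      rw [e2, e3] at h4
      exact ⟨h3, h4⟩
  have ht := h.tot e he
  rw [totE, Bool.and_eq_true] at ht
  have ht1 := Nat.le_of_ble_eq_true ht.1
  have ht2 := Nat.le_of_ble_eq_true ht.2
  rw [sumN_eq, ← Finset.sum_range (fun γ => dg32 e.pc γ)] at ht1
  rw [sumN_eq, ← Finset.sum_range (fun γ => dg32 e.pd γ)] at ht2
  constructor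
  · exact (Finset.sum_le_sum fun γ hγ => (hgr γ (Finset.mem_range.1 hγ)).1).trans ht1
  · have h5 := Finset.sum_le_sum fun γ hγ => (hgr γ (Finset.mem_range.1 hγ)).2
    rw [Finset.sum_add_distrib, Finset.sum_add_distrib, Finset.sum_const, Finset.card_range,
      smul_eq_mul] at h5
    omega

/-- **covers by vertex simplices** -/
theorem Cert.cover (h : Cert Q g G OFF BC BD D x X one ev wc wp wn) (hL : LevL D) {N : ℕ}
    {W : Fin N → Fin 7 → Fin 6 → ℝ} (hW : IsCover W) (hv : IsVertexFamily W) :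
    46080 * ∑ γ ∈ Finset.range G, ∑ r ∈ Finset.range g, wc γ r ≤ N * BC := by
  have hLev : LevI 6 7 D.length (fun i => (D.getD i ⟨0, [], 0, 0⟩).C) := by
    intro v h1 h2
    obtain ⟨e, he, gg, hg⟩ := hL v h1 h2
    obtain ⟨i, hi, rfl⟩ := List.mem_iff_getElem.1 he
    exact ⟨i, hi, gg, by beta_reduce; rw [List.getD_eq_getElem _ _ hi]; exact hg⟩
  have hmem : ∀ i < D.length, D.getD i ⟨0, [], 0, 0⟩ ∈ D := by
    intro i hi
    rw [List.getD_eq_getElem _ _ hi]
    exact List.getElem_mem hi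
  have hX : ∀ o < G * g, PackedOrbit 6 Q 18 (x (o / g) (o % g)) (X (o / g) (o % g)) one := by
    intro o ho
    have hg : 0 < g := Nat.pos_of_ne_zero (by rintro rfl; simp at ho)
    exact h.orb _ ((Nat.div_lt_iff_lt_mul hg).2 ho) _ (Nat.mod_lt _ hg)
  have key := cover_bound_unsigned (d := 6) (Q := Q) (b := 18) (K := G * g) (B := BC)
    (n := D.length) (wt := fun o => wc (o / g) (o % g)) (one := one)
    (ap := fun i => apL (D.getD i ⟨0, [], 0, 0⟩).f) (an := fun i => anL (D.getD i ⟨0, [], 0, 0⟩).f)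
    (by norm_num) h.Qpos hX (by norm_num [Nat.factorial]) hLev
    (fun i hi => (funC_spec (h.fn _ (hmem i hi))).2.1)
    (fun o i => cntE 6 Q 18 0 (apL (D.getD i ⟨0, [], 0, 0⟩).f) (anL (D.getD i ⟨0, [], 0, 0⟩).f)
      (X (o / g) (o % g)) one 7) (fun o _ i _ => le_rfl) ?_ hW hv
  · rw [sum_div_mod G g (fun γ r => wc γ r)] at key
    exact key
  · intro i hi
    have h1 := (h.counts (hmem i hi)).1
    rw [← sum_div_mod G g (fun γ r => wc γ r * cntE 6 Q 18 0 (apL (D.getD i ⟨0, [], 0, 0⟩).f)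
      (anL (D.getD i ⟨0, [], 0, 0⟩).f) (X γ r) one 7)] at h1
    exact h1

/-- **dissections by vertex simplices** -/
theorem Cert.dissection (h : Cert Q g G OFF BC BD D x X one ev wc wp wn) (hL : LevL D) {N : ℕ}
    {W : Fin N → Fin 7 → Fin 6 → ℝ} (hW : IsDissection W) (hv : IsVertexFamily W) :
    46080 * ∑ γ ∈ Finset.range G, ∑ r ∈ Finset.range g, wp γ r ≤
      N * BD + 46080 * ∑ γ ∈ Finset.range G, ∑ r ∈ Finset.range g, wn γ r := by
  have hLev : LevI 6 7 D.length (fun i => (D.getD i ⟨0, [], 0, 0⟩).C) := by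
    intro v h1 h2
    obtain ⟨e, he, gg, hg⟩ := hL v h1 h2
    obtain ⟨i, hi, rfl⟩ := List.mem_iff_getElem.1 he
    exact ⟨i, hi, gg, by beta_reduce; rw [List.getD_eq_getElem _ _ hi]; exact hg⟩
  have hmem : ∀ i < D.length, D.getD i ⟨0, [], 0, 0⟩ ∈ D := by
    intro i hi
    rw [List.getD_eq_getElem _ _ hi]
    exact List.getElem_mem hi
  have hX : ∀ o < G * g, PackedOrbit 6 Q 18 (x (o / g) (o % g)) (X (o / g) (o % g)) one := by
    intro o ho
    have hg : 0 < g := Nat.pos_of_ne_zero (by rintro rfl; simp at ho)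
    exact h.orb _ ((Nat.div_lt_iff_lt_mul hg).2 ho) _ (Nat.mod_lt _ hg)
  have key := dissection_bound_signed (d := 6) (Q := Q) (b := 18) (Kp := G * g) (Kn := G * g)
    (B := BD) (n := D.length) (wp := fun o => wp (o / g) (o % g))
    (wn := fun o => wn (o / g) (o % g)) (one := one)
    (ap := fun i => apL (D.getD i ⟨0, [], 0, 0⟩).f) (an := fun i => anL (D.getD i ⟨0, [], 0, 0⟩).f)
    (by norm_num) h.Qpos hX hX (by norm_num [Nat.factorial]) hLev
    (fun i hi => (funC_spec (h.fn _ (hmem i hi))).2.1)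
    (fun o i => cntE 6 Q 18 0 (apL (D.getD i ⟨0, [], 0, 0⟩).f) (anL (D.getD i ⟨0, [], 0, 0⟩).f)
      (X (o / g) (o % g)) one 7)
    (fun o i => cntE 6 Q 18 1 (apL (D.getD i ⟨0, [], 0, 0⟩).f) (anL (D.getD i ⟨0, [], 0, 0⟩).f)
      (X (o / g) (o % g)) one 7) (fun o _ i _ => le_rfl) (fun o _ i _ => le_rfl) ?_ hW hv
  · rw [sum_div_mod G g (fun γ r => wp γ r), sum_div_mod G g (fun γ r => wn γ r)] at key
    exact key
  · intro i hi
    have h1 := (h.counts (hmem i hi)).2
    rw [← sum_div_mod G g (fun γ r => wp γ r * cntE 6 Q 18 0 (apL (D.getD i ⟨0, [], 0, 0⟩).f)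
      (anL (D.getD i ⟨0, [], 0, 0⟩).f) (X γ r) one 7), ← sum_div_mod G g (fun γ r => wn γ r *
      cntE 6 Q 18 1 (apL (D.getD i ⟨0, [], 0, 0⟩).f) (anL (D.getD i ⟨0, [], 0, 0⟩).f)
      (X γ r) one 7)] at h1
    exact h1

end bounds

/-- digit `j` of the functional code `m` -/
def dR (m j : ℕ) : ℕ := Nat.land (Nat.shiftRight m (Nat.mul 5 j)) 31

lemma dR_eq (m j : ℕ) : dR m j = (m >>> (5 * j)) % 32 :=
  Nat.and_two_pow_sub_one_eq_mod (m >>> (5 * j)) 5

/-- add the multiple `d - 16` of `X` -/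
def stF (d X acc : ℕ) : ℕ :=
  cond (Nat.beq d 16) acc (cond (Nat.ble 16 d)
    (cond (Nat.beq d 17) (Nat.add acc X) (Nat.add acc (Nat.mul (Nat.sub d 16) X)))
    (cond (Nat.beq d 15) (Nat.sub acc X) (Nat.sub acc (Nat.mul (Nat.sub 16 d) X))))

lemma stF_eq {m j X acc : ℕ} (h : cb m j * X ≤ acc) :
    stF (dR m j) X acc + cb m j * X = acc + ca m j * X := by
  have e1 : ca m j = dR m j - 16 := by rw [dR_eq]; rfl
  have e2 : cb m j = 16 - dR m j := by rw [dR_eq]; rfl
  rw [e2] at h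
  rw [e1, e2]
  set d := dR m j
  unfold stF
  cases h1 : Nat.beq d 16
  · rw [cond_false]
    have hne : d ≠ 16 := Nat.ne_of_beq_eq_false h1
    cases h2 : Nat.ble 16 d
    · have hlt : d < 16 := by
        by_contra hcon
        rw [Nat.ble_eq.mpr (by omega)] at h2
        exact absurd h2 (by simp)
      rw [cond_false]
      have e3 : d - 16 = 0 := by omega
      rw [e3, Nat.zero_mul, Nat.add_zero]
      cases h3 : Nat.beq d 15
      · rw [cond_false]
        exact Nat.sub_add_cancel h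
      · rw [cond_true]
        have h4 : d = 15 := Nat.eq_of_beq_eq_true h3
        rw [h4] at h ⊢
        have e5 : (16 - 15) * X = X := by norm_num
        rw [e5] at h ⊢
        exact Nat.sub_add_cancel h
    · have hle : 16 ≤ d := Nat.le_of_ble_eq_true h2
      rw [cond_true]
      have e3 : 16 - d = 0 := by omega
      rw [e3, Nat.zero_mul, Nat.add_zero]
      cases h3 : Nat.beq d 17
      · rfl
      · have h4 : d = 17 := Nat.eq_of_beq_eq_true h3
        rw [cond_true, h4]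
        have e5 : (17 - 16) * X = X := by norm_num
        rw [e5]; rfl
  · rw [cond_true]
    have h2 : d = 16 := Nat.eq_of_beq_eq_true h1
    rw [h2]

/-- the constant part -/
def baF (Q e d one : ℕ) : ℕ :=
  cond (Nat.ble 16 d)
    (Nat.mul (Nat.add (Nat.sub 131072 e) (Nat.mul (Nat.sub d 16) Q)) one)
    (Nat.mul (Nat.sub (Nat.sub 131072 e) (Nat.mul (Nat.sub 16 d) Q)) one)

lemma baF_eq (Q e m one : ℕ) :
    baF Q e (dR m 0) one = (2 ^ 17 - e + ca m 0 * Q - cb m 0 * Q) * one := by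
  have e1 : ca m 0 = dR m 0 - 16 := by rw [dR_eq]; rfl
  have e2 : cb m 0 = 16 - dR m 0 := by rw [dR_eq]; rfl
  rw [e1, e2]
  set d := dR m 0
  unfold baF
  have h15 : (2 : ℕ) ^ 17 = 131072 := by norm_num
  rw [h15]
  cases h2 : Nat.ble 16 d
  · have hlt : d < 16 := by
      by_contra hcon
      rw [Nat.ble_eq.mpr (by omega)] at h2
      exact absurd h2 (by simp)
    have e3 : d - 16 = 0 := by omega
    rw [cond_false, e3, Nat.zero_mul, Nat.add_zero]
    rfl
  · have hle : 16 ≤ d := Nat.le_of_ble_eq_true h2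
    have e3 : 16 - d = 0 := by omega
    rw [cond_true, e3, Nat.zero_mul, Nat.sub_zero]
    rfl

/-- packed values of the functional with digits `d0, ..., d6` -/
def vK (Q e : ℕ) (X : ℕ → ℕ) (one d0 d1 d2 d3 d4 d5 d6 : ℕ) : ℕ :=
  stF d1 (X 0) (stF d2 (X 1) (stF d3 (X 2) (stF d4 (X 3) (stF d5 (X 4) (stF d6 (X 5)
    (baF Q e d0 one))))))

/-- packed values of the functional `m` -/
def vF (Q e m : ℕ) (X : ℕ → ℕ) (one : ℕ) : ℕ :=
  fc (dR m 0) fun d0 => fc (dR m 1) fun d1 => fc (dR m 2) fun d2 => fc (dR m 3) fun d3 =>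
    fc (dR m 4) fun d4 => fc (dR m 5) fun d5 => fc (dR m 6) fun d6 =>
      vK Q e X one d0 d1 d2 d3 d4 d5 d6

lemma vF_eq {Q e m : ℕ} {X : ℕ → ℕ} {one : ℕ} (he : e ≤ 1) (hX : ∀ j < 6, X j ≤ Q * one)
    (hs : sumN 7 (cb m) * Q < 2 ^ 17) : vF Q e m X one = vN Q e m X one := by
  unfold vF
  rw [fc_eq, fc_eq, fc_eq, fc_eq, fc_eq, fc_eq, fc_eq]
  unfold vK vN
  rw [subA_eq, addA_eq, baF_eq]
  simp only [sumN, Nat.zero_add] at hs
  simp only [Fin.sum_univ_six, Fin.val_zero, Fin.val_one, Fin.val_two]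
  have f3 : ((3 : Fin 6) : ℕ) = 3 := rfl
  have f4 : ((4 : Fin 6) : ℕ) = 4 := rfl
  have f5 : ((5 : Fin 6) : ℕ) = 5 := rfl
  rw [f3, f4, f5]
  simp only [Nat.zero_add, Nat.reduceAdd]
  set B := (2 ^ 17 - e + ca m 0 * Q - cb m 0 * Q) * one with hB
  have hbd : cb m 1 * X 0 + cb m 2 * X 1 + cb m 3 * X 2 + cb m 4 * X 3 + cb m 5 * X 4 +
      cb m 6 * X 5 ≤ B := by
    have h0 := Nat.mul_le_mul_left (cb m 1) (hX 0 (by norm_num))
    have h1 := Nat.mul_le_mul_left (cb m 2) (hX 1 (by norm_num))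
    have h2 := Nat.mul_le_mul_left (cb m 3) (hX 2 (by norm_num))
    have h3 := Nat.mul_le_mul_left (cb m 4) (hX 3 (by norm_num))
    have h4 := Nat.mul_le_mul_left (cb m 5) (hX 4 (by norm_num))
    have h5 := Nat.mul_le_mul_left (cb m 6) (hX 5 (by norm_num))
    have h6 : (cb m 1 + cb m 2 + cb m 3 + cb m 4 + cb m 5 + cb m 6) * Q ≤
        2 ^ 17 - e + ca m 0 * Q - cb m 0 * Q := by
      have h7 : (cb m 0 + cb m 1 + cb m 2 + cb m 3 + cb m 4 + cb m 5 + cb m 6) * Q < 2 ^ 17 := hs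
      have h8 : (cb m 0 + cb m 1 + cb m 2 + cb m 3 + cb m 4 + cb m 5 + cb m 6) * Q =
          cb m 0 * Q + (cb m 1 + cb m 2 + cb m 3 + cb m 4 + cb m 5 + cb m 6) * Q := by ring
      omega
    have h9 := Nat.mul_le_mul_right one h6
    rw [← hB] at h9
    have h10 : (cb m 1 + cb m 2 + cb m 3 + cb m 4 + cb m 5 + cb m 6) * Q * one =
        cb m 1 * (Q * one) + cb m 2 * (Q * one) + cb m 3 * (Q * one) + cb m 4 * (Q * one) +
          cb m 5 * (Q * one) + cb m 6 * (Q * one) := by ring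
    omega
  have s6 := stF_eq (m := m) (j := 6) (X := X 5) (acc := B) (by omega)
  set a6 := stF (dR m 6) (X 5) B
  have s5 := stF_eq (m := m) (j := 5) (X := X 4) (acc := a6) (by omega)
  set a5 := stF (dR m 5) (X 4) a6
  have s4 := stF_eq (m := m) (j := 4) (X := X 3) (acc := a5) (by omega)
  set a4 := stF (dR m 4) (X 3) a5
  have s3 := stF_eq (m := m) (j := 3) (X := X 2) (acc := a4) (by omega)
  set a3 := stF (dR m 3) (X 2) a4
  have s2 := stF_eq (m := m) (j := 2) (X := X 1) (acc := a3) (by omega)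
  set a2 := stF (dR m 2) (X 1) a3
  have s1 := stF_eq (m := m) (j := 1) (X := X 0) (acc := a2) (by omega)
  omega

/-- half space masks of `n` orbits, one bit position each -/
def cfF (Q : ℕ) (ev : ℕ → ℕ) (Xv : ℕ → ℕ → ℕ) (one m n : ℕ) : ℕ :=
  Nat.rec (motive := fun _ => ℕ) 0 (fun r ih => Nat.lor
    (Nat.land (Nat.shiftRight (vF Q (ev r) m (Xv r) one) (Nat.sub 17 r)) (Nat.shiftLeft one r))
    ih) n

lemma cfF_eq {Q : ℕ} {ev : ℕ → ℕ} {Xv : ℕ → ℕ → ℕ} {one m : ℕ}
    (hs : sumN 7 (cb m) * Q < 2 ^ 17) : ∀ n, (∀ r < n, ev r ≤ 1) →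
    (∀ r < n, ∀ j < 6, Xv r j ≤ Q * one) → cfF Q ev Xv one m n = cfN Q ev Xv one m n := by
  intro n
  induction n with
  | zero => intro _ _; rfl
  | succ n ih =>
    intro he hX
    have h1 : cfF Q ev Xv one m (n+1) = ((vF Q (ev n) m (Xv n) one >>> (17 - n)) &&&
      (one <<< n)) ||| cfF Q ev Xv one m n := rfl
    rw [h1, cfN, ih (fun r hr => he r (by omega)) (fun r hr => hX r (by omega)),
      vF_eq (he n (by omega)) (hX n (by omega)) hs]

/-- conjunction of `F m` over a nonempty list -/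
def andF (F : ℕ → ℕ) (m : ℕ) (l : List ℕ) : ℕ :=
  List.rec (motive := fun _ => ℕ → ℕ) (fun m => F m) (fun m' _ ih m => Nat.land (F m) (ih m')) l m

lemma andF_eq {F F' : ℕ → ℕ} (l : List ℕ) : ∀ m, (∀ m' ∈ m :: l, F m' = F' m') →
    andF F m l = andL F' m l := by
  induction l with
  | nil => intro m h; exact h m (by simp)
  | cons a l ih =>
    intro m h
    have h1 : andF F m (a :: l) = F m &&& andF F a l := rfl
    rw [h1, andL, h m (by simp), ih a (fun m' hm' => h m' (List.mem_cons_of_mem _ hm'))]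

/-- raw form of `cR` -/
def cRF (A one r : ℕ) : ℕ :=
  Nat.mod (Nat.mul (Nat.mod (Nat.land A (Nat.shiftLeft one r)) 262143)
    (Nat.pow 2 (Nat.sub 18 r))) 262143

lemma cRF_eq (A one r : ℕ) : cRF A one r = cR A one r := rfl

/-- weighted sum of the counts of the first `n` orbits -/
def sumF (w : ℕ → ℕ) (A one : ℕ) (n : ℕ) : ℕ :=
  Nat.rec (motive := fun _ => ℕ) 0 (fun r ih =>
    cond (Nat.beq (w r) 0) ih (Nat.add ih (Nat.mul (w r) (cRF A one r)))) n

lemma sumF_eq (w : ℕ → ℕ) (A one n : ℕ) : sumF w A one n = sumW w A one n := by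
  induction n with
  | zero => rfl
  | succ n ih =>
    have h1 : sumF w A one (n+1) = cond (Nat.beq (w n) 0) (sumF w A one n)
      (Nat.add (sumF w A one n) (Nat.mul (w n) (cRF A one n))) := rfl
    have h2 : sumW w A one (n+1) = cond (Nat.beq (w n) 0) (sumW w A one n)
      (Nat.add (sumW w A one n) (Nat.mul (w n) (cR A one n))) := rfl
    rw [h1, h2, ih, cRF_eq]

/-- fast form of `chkG` -/
def chkF (Q g : ℕ) (ev : ℕ → ℕ) (Xv : ℕ → ℕ → ℕ) (one : ℕ) (wc wp wn : ℕ → ℕ) (OFF γ : ℕ)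
    (e : Ent) : Bool :=
  List.rec (motive := fun _ => Bool) false (fun m l _ =>
    cond (Nat.ble (sumF wc (andF (fun m => cfF Q ev Xv one m g) m l) one g) (dg32 e.pc γ))
      (Nat.ble (Nat.add (sumF wp (andF (fun m => cfF Q ev Xv one m g) m l) one g) OFF)
        (Nat.add (dg32 e.pd γ) (sumF wn (andF (fun m => cfF Q ev Xv one m g) m l) one g)))
      false) e.f

lemma chkG_of_chkF {Q g : ℕ} {ev : ℕ → ℕ} {Xv : ℕ → ℕ → ℕ} {one : ℕ} {wc wp wn : ℕ → ℕ}
    {OFF γ : ℕ} {e : Ent} (he : ∀ r < g, ev r ≤ 1) (hX : ∀ r < g, ∀ j < 6, Xv r j ≤ Q * one)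
    (hs : ∀ m ∈ e.f, smallM Q m = true) (h : chkF Q g ev Xv one wc wp wn OFF γ e = true) :
    chkG Q g ev Xv one wc wp wn OFF γ e = true := by
  obtain ⟨c, f, pc, pd⟩ := e
  cases f with
  | nil => exact absurd h (by simp [chkF])
  | cons m l =>
    have hA : andF (fun m => cfF Q ev Xv one m g) m l = andL (fun m => cfN Q ev Xv one m g) m l := by
      refine andF_eq l m fun m' hm' => ?_
      have h1 := hs m' hm'
      rw [smallM, Bool.and_eq_true] at h1
      exact cfF_eq (Nat.blt_eq.mp h1.2) g he hX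
    have h1 : cond (Nat.ble (sumF wc (andF (fun m => cfF Q ev Xv one m g) m l) one g) (dg32 pc γ))
      (Nat.ble (Nat.add (sumF wp (andF (fun m => cfF Q ev Xv one m g) m l) one g) OFF)
        (Nat.add (dg32 pd γ) (sumF wn (andF (fun m => cfF Q ev Xv one m g) m l) one g)))
      false = true := h
    rw [hA, sumF_eq, sumF_eq, sumF_eq] at h1
    have h2 : chkG Q g ev Xv one wc wp wn OFF γ ⟨c, m :: l, pc, pd⟩ =
      (Nat.ble (sumW wc (andL (fun m => cfN Q ev Xv one m g) m l) one g) (dg32 pc γ) &&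
      Nat.ble (Nat.add (sumW wp (andL (fun m => cfN Q ev Xv one m g) m l) one g) OFF)
        (Nat.add (dg32 pd γ) (sumW wn (andL (fun m => cfN Q ev Xv one m g) m l) one g))) := rfl
    rw [h2]
    cases h3 : Nat.ble (sumW wc (andL (fun m => cfN Q ev Xv one m g) m l) one g) (dg32 pc γ)
    · rw [h3, cond_false] at h1; exact absurd h1 (by simp)
    · rw [h3, cond_true] at h1
      rw [Bool.true_and]
      exact h1

lemma pk_le_mul {α : Type} {b Q : ℕ} {f : α → ℕ} {L : List α} (h : ∀ y ∈ L, f y ≤ Q) :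
    pk b f L ≤ Q * pk b (fun _ => 1) L := by
  induction L with
  | nil => simp [pk]
  | cons y L ih =>
    rw [pk, pk]
    have h1 := h y (by simp)
    have h2 := Nat.mul_le_mul_left (2 ^ b) (ih fun z hz => h z (by simp [hz]))
    calc f y + 2 ^ b * pk b f L ≤ Q + 2 ^ b * (Q * pk b (fun _ => 1) L) := Nat.add_le_add h1 h2
      _ = Q * (1 + 2 ^ b * pk b (fun _ => 1) L) := by ring

lemma PackedOrbit.le_mul {Q : ℕ} {x : Fin 6 → ℕ} {X : ℕ → ℕ} {one : ℕ}
    (h : PackedOrbit 6 Q 18 x X one) : ∀ j < 6, X j ≤ Q * one := by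
  intro j hj
  have h1 := h.coord ⟨j, hj⟩
  have h2 : X j = pk 18 (fun y => y ⟨j, hj⟩) (orbL 6 Q x) := h1
  rw [h2, h.ones]
  exact pk_le_mul fun y hy => orbL_le h.le y hy _

/-- the certificate with the fast check -/
structure CertF (Q g G OFF BC BD : ℕ) (D : List Ent) (x : ℕ → ℕ → Fin 6 → ℕ)
    (X : ℕ → ℕ → ℕ → ℕ) (one : ℕ) (ev wc wp wn : ℕ → ℕ → ℕ) : Prop where
  Qpos : 0 < Q
  gle : g ≤ 18
  typ : ∀ γ < G, ∀ r < g, (ev γ r = 0 ∧ wn γ r = 0) ∨ (ev γ r = 1 ∧ wc γ r = 0 ∧ wp γ r = 0)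
  orb : ∀ γ < G, ∀ r < g, PackedOrbit 6 Q 18 (x γ r) (X γ r) one
  fn : ∀ e ∈ D, funE Q e = true
  chk : ∀ γ < G, ∀ e ∈ D, chkF Q g (ev γ) (X γ) one (wc γ) (wp γ) (wn γ) OFF γ e = true
  tot : ∀ e ∈ D, totE G OFF BC BD e = true

theorem CertF.cert {Q g G OFF BC BD : ℕ} {D : List Ent} {x : ℕ → ℕ → Fin 6 → ℕ}
    {X : ℕ → ℕ → ℕ → ℕ} {one : ℕ} {ev wc wp wn : ℕ → ℕ → ℕ}
    (h : CertF Q g G OFF BC BD D x X one ev wc wp wn) :
    Cert Q g G OFF BC BD D x X one ev wc wp wn :=
  ⟨h.Qpos, h.gle, h.typ, h.orb, h.fn, fun γ hγ e he => chkG_of_chkF (fun r hr => by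
      rcases h.typ γ hγ r hr with h5 | h5 <;> omega)
    (fun r hr => PackedOrbit.le_mul (h.orb γ hγ r hr)) (funC_spec (h.fn e he)).2.2
    (h.chk γ hγ e he), h.tot⟩

end Helper67.Cube18
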