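import Pool.Agent.Helper67.Cube6.Cert9

/-!
# Weighted sums of digits by one multiplication

The digits have 16 bits; the digits with the indices `r, r + 3, r + 6, …` are cut out by a mask and
have distance 48 bits, so that one multiplication with the reversed weights gives the weighted sum.
-/

set_option autoImplicit false

namespace Helper67.Cube18

open Helper67.Cube6 (Ent)

/-- base -/
def XB : ℕ := 2 ^ 48

/-- weighted sum of the digits `o, o + 3, …` -/
def dotS (p : ℕ) : ℕ → List ℕ → ℕ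
  | _, [] => 0
  | o, w :: l => w * dg16 p o + dotS p (o+3) l

/-- the digits `o, o + 3, …` with distance 48 bits -/
def pkd (p : ℕ) : ℕ → ℕ → ℕ
  | _, 0 => 0
  | o, n+1 => dg16 p o + XB * pkd p (o+3) n

/-- the reversed weights -/
def rv : List ℕ → ℕ
  | [] => 0
  | w :: l => w * XB ^ l.length + rv l

/-- the mask -/
def MK : ℕ → ℕ
  | 0 => 0
  | n+1 => 65535 + XB * MK n

lemma land_split (q m : ℕ) : q &&& (65535 + XB * m) = (q &&& 65535) + XB * ((q >>> 48) &&& m) := by
  have h1 : (65535 : ℕ) + XB * m = 2 ^ 48 * m + 65535 := by unfold XB; ring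
  have h3 : q &&& 65535 < 2 ^ 48 := lt_of_le_of_lt Nat.and_le_right (by norm_num)
  have h2 : (q &&& 65535) + XB * ((q >>> 48) &&& m) =
      2 ^ 48 * ((q >>> 48) &&& m) + (q &&& 65535) := by unfold XB; ring
  rw [h1, h2]
  apply Nat.eq_of_testBit_eq
  intro i
  rw [Nat.testBit_and, Nat.testBit_two_pow_mul_add _ (by norm_num), Nat.testBit_two_pow_mul_add _ h3]
  split_ifs with h
  · rw [Nat.testBit_and]
  · rw [Nat.testBit_and, Nat.testBit_shiftRight]
    congr 2
    omega

lemma dg16_eq (p o : ℕ) : dg16 p o = (p >>> (16 * o)) &&& 65535 := rfl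

lemma dg16_le (p o : ℕ) : dg16 p o ≤ 65535 := Nat.and_le_right

lemma land_MK (p : ℕ) : ∀ n o : ℕ, (p >>> (16 * o)) &&& MK n = pkd p o n := by
  intro n
  induction n with
  | zero => intro o; exact Nat.and_zero _
  | succ n ih =>
    intro o
    rw [MK, land_split, pkd, ← Nat.shiftRight_add, dg16_eq]
    have h : 16 * o + 48 = 16 * (o + 3) := by ring
    rw [h, ih]

lemma rv_le {l : List ℕ} (hl : ∀ w ∈ l, w ≤ 16777215) : rv l * XB ≤ 2 ^ 25 * XB ^ l.length := by
  induction l with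
  | nil => simp [rv]
  | cons w l ih =>
    have h1 := ih fun w' hw' => hl w' (List.mem_cons_of_mem _ hw')
    have h2 := hl w List.mem_cons_self
    rw [rv, List.length_cons, add_mul]
    have h3 : XB ^ l.length * 2 ^ 25 ≤ XB ^ (l.length + 1) := by
      rw [pow_succ]
      exact Nat.mul_le_mul_left _ (by unfold XB; norm_num)
    calc w * XB ^ l.length * XB + rv l * XB
        ≤ 16777215 * XB ^ l.length * XB + 2 ^ 25 * XB ^ l.length := by gcongr
      _ ≤ 16777215 * XB ^ (l.length + 1) + XB ^ (l.length + 1) := by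
          have h4 : 16777215 * XB ^ l.length * XB = 16777215 * XB ^ (l.length + 1) := by
            rw [pow_succ]; ring
          rw [h4]
          exact Nat.add_le_add_left ((Nat.mul_comm _ _).trans_le h3) _
      _ ≤ _ := by
          have : 0 ≤ XB ^ (l.length + 1) := Nat.zero_le _
          omega

lemma dot_aux {p : ℕ} {l : List ℕ} (hl : ∀ w ∈ l, w ≤ 16777215) : ∀ o : ℕ, ∃ L H : ℕ,
    pkd p o l.length * rv l * XB = L + XB ^ l.length * (dotS p o l + XB * H) ∧
      L * XB ≤ l.length * 2 ^ 41 * XB ^ l.length := by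
  induction l with
  | nil => intro o; exact ⟨0, 0, by simp [pkd, rv, dotS], by simp⟩
  | cons w l ih =>
    intro o
    have hl' : ∀ w' ∈ l, w' ≤ 16777215 := fun w' hw' => hl w' (List.mem_cons_of_mem _ hw')
    obtain ⟨L, H, h1, h2⟩ := ih hl' (o+3)
    have h3 := rv_le hl'
    refine ⟨dg16 p o * rv l * XB + XB * L, pkd p (o+3) l.length * w + H, ?_, ?_⟩
    · rw [List.length_cons, pkd, rv, dotS]
      have e : (dg16 p o + XB * pkd p (o+3) l.length) * (w * XB ^ l.length + rv l) * XB =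
          dg16 p o * w * XB ^ (l.length + 1) + dg16 p o * rv l * XB +
            pkd p (o+3) l.length * w * XB ^ (l.length + 2) +
              XB * (pkd p (o+3) l.length * rv l * XB) := by ring
      rw [e, h1]
      ring
    · rw [List.length_cons]
      have h4 : dg16 p o * (rv l * XB) ≤ 2 ^ 16 * (2 ^ 25 * XB ^ l.length) :=
        Nat.mul_le_mul ((dg16_le p o).trans (by norm_num)) h3
      calc (dg16 p o * rv l * XB + XB * L) * XB
          = dg16 p o * (rv l * XB) * XB + (L * XB) * XB := by ring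
        _ ≤ 2 ^ 16 * (2 ^ 25 * XB ^ l.length) * XB +
            (l.length * 2 ^ 41 * XB ^ l.length) * XB := by gcongr
        _ = (l.length + 1) * 2 ^ 41 * XB ^ (l.length + 1) := by ring

lemma dotS_le {p : ℕ} {l : List ℕ} (hl : ∀ w ∈ l, w ≤ 16777215) : ∀ o : ℕ,
    dotS p o l ≤ l.length * 2 ^ 40 := by
  induction l with
  | nil => intro o; simp [dotS]
  | cons w l ih =>
    intro o
    have h1 := ih (fun w' hw' => hl w' (List.mem_cons_of_mem _ hw')) (o+3)
    have h2 : w * dg16 p o ≤ 16777215 * 65535 := Nat.mul_le_mul (hl w List.mem_cons_self) (dg16_le p o)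
    rw [dotS, List.length_cons]
    omega

/-- the weighted sum by one multiplication, `m` is the mask and `s = 48 n` -/
def dotF (m s r R p : ℕ) : ℕ :=
  Nat.land (Nat.shiftRight (Nat.mul (Nat.land (Nat.shiftRight p r) m) R) s) 0xffffffffffff

theorem dotF_eq {l : List ℕ} (hl : ∀ w ∈ l, w ≤ 16777215) (hn : l.length < 2 ^ 7) (r p : ℕ) :
    dotF (MK l.length) (48 * l.length) (16 * r) (rv l * XB) p = dotS p r l := by
  obtain ⟨L, H, h1, h2⟩ := dot_aux (p := p) hl r
  have h3 := dotS_le (p := p) hl r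
  have hX : 0 < XB ^ l.length := Nat.pow_pos (by unfold XB; norm_num)
  have h4 : L < XB ^ l.length := by
    by_contra h
    push Not at h
    have h5 : XB ^ l.length * XB ≤ L * XB := Nat.mul_le_mul_right _ h
    have h6 : l.length * 2 ^ 41 < XB := by unfold XB; omega
    have h7 : l.length * 2 ^ 41 * XB ^ l.length < XB * XB ^ l.length :=
      Nat.mul_lt_mul_of_pos_right h6 hX
    have h8 : XB ^ l.length * XB = XB * XB ^ l.length := Nat.mul_comm _ _
    omega
  have h5 : dotF (MK l.length) (48 * l.length) (16 * r) (rv l * XB) p =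
      (((p >>> (16 * r)) &&& MK l.length) * (rv l * XB)) >>> (48 * l.length) &&& (2 ^ 48 - 1) := rfl
  rw [h5, land_MK, ← mul_assoc, h1, Nat.shiftRight_eq_div_pow, Nat.and_two_pow_sub_one_eq_mod]
  have h6 : (2 : ℕ) ^ (48 * l.length) = XB ^ l.length := by unfold XB; rw [← pow_mul]
  rw [h6, Nat.add_mul_div_left _ _ hX, Nat.div_eq_of_lt h4, zero_add]
  have h7 : (2 : ℕ) ^ 48 = XB := rfl
  rw [h7, Nat.add_mul_mod_self_left]
  refine Nat.mod_eq_of_lt ?_
  unfold XB
  omega

/-- codes `orbit + 256 * weight` of the weights of the orbits `o, o + 3, …`, zero weights left out -/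
def cdL : ℕ → List ℕ → List ℕ
  | _, [] => []
  | o, w :: l => if w = 0 then cdL (o+3) l else (o + 256 * w) :: cdL (o+3) l

lemma wsumL_append (l l' : List ℕ) (p : ℕ) : wsumL (l ++ l') p = wsumL l p + wsumL l' p := by
  rw [wsumL_eq, wsumL_eq, wsumL_eq, List.map_append, List.sum_append]

lemma wsumL_cdL (p : ℕ) : ∀ (l : List ℕ) (o : ℕ), o + 3 * l.length ≤ 258 →
    wsumL (cdL o l) p = dotS p o l := by
  intro l
  induction l with
  | nil => intro o _; rfl
  | cons w l ih =>
    intro o ho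
    rw [List.length_cons] at ho
    rw [cdL, dotS]
    split_ifs with h
    · rw [ih _ (by omega), h, zero_mul, zero_add]
    · have h1 := ih (o+3) (by omega)
      rw [wsumL_eq] at h1 ⊢
      rw [List.map_cons, List.sum_cons, h1]
      have ho' : o < 2 ^ 8 := by omega
      have h2 : (o + 256 * w) >>> 8 = w := by
        rw [Nat.shiftRight_eq_div_pow, add_comm]
        omega
      have h3 : (o + 256 * w) &&& 255 = o := by
        have : (255 : ℕ) = 2 ^ 8 - 1 := rfl
        rw [this, Nat.and_two_pow_sub_one_eq_mod]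
        omega
      rw [h2, h3]

/-- codes of an objective from the weights of the orbits with the residues `0, 1, 2` modulo 3 -/
def cd3 (l0 l1 l2 : List ℕ) : List ℕ := cdL 0 l0 ++ (cdL 1 l1 ++ cdL 2 l2)

/-- `R` is the packed form of the `n` weights -/
def okW (n : ℕ) (l : List ℕ) (R : ℕ) : Prop :=
  l.length = n ∧ rv l * XB = R ∧ ∀ w ∈ l, w ≤ 16777215

instance (n : ℕ) (l : List ℕ) (R : ℕ) : Decidable (okW n l R) := by
  unfold okW; infer_instance

lemma okW.eq {n : ℕ} {l : List ℕ} {R : ℕ} (h : okW n l R) (hn : 3 * n ≤ 255) {r : ℕ} (hr : r < 3)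
    (p : ℕ) : wsumL (cdL r l) p = dotF (MK n) (48 * n) (16 * r) R p := by
  obtain ⟨h2, h3, h4⟩ := h
  rw [wsumL_cdL p _ _ (by omega), ← h3, ← h2]
  exact (dotF_eq h4 (by omega) _ _).symm

/-- sum of the three parts -/
def dot3 (m s R0 R1 R2 p : ℕ) : ℕ :=
  Nat.add (dotF m s 0 R0 p) (Nat.add (dotF m s 16 R1 p) (dotF m s 32 R2 p))

lemma wsumL_cd3 {n m s : ℕ} (hm : MK n = m ∧ 48 * n = s) {l0 l1 l2 : List ℕ} {R0 R1 R2 : ℕ}
    (h : okW n l0 R0 ∧ okW n l1 R1 ∧ okW n l2 R2) (hn : 3 * n ≤ 255) (p : ℕ) :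
    wsumL (cd3 l0 l1 l2) p = dot3 m s R0 R1 R2 p := by
  obtain ⟨h0, h1, h2⟩ := h
  have e0 := h0.eq hn (r := 0) (by norm_num) p
  have e1 := h1.eq hn (r := 1) (by norm_num) p
  have e2 := h2.eq hn (r := 2) (by norm_num) p
  rw [hm.1, hm.2] at e0 e1 e2
  rw [cd3, wsumL_append, wsumL_append]
  exact congrArg₂ (· + ·) e0 (congrArg₂ (· + ·) e1 e2)

/-- fast check of an objective -/
def objF (M : ℕ → ℕ → ℕ) (m s P0 P1 P2 N0 N1 N2 : ℕ) (e : Ent) : Bool :=
  Nat.ble (dot3 m s P0 P1 P2 e.pc)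
    (Nat.add (M (Nat.land e.pd 7) (Nat.shiftRight e.pd 3)) (dot3 m s N0 N1 N2 e.pc))

/-- fast check of an objective without negative part -/
def objC (M : ℕ → ℕ → ℕ) (m s P0 P1 P2 : ℕ) (e : Ent) : Bool :=
  Nat.ble (dot3 m s P0 P1 P2 e.pc) (M (Nat.land e.pd 7) (Nat.shiftRight e.pd 3))

theorem LO.of_fast {M : ℕ → ℕ → ℕ} {n m s : ℕ} {p0 p1 p2 n0 n1 n2 : List ℕ}
    {P0 P1 P2 N0 N1 N2 : ℕ} {D : List Ent} (hm : MK n = m ∧ 48 * n = s)
    (hP : okW n p0 P0 ∧ okW n p1 P1 ∧ okW n p2 P2)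
    (hN : okW n n0 N0 ∧ okW n n1 N1 ∧ okW n n2 N2) (hn : 3 * n ≤ 255)
    (h : D.all (objF M m s P0 P1 P2 N0 N1 N2) = true) :
    LO M (cd3 p0 p1 p2) (cd3 n0 n1 n2) D := by
  rw [List.all_eq_true] at h
  intro e he
  have h1 := h e he
  unfold objP
  rw [wsumL_cd3 hm hP hn, wsumL_cd3 hm hN hn]
  exact h1

theorem LO.of_fastC {M : ℕ → ℕ → ℕ} {n m s : ℕ} {p0 p1 p2 : List ℕ} {P0 P1 P2 : ℕ} {D : List Ent}
    (hm : MK n = m ∧ 48 * n = s)
    (hP : okW n p0 P0 ∧ okW n p1 P1 ∧ okW n p2 P2) (hn : 3 * n ≤ 255)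
    (h : D.all (objC M m s P0 P1 P2) = true) : LO M (cd3 p0 p1 p2) [] D := by
  rw [List.all_eq_true] at h
  intro e he
  have h1 := h e he
  unfold objP
  rw [wsumL_cd3 hm hP hn]
  exact h1

end Helper67.Cube18
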