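import Pool.Agent.Helper67.Cube6.Assemble

/-!
# A faster form of the counting check

Raw natural number operations; the coefficients of a functional are evaluated before they are
used, so that the kernel shares the multiples and the partial sums between functionals.
-/

set_option autoImplicit false

namespace Helper67.Cube6

open Helper67.Cube Helper51.Cube6
open Pool.Agent.Helper63.Cube6 (fc fc_eq)

/-- digit `j` of the functional code `m` -/
def dR (m j : ℕ) : ℕ := Nat.land (Nat.shiftRight m (Nat.mul 5 j)) 31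

lemma dR_eq (m j : ℕ) : dR m j = (m >>> (5 * j)) % 32 :=
  Nat.and_two_pow_sub_one_eq_mod (m >>> (5 * j)) 5

/-- add the multiple `d - 16` of `X` -/
def stF (d X acc : ℕ) : ℕ :=
  cond (Nat.beq d 16) acc (cond (Nat.ble 16 d)
    (cond (Nat.beq d 17) (Nat.add acc X) (Nat.add acc (Nat.mul (Nat.sub d 16) X)))
    (cond (Nat.beq d 15) (Nat.sub acc X) (Nat.sub acc (Nat.mul (Nat.sub 16 d) X))))

lemma stF_eq {m j X acc : ℕ} (h : cb m j * X ≤ acc) :
    stF (dR m j) X acc + cb m j * X = acc + ca m j * X := by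
  have e1 : ca m j = dR m j - 16 := by rw [dR_eq]; rfl
  have e2 : cb m j = 16 - dR m j := by rw [dR_eq]; rfl
  rw [e2] at h
  rw [e1, e2]
  set d := dR m j
  unfold stF
  cases h1 : Nat.beq d 16
  · rw [cond_false]
    have hne : d ≠ 16 := Nat.ne_of_beq_eq_false h1
    cases h2 : Nat.ble 16 d
    · have hlt : d < 16 := by
        by_contra hcon
        rw [Nat.ble_eq.mpr (by omega)] at h2
        exact absurd h2 (by simp)
      rw [cond_false]
      have e3 : d - 16 = 0 := by omega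
      rw [e3, Nat.zero_mul, Nat.add_zero]
      cases h3 : Nat.beq d 15
      · rw [cond_false]
        exact Nat.sub_add_cancel h
      · rw [cond_true]
        have h4 : d = 15 := Nat.eq_of_beq_eq_true h3
        rw [h4] at h ⊢
        have e5 : (16 - 15) * X = X := by norm_num
        rw [e5] at h ⊢
        exact Nat.sub_add_cancel h
    · have hle : 16 ≤ d := Nat.le_of_ble_eq_true h2
      rw [cond_true]
      have e3 : 16 - d = 0 := by omega
      rw [e3, Nat.zero_mul, Nat.add_zero]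
      cases h3 : Nat.beq d 17
      · rfl
      · have h4 : d = 17 := Nat.eq_of_beq_eq_true h3
        rw [cond_true, h4]
        have e5 : (17 - 16) * X = X := by norm_num
        rw [e5]; rfl
  · rw [cond_true]
    have h2 : d = 16 := Nat.eq_of_beq_eq_true h1
    rw [h2]

/-- the constant part -/
def baF (Q e d one : ℕ) : ℕ :=
  cond (Nat.ble 16 d)
    (Nat.mul (Nat.add (Nat.sub 32768 e) (Nat.mul (Nat.sub d 16) Q)) one)
    (Nat.mul (Nat.sub (Nat.sub 32768 e) (Nat.mul (Nat.sub 16 d) Q)) one)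

lemma baF_eq (Q e m one : ℕ) :
    baF Q e (dR m 0) one = (2 ^ 15 - e + ca m 0 * Q - cb m 0 * Q) * one := by
  have e1 : ca m 0 = dR m 0 - 16 := by rw [dR_eq]; rfl
  have e2 : cb m 0 = 16 - dR m 0 := by rw [dR_eq]; rfl
  rw [e1, e2]
  set d := dR m 0
  unfold baF
  have h15 : (2 : ℕ) ^ 15 = 32768 := by norm_num
  rw [h15]
  cases h2 : Nat.ble 16 d
  · have hlt : d < 16 := by
      by_contra hcon
      rw [Nat.ble_eq.mpr (by omega)] at h2
      exact absurd h2 (by simp)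
    have e3 : d - 16 = 0 := by omega
    rw [cond_false, e3, Nat.zero_mul, Nat.add_zero]
    rfl
  · have hle : 16 ≤ d := Nat.le_of_ble_eq_true h2
    have e3 : 16 - d = 0 := by omega
    rw [cond_true, e3, Nat.zero_mul, Nat.sub_zero]
    rfl

/-- packed values of the functional with digits `d0, ..., d6` -/
def vK (Q e : ℕ) (X : ℕ → ℕ) (one d0 d1 d2 d3 d4 d5 d6 : ℕ) : ℕ :=
  stF d1 (X 0) (stF d2 (X 1) (stF d3 (X 2) (stF d4 (X 3) (stF d5 (X 4) (stF d6 (X 5)
    (baF Q e d0 one))))))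

/-- packed values of the functional `m` -/
def vF (Q e m : ℕ) (X : ℕ → ℕ) (one : ℕ) : ℕ :=
  fc (dR m 0) fun d0 => fc (dR m 1) fun d1 => fc (dR m 2) fun d2 => fc (dR m 3) fun d3 =>
    fc (dR m 4) fun d4 => fc (dR m 5) fun d5 => fc (dR m 6) fun d6 =>
      vK Q e X one d0 d1 d2 d3 d4 d5 d6

lemma vF_eq {Q e m : ℕ} {X : ℕ → ℕ} {one : ℕ} (he : e ≤ 1) (hX : ∀ j < 6, X j ≤ Q * one)
    (hs : sumN 7 (cb m) * Q < 2 ^ 15) : vF Q e m X one = vN Q e m X one := by
  unfold vF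
  rw [fc_eq, fc_eq, fc_eq, fc_eq, fc_eq, fc_eq, fc_eq]
  unfold vK vN
  rw [subA_eq, addA_eq, baF_eq]
  simp only [sumN, Nat.zero_add] at hs
  simp only [Fin.sum_univ_six, Fin.val_zero, Fin.val_one, Fin.val_two]
  have f3 : ((3 : Fin 6) : ℕ) = 3 := rfl
  have f4 : ((4 : Fin 6) : ℕ) = 4 := rfl
  have f5 : ((5 : Fin 6) : ℕ) = 5 := rfl
  rw [f3, f4, f5]
  simp only [Nat.zero_add, Nat.reduceAdd]
  set B := (2 ^ 15 - e + ca m 0 * Q - cb m 0 * Q) * one with hB
  have hbd : cb m 1 * X 0 + cb m 2 * X 1 + cb m 3 * X 2 + cb m 4 * X 3 + cb m 5 * X 4 +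
      cb m 6 * X 5 ≤ B := by
    have h0 := Nat.mul_le_mul_left (cb m 1) (hX 0 (by norm_num))
    have h1 := Nat.mul_le_mul_left (cb m 2) (hX 1 (by norm_num))
    have h2 := Nat.mul_le_mul_left (cb m 3) (hX 2 (by norm_num))
    have h3 := Nat.mul_le_mul_left (cb m 4) (hX 3 (by norm_num))
    have h4 := Nat.mul_le_mul_left (cb m 5) (hX 4 (by norm_num))
    have h5 := Nat.mul_le_mul_left (cb m 6) (hX 5 (by norm_num))
    have h6 : (cb m 1 + cb m 2 + cb m 3 + cb m 4 + cb m 5 + cb m 6) * Q ≤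
        2 ^ 15 - e + ca m 0 * Q - cb m 0 * Q := by
      have h7 : (cb m 0 + cb m 1 + cb m 2 + cb m 3 + cb m 4 + cb m 5 + cb m 6) * Q < 2 ^ 15 := hs
      have h8 : (cb m 0 + cb m 1 + cb m 2 + cb m 3 + cb m 4 + cb m 5 + cb m 6) * Q =
          cb m 0 * Q + (cb m 1 + cb m 2 + cb m 3 + cb m 4 + cb m 5 + cb m 6) * Q := by ring
      omega
    have h9 := Nat.mul_le_mul_right one h6
    rw [← hB] at h9
    have h10 : (cb m 1 + cb m 2 + cb m 3 + cb m 4 + cb m 5 + cb m 6) * Q * one =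
        cb m 1 * (Q * one) + cb m 2 * (Q * one) + cb m 3 * (Q * one) + cb m 4 * (Q * one) +
          cb m 5 * (Q * one) + cb m 6 * (Q * one) := by ring
    omega
  have s6 := stF_eq (m := m) (j := 6) (X := X 5) (acc := B) (by omega)
  set a6 := stF (dR m 6) (X 5) B
  have s5 := stF_eq (m := m) (j := 5) (X := X 4) (acc := a6) (by omega)
  set a5 := stF (dR m 5) (X 4) a6
  have s4 := stF_eq (m := m) (j := 4) (X := X 3) (acc := a5) (by omega)
  set a4 := stF (dR m 4) (X 3) a5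
  have s3 := stF_eq (m := m) (j := 3) (X := X 2) (acc := a4) (by omega)
  set a3 := stF (dR m 3) (X 2) a4
  have s2 := stF_eq (m := m) (j := 2) (X := X 1) (acc := a3) (by omega)
  set a2 := stF (dR m 2) (X 1) a3
  have s1 := stF_eq (m := m) (j := 1) (X := X 0) (acc := a2) (by omega)
  omega

/-- half space masks of `n` orbits, one bit position each -/
def cfF (Q : ℕ) (ev : ℕ → ℕ) (Xv : ℕ → ℕ → ℕ) (one m n : ℕ) : ℕ :=
  Nat.rec (motive := fun _ => ℕ) 0 (fun r ih => Nat.lor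
    (Nat.land (Nat.shiftRight (vF Q (ev r) m (Xv r) one) (Nat.sub 15 r)) (Nat.shiftLeft one r))
    ih) n

lemma cfF_eq {Q : ℕ} {ev : ℕ → ℕ} {Xv : ℕ → ℕ → ℕ} {one m : ℕ}
    (hs : sumN 7 (cb m) * Q < 2 ^ 15) : ∀ n, (∀ r < n, ev r ≤ 1) →
    (∀ r < n, ∀ j < 6, Xv r j ≤ Q * one) → cfF Q ev Xv one m n = cfN Q ev Xv one m n := by
  intro n
  induction n with
  | zero => intro _ _; rfl
  | succ n ih =>
    intro he hX
    have h1 : cfF Q ev Xv one m (n+1) = ((vF Q (ev n) m (Xv n) one >>> (15 - n)) &&&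
      (one <<< n)) ||| cfF Q ev Xv one m n := rfl
    rw [h1, cfN, ih (fun r hr => he r (by omega)) (fun r hr => hX r (by omega)),
      vF_eq (he n (by omega)) (hX n (by omega)) hs]

/-- conjunction of `F m` over a nonempty list -/
def andF (F : ℕ → ℕ) (m : ℕ) (l : List ℕ) : ℕ :=
  List.rec (motive := fun _ => ℕ → ℕ) (fun m => F m) (fun m' _ ih m => Nat.land (F m) (ih m')) l m

lemma andF_eq {F F' : ℕ → ℕ} (l : List ℕ) : ∀ m, (∀ m' ∈ m :: l, F m' = F' m') →
    andF F m l = andL F' m l := by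
  induction l with
  | nil => intro m h; exact h m (by simp)
  | cons a l ih =>
    intro m h
    have h1 : andF F m (a :: l) = F m &&& andF F a l := rfl
    rw [h1, andL, h m (by simp), ih a (fun m' hm' => h m' (List.mem_cons_of_mem _ hm'))]

/-- raw form of `cR` -/
def cRF (A one r : ℕ) : ℕ :=
  Nat.mod (Nat.mul (Nat.mod (Nat.land A (Nat.shiftLeft one r)) 65535)
    (Nat.pow 2 (Nat.sub 16 r))) 65535

lemma cRF_eq (A one r : ℕ) : cRF A one r = cR A one r := rfl

/-- weighted sum of the counts of the first `n` orbits -/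
def sumF (w : ℕ → ℕ) (A one : ℕ) (n : ℕ) : ℕ :=
  Nat.rec (motive := fun _ => ℕ) 0 (fun r ih =>
    cond (Nat.beq (w r) 0) ih (Nat.add ih (Nat.mul (w r) (cRF A one r)))) n

lemma sumF_eq (w : ℕ → ℕ) (A one n : ℕ) : sumF w A one n = sumW w A one n := by
  induction n with
  | zero => rfl
  | succ n ih =>
    have h1 : sumF w A one (n+1) = cond (Nat.beq (w n) 0) (sumF w A one n)
      (Nat.add (sumF w A one n) (Nat.mul (w n) (cRF A one n))) := rfl
    have h2 : sumW w A one (n+1) = cond (Nat.beq (w n) 0) (sumW w A one n)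
      (Nat.add (sumW w A one n) (Nat.mul (w n) (cR A one n))) := rfl
    rw [h1, h2, ih, cRF_eq]

/-- fast form of `chkG` -/
def chkF (Q g : ℕ) (ev : ℕ → ℕ) (Xv : ℕ → ℕ → ℕ) (one : ℕ) (wc wp wn : ℕ → ℕ) (OFF γ : ℕ)
    (e : Ent) : Bool :=
  List.rec (motive := fun _ => Bool) false (fun m l _ =>
    cond (Nat.ble (sumF wc (andF (fun m => cfF Q ev Xv one m g) m l) one g) (dg32 e.pc γ))
      (Nat.ble (Nat.add (sumF wp (andF (fun m => cfF Q ev Xv one m g) m l) one g) OFF)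
        (Nat.add (dg32 e.pd γ) (sumF wn (andF (fun m => cfF Q ev Xv one m g) m l) one g)))
      false) e.f

lemma chkG_of_chkF {Q g : ℕ} {ev : ℕ → ℕ} {Xv : ℕ → ℕ → ℕ} {one : ℕ} {wc wp wn : ℕ → ℕ}
    {OFF γ : ℕ} {e : Ent} (he : ∀ r < g, ev r ≤ 1) (hX : ∀ r < g, ∀ j < 6, Xv r j ≤ Q * one)
    (hs : ∀ m ∈ e.f, smallM Q m = true) (h : chkF Q g ev Xv one wc wp wn OFF γ e = true) :
    chkG Q g ev Xv one wc wp wn OFF γ e = true := by
  obtain ⟨c, f, pc, pd⟩ := e
  cases f with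
  | nil => exact absurd h (by simp [chkF])
  | cons m l =>
    have hA : andF (fun m => cfF Q ev Xv one m g) m l = andL (fun m => cfN Q ev Xv one m g) m l := by
      refine andF_eq l m fun m' hm' => ?_
      have h1 := hs m' hm'
      rw [smallM, Bool.and_eq_true] at h1
      exact cfF_eq (Nat.blt_eq.mp h1.2) g he hX
    have h1 : cond (Nat.ble (sumF wc (andF (fun m => cfF Q ev Xv one m g) m l) one g) (dg32 pc γ))
      (Nat.ble (Nat.add (sumF wp (andF (fun m => cfF Q ev Xv one m g) m l) one g) OFF)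
        (Nat.add (dg32 pd γ) (sumF wn (andF (fun m => cfF Q ev Xv one m g) m l) one g)))
      false = true := h
    rw [hA, sumF_eq, sumF_eq, sumF_eq] at h1
    have h2 : chkG Q g ev Xv one wc wp wn OFF γ ⟨c, m :: l, pc, pd⟩ =
      (Nat.ble (sumW wc (andL (fun m => cfN Q ev Xv one m g) m l) one g) (dg32 pc γ) &&
      Nat.ble (Nat.add (sumW wp (andL (fun m => cfN Q ev Xv one m g) m l) one g) OFF)
        (Nat.add (dg32 pd γ) (sumW wn (andL (fun m => cfN Q ev Xv one m g) m l) one g))) := rfl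
    rw [h2]
    cases h3 : Nat.ble (sumW wc (andL (fun m => cfN Q ev Xv one m g) m l) one g) (dg32 pc γ)
    · rw [h3, cond_false] at h1; exact absurd h1 (by simp)
    · rw [h3, cond_true] at h1
      rw [Bool.true_and]
      exact h1

lemma pk_le_mul {α : Type} {b Q : ℕ} {f : α → ℕ} {L : List α} (h : ∀ y ∈ L, f y ≤ Q) :
    pk b f L ≤ Q * pk b (fun _ => 1) L := by
  induction L with
  | nil => simp [pk]
  | cons y L ih =>
    rw [pk, pk]
    have h1 := h y (by simp)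
    have h2 := Nat.mul_le_mul_left (2 ^ b) (ih fun z hz => h z (by simp [hz]))
    calc f y + 2 ^ b * pk b f L ≤ Q + 2 ^ b * (Q * pk b (fun _ => 1) L) := Nat.add_le_add h1 h2
      _ = Q * (1 + 2 ^ b * pk b (fun _ => 1) L) := by ring

lemma PackedOrbit.le_mul {Q : ℕ} {x : Fin 6 → ℕ} {X : ℕ → ℕ} {one : ℕ}
    (h : PackedOrbit 6 Q 16 x X one) : ∀ j < 6, X j ≤ Q * one := by
  intro j hj
  have h1 := h.coord ⟨j, hj⟩
  have h2 : X j = pk 16 (fun y => y ⟨j, hj⟩) (orbL 6 Q x) := h1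
  rw [h2, h.ones]
  exact pk_le_mul fun y hy => orbL_le h.le y hy _

/-- the certificate with the fast check -/
structure CertF (Q g G OFF BC BD : ℕ) (D : List Ent) (x : ℕ → ℕ → Fin 6 → ℕ)
    (X : ℕ → ℕ → ℕ → ℕ) (one : ℕ) (ev wc wp wn : ℕ → ℕ → ℕ) : Prop where
  Qpos : 0 < Q
  gle : g ≤ 16
  typ : ∀ γ < G, ∀ r < g, (ev γ r = 0 ∧ wn γ r = 0) ∨ (ev γ r = 1 ∧ wc γ r = 0 ∧ wp γ r = 0)
  orb : ∀ γ < G, ∀ r < g, PackedOrbit 6 Q 16 (x γ r) (X γ r) one
  fn : ∀ e ∈ D, funE Q e = true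
  chk : ∀ γ < G, ∀ e ∈ D, chkF Q g (ev γ) (X γ) one (wc γ) (wp γ) (wn γ) OFF γ e = true
  tot : ∀ e ∈ D, totE G OFF BC BD e = true

theorem CertF.cert {Q g G OFF BC BD : ℕ} {D : List Ent} {x : ℕ → ℕ → Fin 6 → ℕ}
    {X : ℕ → ℕ → ℕ → ℕ} {one : ℕ} {ev wc wp wn : ℕ → ℕ → ℕ}
    (h : CertF Q g G OFF BC BD D x X one ev wc wp wn) :
    Cert Q g G OFF BC BD D x X one ev wc wp wn :=
  ⟨h.Qpos, h.gle, h.typ, h.orb, h.fn, fun γ hγ e he => chkG_of_chkF (fun r hr => by
      rcases h.typ γ hγ r hr with h5 | h5 <;> omega)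
    (fun r hr => PackedOrbit.le_mul (h.orb γ hγ r hr)) (funC_spec (h.fn e he)).2.2
    (h.chk γ hγ e he), h.tot⟩

end Helper67.Cube6
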