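import Pool.Agent.Helper67.Cube6.Pts18
import Pool.Agent.Helper63.Cube6.Lev7

/-!
# Lower bounds for the 6-cube from the certificate
-/

set_option autoImplicit false

namespace Helper67.Cube18

open Helper67.Cube
open Helper67.Cube6 (Ent LevL)
open Pool.Agent.Helper63.Cube6 (V7 vx)

/-- covers of the 6-cube by vertex simplices -/
theorem cover301 {D : List Ent} {S : ℕ}
    (hok : OK 7700 9 6 OFF BC BD X18 one6 ev18 wc18 wp18 wn18 D) (hpart : Part D S)
    (hS : Nat.beq S (fullM 9892) = true) {N : ℕ} {W : Fin N → Fin 7 → Fin 6 → ℝ}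
    (hW : IsCover W) (hv : IsVertexFamily W) : 301 ≤ N := by
  have hL : LevL D := levL_of_part Pool.Agent.Helper63.Cube6.lev7 hpart hS
  have hc := (hok.certF (by norm_num) (by norm_num) typ18 orb18).cert
  have h := hc.cover hL hW hv
  rw [sumC18_eq] at h
  have hB : BC = 11797200 := rfl
  rw [hB] at h
  omega

/-- dissections of the 6-cube by vertex simplices -/
theorem dissection308 {D : List Ent} {S : ℕ}
    (hok : OK 7700 9 6 OFF BC BD X18 one6 ev18 wc18 wp18 wn18 D) (hpart : Part D S)
    (hS : Nat.beq S (fullM 9892) = true) {N : ℕ} {W : Fin N → Fin 7 → Fin 6 → ℝ}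
    (hW : IsDissection W) (hv : IsVertexFamily W) : 308 ≤ N := by
  have hL : LevL D := levL_of_part Pool.Agent.Helper63.Cube6.lev7 hpart hS
  have hc := (hok.certF (by norm_num) (by norm_num) typ18 orb18).cert
  have h := hc.dissection hL hW hv
  rw [sumP18_eq] at h
  have hB : BD = 11797164 := rfl
  rw [hB] at h
  omega

end Helper67.Cube18
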