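import Pool.Agent.Helper67.Cube7.U00
import Pool.Agent.Helper67.Cube7.U01
import Pool.Agent.Helper67.Cube7.U02
import Pool.Agent.Helper67.Cube7.U03
import Pool.Agent.Helper67.Cube6.ObjU
import Pool.Agent.Helper67.Cube6.Neg

/-!
# The objectives for the dimensions 7, ..., 12, part 0
-/

set_option autoImplicit false

namespace Helper67.Cube18.ObjU

open Helper67.Cube18

theorem pd_00 : ∀ e ∈ Helper67.Cube7.U00.D, e.pd ≤ 79 := pd_of_all (by decide +kernel)

theorem loC7_00 : LO MC7 lpC7 [] Helper67.Cube7.U00.D :=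
  LO.of_fastC hmU okPC7 (by norm_num) (by decide +kernel)

theorem loC8_00 : LO MC8 lpC8 [] Helper67.Cube7.U00.D :=
  LO.of_fastC hmU okPC8 (by norm_num) (by decide +kernel)

theorem loC9_00 : LO MC9 lpC9 [] Helper67.Cube7.U00.D :=
  LO.of_fastC hmU okPC9 (by norm_num) (by decide +kernel)

theorem loC10_00 : LO MC10 lpC10 [] Helper67.Cube7.U00.D :=
  LO.of_fastC hmU okPC10 (by norm_num) (by decide +kernel)

theorem loC11_00 : LO MC11 lpC11 [] Helper67.Cube7.U00.D :=
  LO.of_fastC hmU okPC11 (by norm_num) (by decide +kernel)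

theorem loC12_00 : LO MC12 lpC12 [] Helper67.Cube7.U00.D :=
  LO.of_fastC hmU okPC12 (by norm_num) (by decide +kernel)

theorem loD7_00 : LZ MD7 offU lpD7 lnD7 Helper67.Cube7.U00.D :=
  LZ.of_fast hmU okPD7 okND7 (by norm_num) (by decide +kernel)

theorem loD8_00 : LZ MD8 offU lpD8 lnD8 Helper67.Cube7.U00.D :=
  LZ.of_fast hmU okPD8 okND8 (by norm_num) (by decide +kernel)

theorem loD9_00 : LZ MD9 offU lpD9 lnD9 Helper67.Cube7.U00.D :=
  LZ.of_fast hmU okPD9 okND9 (by norm_num) (by decide +kernel)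

theorem loD10_00 : LZ MD10 offU lpD10 lnD10 Helper67.Cube7.U00.D :=
  LZ.of_fast hmU okPD10 okND10 (by norm_num) (by decide +kernel)

theorem loD11_00 : LZ MD11 offU lpD11 lnD11 Helper67.Cube7.U00.D :=
  LZ.of_fast hmU okPD11 okND11 (by norm_num) (by decide +kernel)

theorem loD12_00 : LZ MD12 offU lpD12 lnD12 Helper67.Cube7.U00.D :=
  LZ.of_fast hmU okPD12 okND12 (by norm_num) (by decide +kernel)

theorem pd_01 : ∀ e ∈ Helper67.Cube7.U01.D, e.pd ≤ 79 := pd_of_all (by decide +kernel)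

theorem loC7_01 : LO MC7 lpC7 [] Helper67.Cube7.U01.D :=
  LO.of_fastC hmU okPC7 (by norm_num) (by decide +kernel)

theorem loC8_01 : LO MC8 lpC8 [] Helper67.Cube7.U01.D :=
  LO.of_fastC hmU okPC8 (by norm_num) (by decide +kernel)

theorem loC9_01 : LO MC9 lpC9 [] Helper67.Cube7.U01.D :=
  LO.of_fastC hmU okPC9 (by norm_num) (by decide +kernel)

theorem loC10_01 : LO MC10 lpC10 [] Helper67.Cube7.U01.D :=
  LO.of_fastC hmU okPC10 (by norm_num) (by decide +kernel)

theorem loC11_01 : LO MC11 lpC11 [] Helper67.Cube7.U01.D :=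
  LO.of_fastC hmU okPC11 (by norm_num) (by decide +kernel)

theorem loC12_01 : LO MC12 lpC12 [] Helper67.Cube7.U01.D :=
  LO.of_fastC hmU okPC12 (by norm_num) (by decide +kernel)

theorem loD7_01 : LZ MD7 offU lpD7 lnD7 Helper67.Cube7.U01.D :=
  LZ.of_fast hmU okPD7 okND7 (by norm_num) (by decide +kernel)

theorem loD8_01 : LZ MD8 offU lpD8 lnD8 Helper67.Cube7.U01.D :=
  LZ.of_fast hmU okPD8 okND8 (by norm_num) (by decide +kernel)

theorem loD9_01 : LZ MD9 offU lpD9 lnD9 Helper67.Cube7.U01.D :=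
  LZ.of_fast hmU okPD9 okND9 (by norm_num) (by decide +kernel)

theorem loD10_01 : LZ MD10 offU lpD10 lnD10 Helper67.Cube7.U01.D :=
  LZ.of_fast hmU okPD10 okND10 (by norm_num) (by decide +kernel)

theorem loD11_01 : LZ MD11 offU lpD11 lnD11 Helper67.Cube7.U01.D :=
  LZ.of_fast hmU okPD11 okND11 (by norm_num) (by decide +kernel)

theorem loD12_01 : LZ MD12 offU lpD12 lnD12 Helper67.Cube7.U01.D :=
  LZ.of_fast hmU okPD12 okND12 (by norm_num) (by decide +kernel)

theorem pd_02 : ∀ e ∈ Helper67.Cube7.U02.D, e.pd ≤ 79 := pd_of_all (by decide +kernel)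

theorem loC7_02 : LO MC7 lpC7 [] Helper67.Cube7.U02.D :=
  LO.of_fastC hmU okPC7 (by norm_num) (by decide +kernel)

theorem loC8_02 : LO MC8 lpC8 [] Helper67.Cube7.U02.D :=
  LO.of_fastC hmU okPC8 (by norm_num) (by decide +kernel)

theorem loC9_02 : LO MC9 lpC9 [] Helper67.Cube7.U02.D :=
  LO.of_fastC hmU okPC9 (by norm_num) (by decide +kernel)

theorem loC10_02 : LO MC10 lpC10 [] Helper67.Cube7.U02.D :=
  LO.of_fastC hmU okPC10 (by norm_num) (by decide +kernel)

theorem loC11_02 : LO MC11 lpC11 [] Helper67.Cube7.U02.D :=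
  LO.of_fastC hmU okPC11 (by norm_num) (by decide +kernel)

theorem loC12_02 : LO MC12 lpC12 [] Helper67.Cube7.U02.D :=
  LO.of_fastC hmU okPC12 (by norm_num) (by decide +kernel)

theorem loD7_02 : LZ MD7 offU lpD7 lnD7 Helper67.Cube7.U02.D :=
  LZ.of_fast hmU okPD7 okND7 (by norm_num) (by decide +kernel)

theorem loD8_02 : LZ MD8 offU lpD8 lnD8 Helper67.Cube7.U02.D :=
  LZ.of_fast hmU okPD8 okND8 (by norm_num) (by decide +kernel)

theorem loD9_02 : LZ MD9 offU lpD9 lnD9 Helper67.Cube7.U02.D :=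
  LZ.of_fast hmU okPD9 okND9 (by norm_num) (by decide +kernel)

theorem loD10_02 : LZ MD10 offU lpD10 lnD10 Helper67.Cube7.U02.D :=
  LZ.of_fast hmU okPD10 okND10 (by norm_num) (by decide +kernel)

theorem loD11_02 : LZ MD11 offU lpD11 lnD11 Helper67.Cube7.U02.D :=
  LZ.of_fast hmU okPD11 okND11 (by norm_num) (by decide +kernel)

theorem loD12_02 : LZ MD12 offU lpD12 lnD12 Helper67.Cube7.U02.D :=
  LZ.of_fast hmU okPD12 okND12 (by norm_num) (by decide +kernel)

theorem pd_03 : ∀ e ∈ Helper67.Cube7.U03.D, e.pd ≤ 79 := pd_of_all (by decide +kernel)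

theorem loC7_03 : LO MC7 lpC7 [] Helper67.Cube7.U03.D :=
  LO.of_fastC hmU okPC7 (by norm_num) (by decide +kernel)

theorem loC8_03 : LO MC8 lpC8 [] Helper67.Cube7.U03.D :=
  LO.of_fastC hmU okPC8 (by norm_num) (by decide +kernel)

theorem loC9_03 : LO MC9 lpC9 [] Helper67.Cube7.U03.D :=
  LO.of_fastC hmU okPC9 (by norm_num) (by decide +kernel)

theorem loC10_03 : LO MC10 lpC10 [] Helper67.Cube7.U03.D :=
  LO.of_fastC hmU okPC10 (by norm_num) (by decide +kernel)

theorem loC11_03 : LO MC11 lpC11 [] Helper67.Cube7.U03.D :=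
  LO.of_fastC hmU okPC11 (by norm_num) (by decide +kernel)

theorem loC12_03 : LO MC12 lpC12 [] Helper67.Cube7.U03.D :=
  LO.of_fastC hmU okPC12 (by norm_num) (by decide +kernel)

theorem loD7_03 : LZ MD7 offU lpD7 lnD7 Helper67.Cube7.U03.D :=
  LZ.of_fast hmU okPD7 okND7 (by norm_num) (by decide +kernel)

theorem loD8_03 : LZ MD8 offU lpD8 lnD8 Helper67.Cube7.U03.D :=
  LZ.of_fast hmU okPD8 okND8 (by norm_num) (by decide +kernel)

theorem loD9_03 : LZ MD9 offU lpD9 lnD9 Helper67.Cube7.U03.D :=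
  LZ.of_fast hmU okPD9 okND9 (by norm_num) (by decide +kernel)

theorem loD10_03 : LZ MD10 offU lpD10 lnD10 Helper67.Cube7.U03.D :=
  LZ.of_fast hmU okPD10 okND10 (by norm_num) (by decide +kernel)

theorem loD11_03 : LZ MD11 offU lpD11 lnD11 Helper67.Cube7.U03.D :=
  LZ.of_fast hmU okPD11 okND11 (by norm_num) (by decide +kernel)

theorem loD12_03 : LZ MD12 offU lpD12 lnD12 Helper67.Cube7.U03.D :=
  LZ.of_fast hmU okPD12 okND12 (by norm_num) (by decide +kernel)

end Helper67.Cube18.ObjU
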