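import Pool.Agent.Helper67.Cube6.Chunk

/-!
# The 54 orbits of points of the certificate for the 6-cube

The points have coordinates with denominator 7700; the orbit number `9 γ + r` is the member `r`
of the group `γ`.
-/

set_option autoImplicit false

namespace Helper67.Cube18

open Helper67.Cube

/-- the points, 78 bits each -/
def PW18 : ℕ := 0x64a1aacd4469c34418417c8bca4449f10f822e677bb0c170c72033c8ab5dfceb66289878afc10f78431dcf9a70123c0985e12a395191f9cad642578430fd0cc82f31b17c9e12c69633a7ecedc55577d3a499dab63327935de0cb5b3cf190c6bc2fa4fea6052ac8f74741485d8ae31558a6bcf2a41f75fba457a26002d295d1deceee7752f24e8226a77c3560e565c324d873d9124440bb04881e601e784ab5cf481740a18081dd898a1ce067033411e78129294348732b90f35e10efc35b1684aa428a784aa94e4c6bf1b50d39df6ef4306942449c0054c6a5a92be3b115988bdd12e2536d97205061c061c30cd8528163ac8ba1deee16589a514cac10d780ac0897e4ac22707dd6fc62e246922c82a0ae6ee26a12f687542d02055748b73e70b4810406546c22ece5e59e2aa08bde02cf3440a150af40d13b196bc91a46b1fe0e0de12b505a61b40da03cf7823bd8a9248314187d9e04e962f21768b9c1be76bb7a53744241fd000de12bf7274125c484222784395989cb962bc138de12b595189ebcd2e416783acd8ed66471e48b35e12cd42050be03d01e577ea36485e1cb0ae0519e12f0718f0a444b61257849eb87723961b00319e10b4e3b90eb474e08c4750b482cc15909a0145e10d9f31a8d9443202473b9b386fa37519300e5deeb2232c068c1d6039784bc0d07e68b27380c5d8a90f2301168064003779bb94f8e6a824d8011dbcdd34ca10bc826001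

/-- the points counted with open simplices -/
def EV18 : ℕ := 0x180c80d3200000

/-- weights for covers, 16 bits each -/
def WC18 : ℕ := 0x45f029e048903e300f407390000000000010000000004d3073c0d1d0250065303fa144900000000000000000000000000000000000000000000020103b0021109a6033802e308510c0306320267042807f60d7a1b2d049d0e6011850a9e0b9d13482323

/-- positive weights for dissections, 16 bits each -/
def WP18 : ℕ := 0x5da000000000f5a1979000005cb0b0b00000dad00000000165109cb000000003188208a000002fa08e914a00000000032d200001d8025d9000000001f2420180000031612c9067d25fa0000019f0d80000003ff04a511f0003d2a0b2b400d96053f0147000000002d100000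

/-- negative weights for dissections, 16 bits each -/
def WN18 : ℕ := 0x13511ce700000000000000000000000000000a5419b20000000022570000000000000000000000000000213a253400001e2b0000000026784c7e000000001681000000000000000000000000000000000000000000000000000000000000000000000000000000000000

/-- number of the orbit `r` of the group `γ` -/
def no18 (γ r : ℕ) : ℕ := Nat.add (Nat.mul 9 γ) r

/-- the packed point of the orbit `r` of the group `γ` -/
def W18 (γ r : ℕ) : ℕ :=
  Nat.land (Nat.shiftRight PW18 (Nat.mul 78 (no18 γ r))) 0x3fffffffffffffffffff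

/-- packed coordinates -/
def X18 (γ r : ℕ) : ℕ → ℕ := X6 7700 (W18 γ r)

/-- kind of the orbit -/
def ev18 (γ r : ℕ) : ℕ := Nat.land (Nat.shiftRight EV18 (no18 γ r)) 1

/-- weight for covers -/
def wc18 (γ r : ℕ) : ℕ := Nat.land (Nat.shiftRight WC18 (Nat.mul 16 (no18 γ r))) 65535

/-- positive weight for dissections -/
def wp18 (γ r : ℕ) : ℕ := Nat.land (Nat.shiftRight WP18 (Nat.mul 16 (no18 γ r))) 65535

/-- negative weight for dissections -/
def wn18 (γ r : ℕ) : ℕ := Nat.land (Nat.shiftRight WN18 (Nat.mul 16 (no18 γ r))) 65535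

/-- offset of the partial sums for dissections -/
def OFF : ℕ := 0x40000000

/-- bound of the weighted count for covers -/
def BC : ℕ := 11797200

/-- bound of the weighted count for dissections -/
def BD : ℕ := 11797164

theorem typ18_B : allB 6 (fun γ => allB 9 (fun r =>
    (Nat.beq (ev18 γ r) 0 && Nat.beq (wn18 γ r) 0) ||
      (Nat.beq (ev18 γ r) 1 && (Nat.beq (wc18 γ r) 0 && Nat.beq (wp18 γ r) 0)))) = true := by
  decide +kernel

theorem typ18 : ∀ γ < 6, ∀ r < 9, (ev18 γ r = 0 ∧ wn18 γ r = 0) ∨
    (ev18 γ r = 1 ∧ wc18 γ r = 0 ∧ wp18 γ r = 0) := by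
  intro γ hγ r hr
  have h := typ18_B
  rw [allB_iff] at h
  have h1 := h γ hγ
  rw [allB_iff] at h1
  have h2 := h1 r hr
  rw [Bool.or_eq_true, Bool.and_eq_true, Bool.and_eq_true, Bool.and_eq_true] at h2
  rcases h2 with h2 | h2
  · exact Or.inl ⟨Nat.eq_of_beq_eq_true h2.1, Nat.eq_of_beq_eq_true h2.2⟩
  · exact Or.inr ⟨Nat.eq_of_beq_eq_true h2.1, Nat.eq_of_beq_eq_true h2.2.1,
      Nat.eq_of_beq_eq_true h2.2.2⟩

theorem orb18_B : allB 6 (fun γ => allB 9 (fun r => leB 7700 (W18 γ r))) = true := by
  decide +kernel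

theorem orb18 : ∀ γ < 6, ∀ r < 9,
    PackedOrbit 6 7700 18 (xw (W18 γ r)) (X18 γ r) one6 := by
  intro γ hγ r hr
  have h := orb18_B
  rw [allB_iff] at h
  have h1 := h γ hγ
  rw [allB_iff] at h1
  exact packed6 (h1 r hr)

theorem sumC18 : Nat.beq (sumN 6 (fun γ => sumN 9 (fun r => wc18 γ r))) 76806 = true := by
  decide +kernel

theorem sumP18 : Nat.beq (sumN 6 (fun γ => sumN 9 (fun r => wp18 γ r)))
    (78688 + sumN 6 (fun γ => sumN 9 (fun r => wn18 γ r))) = true := by
  decide +kernel

theorem sumC18_eq : ∑ γ ∈ Finset.range 6, ∑ r ∈ Finset.range 9, wc18 γ r = 76806 := by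
  have h := Nat.eq_of_beq_eq_true sumC18
  rw [sumN_eq] at h
  rw [← h, Finset.sum_range]
  refine Finset.sum_congr rfl fun γ _ => ?_
  rw [sumN_eq, Finset.sum_range]

theorem sumP18_eq : ∑ γ ∈ Finset.range 6, ∑ r ∈ Finset.range 9, wp18 γ r =
    78688 + ∑ γ ∈ Finset.range 6, ∑ r ∈ Finset.range 9, wn18 γ r := by
  have h := Nat.eq_of_beq_eq_true sumP18
  rw [sumN_eq, sumN_eq] at h
  rw [Finset.sum_range, Finset.sum_range]
  calc _ = ∑ i : Fin 6, sumN 9 (fun r => wp18 i r) := by
        refine Finset.sum_congr rfl fun γ _ => ?_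
        rw [sumN_eq, Finset.sum_range]
    _ = _ := by
        rw [h]
        refine congrArg (fun s => 78688 + s) (Finset.sum_congr rfl fun γ _ => ?_)
        rw [sumN_eq, Finset.sum_range]

end Helper67.Cube18
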