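import Pool.Agent.Helper67.Cube6.Chunk

/-!
# The 126 orbits of points of the 6-cube for the dimensions 7, ..., 12

The points have coordinates with denominator 7700; the orbit number `9 γ + r` is the member `r`
of the group `γ`.
-/

set_option autoImplicit false

namespace Helper67.Cube18

open Helper67.Cube

/-- the points, 78 bits each -/
def PWU : ℕ := 0x784b0d50a482233016dde0c52d27893849ac0c277e318d39828914389fde0c9152d4931096446e784bc04c205291340989e12de26d9a71133091c784b0492548282bd8b4583c9f73c19a78c2c61476c37a13aa4051fe801de12db36d5a9cd330960781bb75d0667e3039815e12b934a69e6cf186aa783bac96907053811ba189cc122be11c889e44d784b911aaecd12439145e10ce854e21b4bda558780272c9a64521d10789e12de766d975ca9a54d781ad14f1c3b51d982bde12aca4641f54f285e27849e38ee252c23511a5e10ce060797c0bc8526784ae890847bc37496e9df0ec1732248d0fa87c784ba355109f6458a285e12d133801c00960488784a23467c3211760a11e08baf4f11e18ce862a784b86d11c8551ce8e61e0cefb37519accc66627842df944479f34e0fd9928b04329983c8f6479784abe8dec6972a0919de12a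0227f93f48f612b780afc95168ce2e917398aac392b79440a0850276cba90c0845722390e1e12dba4c924e87c63ca784ad80ee271e2438f29e10ec62628f587983b1784b84d40a3b31c7015d4849af4d42624f0a34f784b01923a8282980b89e0eb363b5991c7922cd7791fc45962be15e8aede10efb2c212d096629f757217505c7e13620a5980abf92fc17a4aa22917809f8058a2bc15509f5e0467828313f895426077db56d4468aa12c8945e0677d3b38f806be249783bc08c585571480921e12f012ec14a44c6246783b691046822177887de10f042a392304681fc784a7249944501cf87b9de6ed475ea05c6141dd784bc1c8d43421748755e12eeb7723b51bdad6a784a76c9be4dc24e0525e12f09779ba5926801f784a7d09f44f524284c580837306d035018401d77bbbd5cdee6058d2c29e0a4c625692788ca10275735e90e87943ab83f9dd6a604d0262520c8d077dbb61d1693b460a301e12dc4640a9990d284f779bad5cfee783020341e04ef3775bb5123a8177843c2168891c48e1ec59c0cd8660a54cf66766781bc08a8c5090dd82dddf6eeb76a38c9a4a70a77239c1a68c083891c29e06d0154c2054e426ee784bb05d506af33e99b1e10ba0563a874e1265378198c862e30d1438281e08e8d33b19bccbc62a7629fa4de66683099831e12b9656c2838df860473fb9c106c6b534797b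5e12c4241f2088c9c5df70a28c8d886bd33c1779dc8edc743b73882000f53e904041c1ed0c88251e0ec354292088cc05b6784bbe0ca85b72db16c5e12f02775b9fcb6e5a87843bfcbb657a2bc15c9e12c4f538a3d0c7657075d98a4b565992b695a9e0ece3550a1d4bd4559784bbf8bc057e2be9555d386dc1b38d4c60a087784243cef457f2b31489db8edc76a3a79c36506784309d2942d315581fddf6cb95f4a56cf484ef4cd1e84c2655227c93b5de6eeb7531a78b8c4d0784ad1ce5671b2409009df6eeb76639848c8400711b851b9cda86680005d4ce6140f9794b6e00174f3a59972c6c1a00021dd6edc753328895429e775bb31d8ae7f58908e9e04eb527b139c7c222a77db3058aa36616e00b9db8ed470a294512414b7573a79cf0dbf6dbb1d1e12f02762ba99d2c9b777dba3dc84ded6a583d9bdab2955aa8112d401752115107e20b1049005de04d6a6adabe93ac712784bc25e12ef37661981d3c9d640b9fa4d98651747b985a1c74707f0269e12f02775ba7968054b3ab9a58c265b728e9361db8eb572cb7f0ab6474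

/-- the orbits counted with open simplices -/
def EVU : ℕ := 0x3ffff

/-- the packed point of the orbit `o` -/
def wU (o : ℕ) : ℕ := Nat.land (Nat.shiftRight PWU (Nat.mul 78 o)) 0x3fffffffffffffffffff

/-- packed coordinates of the orbit `r` of the group `γ` -/
def XU (γ r : ℕ) : ℕ → ℕ := X6 7700 (wU (Nat.add (Nat.mul 9 γ) r))

/-- kind of the orbit -/
def evU (γ r : ℕ) : ℕ := Nat.land (Nat.shiftRight EVU (Nat.add (Nat.mul 9 γ) r)) 1

/-- the point of the orbit `o` -/
def xU (o : ℕ) : Fin 6 → ℕ := xw (wU o)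

theorem evU_le : ∀ γ < 14, ∀ r < 9, evU γ r ≤ 1 := fun _ _ _ _ => Nat.and_le_right

theorem orbU_B : allB 126 (fun o => leB 7700 (wU o)) = true := by
  decide +kernel

theorem orbU : ∀ γ < 14, ∀ r < 9, PackedOrbit 6 7700 18 (xU (9 * γ + r)) (XU γ r) one6 := by
  intro γ hγ r hr
  have h := orbU_B
  rw [allB_iff] at h
  exact packed6 (h (9 * γ + r) (by omega))

end Helper67.Cube18
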