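import Pool.Agent.Helper67.CubeCert

/-!
# Signed point weights: lower bounds for covers and dissections by vertex simplices

Weights of both signs. A point of the cube lies in at least one member of a cover and in at most
one interior of a member of a dissection, so with positive weights on closed members and negative
weights on interiors the counting bound holds without any genericity of the points.
-/

set_option autoImplicit false

namespace Helper67.Cube

open Set

/-- the reflection-permutation group of the cube -/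
abbrev Sym (d : ℕ) : Type := Equiv.Perm (Fin d) × (Fin d → Bool)

lemma card_sym (d : ℕ) : Fintype.card (Sym d) = d.factorial * 2 ^ d := by
  rw [Fintype.card_prod, Fintype.card_perm, Fintype.card_fin, Fintype.card_fun,
    Fintype.card_bool, Fintype.card_fin]

/-- a moved point lies in at most one interior of a member of a dissection -/
lemma sum_cnt_interior_le {d N : ℕ} {W : Fin N → Fin (d+1) → Fin d → ℝ} (hW : IsDissection W)
    (x : Fin d → ℝ) : ∑ s, cnt x (interior (body (W s))) ≤ Fintype.card (Sym d) := by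
  classical
  unfold cnt
  rw [Finset.sum_comm, ← Finset.card_univ, Finset.card_eq_sum_ones]
  refine Finset.sum_le_sum fun g _ => ?_
  by_cases h : ∃ s, gmap g x ∈ interior (body (W s))
  · obtain ⟨s, hs⟩ := h
    rw [Finset.sum_eq_single s]
    · rw [if_pos hs]
    · intro t _ hts
      rw [if_neg]
      intro ht
      exact Set.disjoint_left.mp (hW.2 t s hts) ht hs
    · intro h; exact absurd (Finset.mem_univ s) h
  · push Not at h
    rw [Finset.sum_eq_zero fun s _ => if_neg (h s)]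
    exact Nat.zero_le _

/-- signed weighted counting bound for dissections -/
theorem weighted_bound_signed {d N Kp Kn : ℕ} {W : Fin N → Fin (d+1) → Fin d → ℝ}
    (hW : IsDissection W) (xp : Fin Kp → Fin d → ℝ) (hxp : ∀ o, xp o ∈ cube d)
    (xn : Fin Kn → Fin d → ℝ) (wp : Fin Kp → ℕ) (wn : Fin Kn → ℕ) (B : ℕ)
    (hB : ∀ s, ∑ o, wp o * cnt (xp o) (body (W s)) ≤
      B + ∑ o, wn o * cnt (xn o) (interior (body (W s)))) :
    Fintype.card (Sym d) * ∑ o, wp o ≤ N * B + Fintype.card (Sym d) * ∑ o, wn o := by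
  calc Fintype.card (Sym d) * ∑ o, wp o
      = ∑ o, wp o * Fintype.card (Sym d) := by
        rw [Finset.mul_sum]; exact Finset.sum_congr rfl fun o _ => mul_comm _ _
    _ ≤ ∑ o, wp o * ∑ s, cnt (xp o) (body (W s)) :=
        Finset.sum_le_sum fun o _ => Nat.mul_le_mul_left _ (card_le_sum_cnt hW.1 (hxp o))
    _ = ∑ s, ∑ o, wp o * cnt (xp o) (body (W s)) := by
        simp only [Finset.mul_sum]; rw [Finset.sum_comm]
    _ ≤ ∑ s : Fin N, (B + ∑ o, wn o * cnt (xn o) (interior (body (W s)))) :=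
        Finset.sum_le_sum fun s _ => hB s
    _ = N * B + ∑ o, wn o * ∑ s, cnt (xn o) (interior (body (W s))) := by
        rw [Finset.sum_add_distrib]
        congr 1
        · simp
        · simp only [Finset.mul_sum]; rw [Finset.sum_comm]
    _ ≤ N * B + ∑ o, wn o * Fintype.card (Sym d) :=
        Nat.add_le_add_left
          (Finset.sum_le_sum fun o _ => Nat.mul_le_mul_left _ (sum_cnt_interior_le hW _)) _
    _ = N * B + Fintype.card (Sym d) * ∑ o, wn o := by
        rw [Finset.mul_sum]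
        congr 1
        exact Finset.sum_congr rfl fun o _ => mul_comm _ _

/-! ### Packed counting with an offset -/

/-- comparison mask of one inequality `an + e ≤ ap` -/
def cmpE (d Q b e : ℕ) (ap an X : ℕ → ℕ) (one : ℕ) : ℕ :=
  ((2 ^ (b-1) - e) * one + linP d Q ap X one) - linP d Q an X one

/-- mask of `n` inequalities -/
def maskE (d Q b e : ℕ) (ap an : ℕ → ℕ → ℕ) (X : ℕ → ℕ) (one : ℕ) : ℕ → ℕ
  | 0 => 2 ^ (b-1) * one
  | n+1 => cmpE d Q b e (ap n) (an n) X one &&& maskE d Q b e ap an X one n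

lemma maskE_eq {d Q b e : ℕ} (hb : 1 ≤ b) (he : e ≤ 1) {ap an : ℕ → ℕ → ℕ} {X : ℕ → ℕ} {one : ℕ}
    {L : List (Fin d → ℕ)} (hX : ∀ j : Fin d, X j = pk b (fun y => y j) L)
    (hone : one = pk b (fun _ => 1) L) (hL : ∀ y ∈ L, ∀ j, y j ≤ Q) (n : ℕ)
    (hs : allB n (fun k => smallB d Q b (ap k) && smallB d Q b (an k)) = true) :
    maskE d Q b e ap an X one n = pk b (fun y => if allB n (fun k =>
      Nat.ble (lin d Q (an k) y + e) (lin d Q (ap k) y)) = true then 2 ^ (b-1) else 0) L := by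
  have h2b : 2 ^ b = 2 ^ (b-1) + 2 ^ (b-1) := by
    rw [← two_mul, ← pow_succ']; congr 1; omega
  have hpos : 0 < 2 ^ (b-1) := by positivity
  induction n with
  | zero =>
    rw [maskE, hone, ← pk_mul]
    exact pk_congr fun y _ => by simp [allB]
  | succ n ih =>
    rw [allB, Bool.and_eq_true, Bool.and_eq_true] at hs
    obtain ⟨⟨hs1, hs2⟩, hs3⟩ := hs
    have hs1' : ∀ y ∈ L, lin d Q (ap n) y < 2 ^ (b-1) := by
      intro y hy
      refine lt_of_le_of_lt (lin_le (hL y hy)) ?_
      have := Nat.blt_eq.mp hs1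
      rwa [sumN_eq] at this
    have hs2' : ∀ y ∈ L, lin d Q (an n) y < 2 ^ (b-1) := by
      intro y hy
      refine lt_of_le_of_lt (lin_le (hL y hy)) ?_
      have := Nat.blt_eq.mp hs2
      rwa [sumN_eq] at this
    have hcmp : cmpE d Q b e (ap n) (an n) X one =
        pk b (fun y => (2 ^ (b-1) - e) * 1 + lin d Q (ap n) y - lin d Q (an n) y) L := by
      unfold cmpE
      rw [linP_eq hX hone, linP_eq hX hone, hone, pk_sub, pk_add, pk_mul]
      intro y hy
      have := hs2' y hy
      omega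
    rw [maskE, ih hs3, hcmp, pk_and]
    · refine pk_congr fun y hy => ?_
      have h1 := hs1' y hy
      have h2 := hs2' y hy
      rw [allB]
      by_cases h3 : allB n (fun k => Nat.ble (lin d Q (an k) y + e) (lin d Q (ap k) y)) = true
      · rw [if_pos h3, h3, Bool.and_true, and_top hb (by omega)]
        by_cases h4 : lin d Q (an n) y + e ≤ lin d Q (ap n) y
        · rw [if_pos (by omega), if_pos (Nat.ble_eq.mpr h4)]
        · rw [if_neg (by omega), if_neg (by rw [Nat.ble_eq]; exact h4)]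
      · rw [if_neg h3, Nat.and_zero]
        have h4 : allB n (fun k => Nat.ble (lin d Q (an k) y + e) (lin d Q (ap k) y)) = false := by
          simpa using h3
        rw [h4, Bool.and_false]
        simp
    · intro y hy
      have h1 := hs1' y hy
      omega
    · intro y hy
      split_ifs <;> omega

/-- number of points satisfying the `n` inequalities `an + e ≤ ap`, from the packed data -/
def cntE (d Q b e : ℕ) (ap an : ℕ → ℕ → ℕ) (X : ℕ → ℕ) (one n : ℕ) : ℕ :=
  maskE d Q b e ap an X one n / 2 ^ (b-1) % (2 ^ b - 1)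

theorem cntE_eq {d Q b e : ℕ} (hb : 1 ≤ b) (he : e ≤ 1) {ap an : ℕ → ℕ → ℕ} {X : ℕ → ℕ} {one : ℕ}
    {L : List (Fin d → ℕ)} (hX : ∀ j : Fin d, X j = pk b (fun y => y j) L)
    (hone : one = pk b (fun _ => 1) L) (hL : ∀ y ∈ L, ∀ j, y j ≤ Q) (n : ℕ)
    (hs : allB n (fun k => smallB d Q b (ap k) && smallB d Q b (an k)) = true)
    (hlen : L.length < 2 ^ b - 1) :
    cntE d Q b e ap an X one n = (L.map (fun y => if allB n (fun k =>
      Nat.ble (lin d Q (an k) y + e) (lin d Q (ap k) y)) = true then 1 else 0)).sum := by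
  unfold cntE
  rw [maskE_eq hb he hX hone hL n hs]
  exact pk_count b _ L hlen

/-! ### Barycentric functionals -/

/-- the functional `ap k - an k` vanishes at the listed vertices `C q`, `q ≠ k`, and is positive
at `C k` -/
def baryB (d : ℕ) (ap an : ℕ → ℕ → ℕ) (C : ℕ → ℕ) : Bool :=
  allB (d+1) fun k => allB (d+1) fun q =>
    bif Nat.beq q k then Nat.blt (vlin d (an k) (C q)) (vlin d (ap k) (C q))
    else Nat.beq (vlin d (an k) (C q)) (vlin d (ap k) (C q))

lemma baryB_eq {d : ℕ} {ap an : ℕ → ℕ → ℕ} {C : ℕ → ℕ} (h : baryB d ap an C = true) {k q : ℕ}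
    (hk : k < d+1) (hq : q < d+1) (hne : q ≠ k) : vlin d (an k) (C q) = vlin d (ap k) (C q) := by
  unfold baryB at h
  rw [allB_iff] at h
  have h1 := h k hk
  rw [allB_iff] at h1
  have h2 := h1 q hq
  have h3 : Nat.beq q k = false := by
    rw [Bool.eq_false_iff]
    intro hcon
    exact hne (Nat.eq_of_beq_eq_true hcon)
  rw [h3, cond_false] at h2
  exact Nat.eq_of_beq_eq_true h2

lemma baryB_lt {d : ℕ} {ap an : ℕ → ℕ → ℕ} {C : ℕ → ℕ} (h : baryB d ap an C = true) {k : ℕ}
    (hk : k < d+1) : vlin d (an k) (C k) < vlin d (ap k) (C k) := by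
  unfold baryB at h
  rw [allB_iff] at h
  have h1 := h k hk
  rw [allB_iff] at h1
  have h2 := h1 k hk
  have h3 : Nat.beq k k = true := Nat.beq_refl k
  rw [h3, cond_true] at h2
  exact Nat.blt_eq.mp h2

lemma gmap_injective {d : ℕ} (g : Sym d) : Function.Injective (gmap g) := by
  intro x y h
  ext i
  have h1 := congrFun h (g.1⁻¹ i)
  have e : g.1 (g.1⁻¹ i) = i := by simp
  simp only [gmap, e] at h1
  split_ifs at h1 <;> linarith

lemma continuous_gmap {d : ℕ} (g : Sym d) : Continuous (gmap g) := by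
  refine continuous_pi fun j => ?_
  unfold gmap
  by_cases h : g.2 j = true
  · simp only [h, if_true]
    exact continuous_const.sub (continuous_apply _)
  · simp only [h, Bool.false_eq_true, if_false]
    exact continuous_apply _

lemma continuous_rlin (d : ℕ) (a : ℕ → ℕ) : Continuous (rlin d a) := by
  unfold rlin
  exact continuous_const.add
    (continuous_finsetSum _ fun j _ => continuous_const.mul (continuous_apply _))

lemma rlin_sum {d : ℕ} {ι : Type*} [Fintype ι] (a : ℕ → ℕ) (t : ι → ℝ) (ht : ∑ i, t i = 1)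
    (w : ι → Fin d → ℝ) : rlin d a (∑ i, t i • w i) = ∑ i, t i * rlin d a (w i) := by
  unfold rlin
  simp only [mul_add, Finset.sum_add_distrib, ← Finset.sum_mul, ht, one_mul]
  congr 1
  simp only [Finset.sum_apply, Pi.smul_apply, smul_eq_mul, Finset.mul_sum]
  rw [Finset.sum_comm]
  exact Finset.sum_congr rfl fun i _ => Finset.sum_congr rfl fun j _ => by ring

/-- the weight of a set as a sum over the orbit list -/
theorem cnt_eq_sum {d Q : ℕ} (hQ : 0 < Q) {x : Fin d → ℕ} (hx : ∀ j, x j ≤ Q)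
    (S : Set (Fin d → ℝ)) [DecidablePred fun y : Fin d → ℕ => rp Q y ∈ S] :
    cnt (rp Q x) S = ((orbL d Q x).map (fun y => if rp Q y ∈ S then 1 else 0)).sum := by
  classical
  unfold cnt orbL
  rw [flipsL_sum, Fintype.sum_prod_type, Finset.sum_comm]
  refine Finset.sum_congr rfl fun t _ => ?_
  rw [permsL_sum]
  refine Finset.sum_congr rfl fun σ _ => ?_
  rw [gmap_rp hQ hx]
  by_cases hm : rp Q (flipT Q d t fun j => x (σ j)) ∈ S
  · rw [if_pos hm, if_pos hm]
  · rw [if_neg hm, if_neg hm]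

section rep
variable {d Q b : ℕ} {ap an : ℕ → ℕ → ℕ} {C : ℕ → ℕ} {X : ℕ → ℕ} {one : ℕ} {x : Fin d → ℕ}

/-- closed members: the packed count is an upper bound -/
theorem cnt_body_le (hb : 1 ≤ b) (hQ : 0 < Q) (hx : ∀ j, x j ≤ Q)
    (hX : ∀ j : Fin d, X j = pk b (fun y => y j) (orbL d Q x))
    (hone : one = pk b (fun _ => 1) (orbL d Q x)) (hlen : d.factorial * 2 ^ d < 2 ^ b - 1)
    (hbary : baryB d ap an C = true)
    (hs : allB (d+1) (fun k => smallB d Q b (ap k) && smallB d Q b (an k)) = true)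
    {w : Fin (d+1) → Fin d → ℝ} (g : Sym d)
    (hg : ∀ q, ∃ q' < d+1, gmap g (w q) = vtx d (C q')) :
    cnt (rp Q x) (body w) ≤ cntE d Q b 0 ap an X one (d+1) := by
  set S : Set (Fin d → ℝ) := {z | ∃ q' < d+1, z = vtx d (C q')} with hS
  have hsub : body w ⊆ {y | gmap g y ∈ convexHull ℝ S} :=
    body_subset_preimage w g (fun i => by
      obtain ⟨q', hq', he⟩ := hg i
      exact ⟨q', hq', he⟩)
  refine (cnt_mono _ hsub).trans ?_
  rw [cnt_preimage, cntE_eq hb (Nat.zero_le _) hX hone (orbL_le hx) (d+1) hs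
    (by rw [orbL_length]; exact hlen)]
  refine cnt_le hQ hx _ _ ?_
  intro y hy hmem
  have hall : allB (d+1) (fun k => Nat.ble (lin d Q (an k) y + 0) (lin d Q (ap k) y)) = true := by
    rw [allB_iff]
    intro k hk
    refine Nat.ble_eq.mpr ?_
    have hle : ∀ z ∈ S, rlin d (an k) z ≤ rlin d (ap k) z := by
      rintro z ⟨q', hq', rfl⟩
      rw [rlin_vtx, rlin_vtx]
      by_cases hqk : q' = k
      · subst hqk
        exact_mod_cast (baryB_lt hbary hk).le
      · exact_mod_cast (baryB_eq hbary hk hq' hqk).le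
    have h3 := rlin_nonneg_hull hle _ hmem
    have hQ' : (0 : ℝ) < Q := by exact_mod_cast hQ
    have h4 := mul_le_mul_of_nonneg_right h3 hQ'.le
    rw [rlin_rp hQ, rlin_rp hQ] at h4
    exact_mod_cast h4
  rw [if_pos hall]

/-- points with positive functionals lie in the interior -/
lemma mem_interior_of_pos (hbary : baryB d ap an C = true)
    {w : Fin (d+1) → Fin d → ℝ} (hw : AffineIndependent ℝ w) (g : Sym d)
    (hg : ∀ q, ∃ q' < d+1, gmap g (w q) = vtx d (C q')) {z : Fin d → ℝ}
    (hz : ∀ k < d+1, rlin d (an k) (gmap g z) < rlin d (ap k) (gmap g z)) :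
    z ∈ interior (body w) := by
  choose π hπ hπe using hg
  have hinj : Function.Injective π := by
    intro q q' h
    refine hw.injective (gmap_injective g ?_)
    rw [hπe, hπe, h]
  have hopen : IsOpen {z : Fin d → ℝ | ∀ k ∈ Finset.range (d+1),
      rlin d (an k) (gmap g z) < rlin d (ap k) (gmap g z)} := by
    have h1 : {z : Fin d → ℝ | ∀ k ∈ Finset.range (d+1),
        rlin d (an k) (gmap g z) < rlin d (ap k) (gmap g z)} = ⋂ k ∈ Finset.range (d+1),
          {z : Fin d → ℝ | rlin d (an k) (gmap g z) < rlin d (ap k) (gmap g z)} := by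
      ext z; simp
    rw [h1]
    exact isOpen_biInter_finset fun k _ =>
      isOpen_lt ((continuous_rlin d _).comp (continuous_gmap g))
        ((continuous_rlin d _).comp (continuous_gmap g))
  refine interior_maximal ?_ hopen (fun k hk => hz k (Finset.mem_range.mp hk))
  intro z hz
  have htop : affineSpan ℝ (range w) = ⊤ := by
    rw [hw.affineSpan_eq_top_iff_card_eq_finrank_add_one]
    simp
  have hmem : z ∈ affineSpan ℝ (range w) := by rw [htop]; trivial
  obtain ⟨t, ht1, ht2⟩ := eq_affineCombination_of_mem_affineSpan_of_fintype hmem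
  rw [Finset.affineCombination_eq_linear_combination _ _ _ ht1] at ht2
  unfold body
  rw [mem_hull_range]
  refine ⟨t, fun q => ?_, ht1, ht2.symm⟩
  have h1 := hz (π q) (Finset.mem_range.mpr (hπ q))
  rw [ht2, gmap_sum g t ht1, rlin_sum _ t ht1, rlin_sum _ t ht1] at h1
  have h2 : ∑ i, t i * rlin d (ap (π q)) (gmap g (w i)) - ∑ i, t i * rlin d (an (π q)) (gmap g (w i))
      = t q * (((vlin d (ap (π q)) (C (π q)) : ℕ) : ℝ) - ((vlin d (an (π q)) (C (π q)) : ℕ) : ℝ)) := by
    rw [← Finset.sum_sub_distrib, Finset.sum_eq_single q]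
    · rw [hπe, rlin_vtx, rlin_vtx]; ring
    · intro i _ hiq
      rw [hπe, rlin_vtx, rlin_vtx, baryB_eq hbary (hπ q) (hπ i) (fun h => hiq (hinj h)), sub_self]
    · intro h; exact absurd (Finset.mem_univ q) h
  have h3 : (0 : ℝ) < ((vlin d (ap (π q)) (C (π q)) : ℕ) : ℝ) -
      ((vlin d (an (π q)) (C (π q)) : ℕ) : ℝ) := by
    have := baryB_lt hbary (hπ q)
    have h4 : ((vlin d (an (π q)) (C (π q)) : ℕ) : ℝ) < ((vlin d (ap (π q)) (C (π q)) : ℕ) : ℝ) := by
      exact_mod_cast this
    linarith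
  have h5 : 0 < t q * (((vlin d (ap (π q)) (C (π q)) : ℕ) : ℝ) -
      ((vlin d (an (π q)) (C (π q)) : ℕ) : ℝ)) := by linarith
  by_contra hneg
  rw [not_le] at hneg
  have h6 := mul_nonpos_of_nonpos_of_nonneg hneg.le h3.le
  linarith

/-- interiors of members: the packed count is a lower bound -/
theorem le_cnt_interior (hb : 1 ≤ b) (hQ : 0 < Q) (hx : ∀ j, x j ≤ Q)
    (hX : ∀ j : Fin d, X j = pk b (fun y => y j) (orbL d Q x))
    (hone : one = pk b (fun _ => 1) (orbL d Q x)) (hlen : d.factorial * 2 ^ d < 2 ^ b - 1)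
    (hbary : baryB d ap an C = true)
    (hs : allB (d+1) (fun k => smallB d Q b (ap k) && smallB d Q b (an k)) = true)
    {w : Fin (d+1) → Fin d → ℝ} (hw : AffineIndependent ℝ w) (g : Sym d)
    (hg : ∀ q, ∃ q' < d+1, gmap g (w q) = vtx d (C q')) :
    cntE d Q b 1 ap an X one (d+1) ≤ cnt (rp Q x) (interior (body w)) := by
  classical
  set S : Set (Fin d → ℝ) := {y | ∀ k < d+1, rlin d (an k) y < rlin d (ap k) y} with hS
  have h1 : cnt (rp Q x) {z | gmap g z ∈ S} ≤ cnt (rp Q x) (interior (body w)) :=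
    cnt_mono _ fun z hz => mem_interior_of_pos hbary hw g hg hz
  rw [cnt_preimage, cnt_eq_sum hQ hx] at h1
  refine le_trans ?_ h1
  rw [cntE_eq hb le_rfl hX hone (orbL_le hx) (d+1) hs (by rw [orbL_length]; exact hlen)]
  refine List.sum_le_sum fun y hy => ?_
  split_ifs with h2 h3
  · exact le_rfl
  · exfalso
    apply h3
    intro k hk
    rw [allB_iff] at h2
    have h4 := Nat.ble_eq.mp (h2 k hk)
    have hQ' : (0 : ℝ) < Q := by exact_mod_cast hQ
    have h5 := rlin_rp hQ (an k) y
    have h6 := rlin_rp hQ (ap k) y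
    have h7 : ((lin d Q (an k) y : ℕ) : ℝ) < ((lin d Q (ap k) y : ℕ) : ℝ) := by exact_mod_cast h4
    rw [← h5, ← h6] at h7
    exact lt_of_mul_lt_mul_right h7 hQ'.le
  · exact Nat.zero_le _
  · exact le_rfl

end rep

/-! ### The bounds -/

/-- every affinely independent list of `k` vertices is moved by a symmetry into one of the `n` sets
`{C i 0, ..., C i (k-1)}` -/
def LevI (d k n : ℕ) (C : ℕ → ℕ → ℕ) : Prop :=
  ∀ v : Fin k → (Fin d → ℝ), (∀ q j, v q j = 0 ∨ v q j = 1) → AffineIndependent ℝ v → ∃ i < n,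
    ∃ g : Sym d, ∀ q, ∃ q' < k, gmap g (v q) = vtx d (C i q')

/-- the functionals of one representative are barycentric and small -/
def funB (d Q b : ℕ) (ap an : ℕ → ℕ → ℕ) (C : ℕ → ℕ) : Bool :=
  baryB d ap an C && allB (d+1) (fun k => smallB d Q b (ap k) && smallB d Q b (an k))

/-- the orbit of `x` (coordinates with denominator `Q`) in packed form -/
structure PackedOrbit (d Q b : ℕ) (x : Fin d → ℕ) (X : ℕ → ℕ) (one : ℕ) : Prop where
  le : ∀ j, x j ≤ Q
  coord : ∀ j : Fin d, X j = pk b (fun y => y j) (orbL d Q x)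
  ones : one = pk b (fun _ => 1) (orbL d Q x)

/-- **Signed bound for dissections by vertex simplices.** `T o i`: upper bounds of the closed
counts of the positive orbits, `U o i`: lower bounds of the open counts of the negative orbits. -/
theorem dissection_bound_signed {d Q b Kp Kn B n N : ℕ} (hb : 1 ≤ b) (hQ : 0 < Q)
    {wp wn : ℕ → ℕ} {Xp Xn : ℕ → ℕ → ℕ} {one : ℕ} {ap an : ℕ → ℕ → ℕ → ℕ} {C : ℕ → ℕ → ℕ}
    {xp xn : ℕ → Fin d → ℕ} (hp : ∀ o < Kp, PackedOrbit d Q b (xp o) (Xp o) one)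
    (hn : ∀ o < Kn, PackedOrbit d Q b (xn o) (Xn o) one)
    (hlen : d.factorial * 2 ^ d < 2 ^ b - 1) (hL : LevI d (d+1) n C)
    (hf : ∀ i < n, funB d Q b (ap i) (an i) (C i) = true) (T U : ℕ → ℕ → ℕ)
    (hT : ∀ o < Kp, ∀ i < n, cntE d Q b 0 (ap i) (an i) (Xp o) one (d+1) ≤ T o i)
    (hU : ∀ o < Kn, ∀ i < n, U o i ≤ cntE d Q b 1 (ap i) (an i) (Xn o) one (d+1))
    (hB : ∀ i < n, ∑ o : Fin Kp, wp o * T o i ≤ B + ∑ o : Fin Kn, wn o * U o i)
    {W : Fin N → Fin (d+1) → Fin d → ℝ} (hW : IsDissection W) (hv : IsVertexFamily W) :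
    d.factorial * 2 ^ d * ∑ o : Fin Kp, wp o ≤
      N * B + d.factorial * 2 ^ d * ∑ o : Fin Kn, wn o := by
  have h1 := weighted_bound_signed hW (fun o : Fin Kp => rp Q (xp o))
    (fun o => rp_mem_cube hQ (hp o o.2).le) (fun o : Fin Kn => rp Q (xn o)) (fun o => wp o)
    (fun o => wn o) B ?_
  · rwa [card_sym] at h1
  · intro s
    obtain ⟨i, hi, g, hg⟩ := hL (W s) (hv s) (hW.1.1 s)
    have h2 := hf i hi
    rw [funB, Bool.and_eq_true] at h2
    calc ∑ o : Fin Kp, wp o * cnt (rp Q (xp o)) (body (W s)) ≤ ∑ o : Fin Kp, wp o * T o i :=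
          Finset.sum_le_sum fun (o : Fin Kp) _ => Nat.mul_le_mul_left _
            ((cnt_body_le hb hQ (hp o o.2).le (hp o o.2).coord (hp o o.2).ones hlen h2.1 h2.2 g
              hg).trans (hT o o.2 i hi))
      _ ≤ B + ∑ o : Fin Kn, wn o * U o i := hB i hi
      _ ≤ B + ∑ o : Fin Kn, wn o * cnt (rp Q (xn o)) (interior (body (W s))) :=
          Nat.add_le_add_left (Finset.sum_le_sum fun (o : Fin Kn) _ => Nat.mul_le_mul_left _
            ((hU o o.2 i hi).trans (le_cnt_interior hb hQ (hn o o.2).le (hn o o.2).coord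
              (hn o o.2).ones hlen h2.1 h2.2 (hW.1.1 s) g hg))) _

/-- **Bound for covers by vertex simplices.** -/
theorem cover_bound_unsigned {d Q b K B n N : ℕ} (hb : 1 ≤ b) (hQ : 0 < Q)
    {wt : ℕ → ℕ} {X : ℕ → ℕ → ℕ} {one : ℕ} {ap an : ℕ → ℕ → ℕ → ℕ} {C : ℕ → ℕ → ℕ}
    {x : ℕ → Fin d → ℕ} (hp : ∀ o < K, PackedOrbit d Q b (x o) (X o) one)
    (hlen : d.factorial * 2 ^ d < 2 ^ b - 1) (hL : LevI d (d+1) n C)
    (hf : ∀ i < n, funB d Q b (ap i) (an i) (C i) = true) (T : ℕ → ℕ → ℕ)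
    (hT : ∀ o < K, ∀ i < n, cntE d Q b 0 (ap i) (an i) (X o) one (d+1) ≤ T o i)
    (hB : ∀ i < n, ∑ o : Fin K, wt o * T o i ≤ B)
    {W : Fin N → Fin (d+1) → Fin d → ℝ} (hW : IsCover W) (hv : IsVertexFamily W) :
    d.factorial * 2 ^ d * ∑ o : Fin K, wt o ≤ N * B := by
  have h1 := weighted_bound hW (fun o : Fin K => rp Q (x o))
    (fun o => rp_mem_cube hQ (hp o o.2).le) (fun o => wt o) B ?_
  · rwa [card_sym] at h1
  · intro s
    obtain ⟨i, hi, g, hg⟩ := hL (W s) (hv s) (hW.1 s)
    have h2 := hf i hi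
    rw [funB, Bool.and_eq_true] at h2
    exact (Finset.sum_le_sum fun (o : Fin K) _ => Nat.mul_le_mul_left _
      ((cnt_body_le hb hQ (hp o o.2).le (hp o o.2).coord (hp o o.2).ones hlen h2.1 h2.2 g
        hg).trans (hT o o.2 i hi))).trans (hB i hi)

end Helper67.Cube
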