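import Pool.Agent.Helper67.Cube6.TriData

/-!
# An explicit triangulation of the 6-cube with 308 simplices: checks
-/

set_option autoImplicit false

namespace Helper67.Cube

theorem tri6_row0 : allR rowOK6 0 110 = true := by decide +kernel

theorem tri6_row1 : allR rowOK6 110 44 = true := by decide +kernel

theorem tri6_row2 : allR rowOK6 154 36 = true := by decide +kernel

theorem tri6_row3 : allR rowOK6 190 28 = true := by decide +kernel

theorem tri6_row4 : allR rowOK6 218 26 = true := by decide +kernel

theorem tri6_row5 : allR rowOK6 244 23 = true := by decide +kernel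

theorem tri6_row6 : allR rowOK6 267 21 = true := by decide +kernel

theorem tri6_row7 : allR rowOK6 288 20 = true := by decide +kernel

theorem tri6_half : allR halfOK6 0 511 = true := by decide +kernel

theorem tri6_mask : allR maskOK6 0 308 = true := by decide +kernel

theorem tri6_det : allR detOK6 0 308 = true := by decide +kernel

theorem tri6_sum : sumNB 308 D6 = (6).factorial := by decide +kernel

theorem code6_lt (s i : ℕ) : code6 s i < 2 ^ 6 := Nat.mod_lt _ (by norm_num)

theorem tri6 : IsTriangulation (fam 6 308 code6) ∧ IsVertexFamily (fam 6 308 code6) := by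
  refine tri_of_masks (K := 511) code6 mk6 D6 (fun k j => (g6 k j : ℤ) - (16 : ℕ))
    (fun k => (c6 k : ℤ) - (6 : ℕ) * (16 : ℕ)) mL6 mE6 mG6 code6_lt ?_ ?_ ?_ ?_ ?_
  · intro s hs
    exact Nat.eq_of_beq_eq_true (allR_sound tri6_mask (Nat.zero_le s) (by omega))
  · intro k hk
    exact halfOK_of_halfT (allR_sound tri6_half (Nat.zero_le k) (by omega))
  · intro s hs
    have h : rowOK6 s = true := by
      rcases (by omega : s < 110 ∨ (110 ≤ s ∧ s < 154) ∨ (154 ≤ s ∧ s < 190) ∨ (190 ≤ s ∧ s < 218) ∨ (218 ≤ s ∧ s < 244) ∨ (244 ≤ s ∧ s < 267) ∨ (267 ≤ s ∧ s < 288) ∨ 288 ≤ s) with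
        h | h | h | h | h | h | h | h
      · exact allR_sound tri6_row0 (Nat.zero_le s) (by omega)
      · exact allR_sound tri6_row1 h.1 (by omega)
      · exact allR_sound tri6_row2 h.1 (by omega)
      · exact allR_sound tri6_row3 h.1 (by omega)
      · exact allR_sound tri6_row4 h.1 (by omega)
      · exact allR_sound tri6_row5 h.1 (by omega)
      · exact allR_sound tri6_row6 h.1 (by omega)
      · exact allR_sound tri6_row7 h (by omega)
    exact rowB_sound 9 511 mk6 mL6 mE6 mG6 (mk6 s) s (row6 s) h
  · intro s hs
    have h : detOK6 s = true := allR_sound tri6_det (Nat.zero_le s) (by omega)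
    rw [detOK6, Bool.and_eq_true] at h
    refine ⟨Nat.eq_of_beq_eq_true h.1, fun h0 => ?_⟩
    rw [h0] at h
    exact absurd h.2 (by decide)
  · rw [← sumNB_eq]
    exact tri6_sum

end Helper67.Cube
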