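import Pool.Agent.Helper67.CubeTri

/-!
# Checking explicit triangulations of the cube with vertex masks

A vertex simplex is given by the mask of its vertex codes, a half-space by the masks of the cube
vertices below, on and above its boundary hyperplane.
-/

set_option autoImplicit false

namespace Helper67.Cube

open MeasureTheory Set

/-- a hyperplane weakly separating two simplices; one of the two meets the hyperplane only in
common vertices -/
def SepW {d : ℕ} (w w' : Fin (d+1) → Fin d → ℝ) : Prop :=
  ∃ (h : Fin d → ℝ) (c : ℝ), h ≠ 0 ∧ (∀ i, c ≤ h ⬝ᵥ w i) ∧ (∀ i, h ⬝ᵥ w' i ≤ c) ∧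
    ((∀ i, h ⬝ᵥ w i = c → w i ∈ range w') ∨ (∀ i, h ⬝ᵥ w' i = c → w' i ∈ range w))

lemma SepW.inter {d : ℕ} {w w' : Fin (d+1) → Fin d → ℝ} (hs : SepW w w') :
    body w ∩ body w' = convexHull ℝ (range w ∩ range w') := by
  obtain ⟨h, c, h0, h1, h2, h3⟩ := hs
  apply Subset.antisymm
  · rintro x ⟨hx, hx'⟩
    have h4 := le_dot_of_mem_body h1 hx
    have h5 := dot_le_of_mem_body h2 hx'
    have h6 : h ⬝ᵥ x = c := le_antisymm h5 h4
    rcases h3 with h3 | h3
    · exact mem_hull_of_dot_eq (fun i => ⟨h1 i, h3 i⟩) hx h6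
    · have h7 : ∀ i, -c ≤ (-h) ⬝ᵥ w' i ∧ ((-h) ⬝ᵥ w' i = -c → w' i ∈ range w) := by
        intro i
        rw [neg_dotProduct]
        exact ⟨neg_le_neg (h2 i), fun h8 => h3 i (neg_injective h8)⟩
      have h8 := mem_hull_of_dot_eq h7 hx' (by rw [neg_dotProduct, h6])
      rw [inter_comm]
      exact h8
  · intro x hx
    exact ⟨convexHull_mono inter_subset_left hx, convexHull_mono inter_subset_right hx⟩

lemma SepW.volume_inter {d : ℕ} {w w' : Fin (d+1) → Fin d → ℝ} (hs : SepW w w') :
    volume (body w ∩ body w') = 0 := by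
  obtain ⟨h, c, h0, h1, h2, -⟩ := hs
  let f : (Fin d → ℝ) →ₗ[ℝ] ℝ := dotProductBilin ℝ ℝ h
  have hf : ∀ x, f x = h ⬝ᵥ x := fun x => rfl
  have hsub : body w ∩ body w' ⊆
      ((AffineSubspace.mk' c ⊥).comap f.toAffineMap : AffineSubspace ℝ (Fin d → ℝ)) := by
    rintro x ⟨hx, hx'⟩
    have h3 := le_dot_of_mem_body h1 hx
    have h4 := dot_le_of_mem_body h2 hx'
    have h5 : f x = c := le_antisymm h4 h3
    simp [h5]
  refine measure_mono_null hsub (Measure.addHaar_affineSubspace _ _ ?_)
  intro htop
  have h6 : ∀ x, f x = c := by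
    intro x
    have : x ∈ ((AffineSubspace.mk' c ⊥).comap f.toAffineMap : AffineSubspace ℝ (Fin d → ℝ)) := by
      rw [htop]; trivial
    simpa [sub_eq_zero] using this
  have h7 : c = 0 := by rw [← h6 0, map_zero]
  apply h0
  have h8 : h ⬝ᵥ h = 0 := by rw [← hf, h6, h7]
  exact dotProduct_self_eq_zero.1 h8

/-- a family of nondegenerate simplices of total volume one which pairwise meet in a null set
and exactly in the hull of their common vertices is a triangulation -/
theorem isTriangulation_of_inter {d N : ℕ} (W : Fin N → Fin (d+1) → Fin d → ℝ)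
    (hu : ∀ s, InUnit (W s)) (hdet : ∀ s, (bord (W s)).det ≠ 0)
    (hnull : ∀ s t, s ≠ t → volume (body (W s) ∩ body (W t)) = 0)
    (hint : ∀ s t, s ≠ t → body (W s) ∩ body (W t) = convexHull ℝ (range (W s) ∩ range (W t)))
    (hvol : ∑ s, vdet (W s) = d.factorial) :
    IsTriangulation W := by
  refine ⟨⟨⟨fun s => affineIndependent_of_det (hdet s), ?_⟩, fun s t hst => ?_⟩, fun s t => ?_⟩
  · -- coverage
    have hclosed : IsClosed (⋃ s, body (W s)) := isClosed_iUnion_of_finite fun s => isClosed_body _
    have hsub : (⋃ s, body (W s)) ⊆ cube d := iUnion_subset fun s => body_subset_cube (hu s)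
    have hmeas : volume (⋃ s, body (W s)) = 1 := by
      rw [measure_iUnion₀]
      · rw [tsum_fintype]
        simp only [volume_body]
        rw [← ENNReal.ofReal_sum_of_nonneg (fun s _ => div_nonneg (vdet_nonneg _) (by positivity)),
          ← Finset.sum_div, hvol, div_self (by positivity), ENNReal.ofReal_one]
      · intro s t hst
        exact hnull s t hst
      · exact fun s => (isClosed_body _).measurableSet.nullMeasurableSet
    apply Subset.antisymm hsub
    have hO : IsOpen (interior (cube d) \ ⋃ s, body (W s)) := isOpen_interior.sdiff hclosed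
    have hO0 : interior (cube d) \ (⋃ s, body (W s)) = ∅ := by
      rw [← hO.measure_eq_zero_iff volume]
      refine measure_mono_null (sdiff_subset_sdiff_left interior_subset) ?_
      rw [measure_sdiff hsub hclosed.measurableSet.nullMeasurableSet (by rw [hmeas]; simp),
        volume_cube, hmeas]
      simp
    have h1 : interior (cube d) ⊆ ⋃ s, body (W s) := sdiff_eq_empty.1 hO0
    have h2 : closure (interior (cube d)) ⊆ ⋃ s, body (W s) := closure_minimal h1 hclosed
    refine Subset.trans ?_ h2
    have hint : (interior (cube d)).Nonempty := by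
      rw [cube_eq]
      refine ⟨fun _ => 1/2, ?_⟩
      rw [← pi_univ_Icc, interior_pi_set finite_univ]
      intro i _
      simp only [Pi.zero_apply, Pi.one_apply, interior_Icc]
      norm_num
    have hconv : Convex ℝ (cube d) := by rw [cube_eq]; exact convex_Icc 0 1
    rw [hconv.closure_interior_eq_closure_of_nonempty_interior hint]
    exact subset_closure
  · rw [disjoint_iff_inter_eq_empty]
    have ho : IsOpen (interior (body (W s)) ∩ interior (body (W t))) :=
      isOpen_interior.inter isOpen_interior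
    rw [← ho.measure_eq_zero_iff volume]
    exact measure_mono_null (inter_subset_inter interior_subset interior_subset) (hnull s t hst)
  · by_cases hst : s = t
    · subst hst
      rw [inter_self, inter_self]; rfl
    · exact hint s t hst

/-- the bit `v` of the number `m` -/
def tb (m v : ℕ) : Bool := Nat.beq (Nat.land (Nat.shiftRight m v) 1) 1

lemma tb_eq (m v : ℕ) : tb m v = m.testBit v := by
  have h1 : Nat.land (Nat.shiftRight m v) 1 = (m >>> v) % 2 := Nat.and_one_is_mod _
  have h2 : m.testBit v = decide ((m >>> v) % 2 = 1) := by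
    rw [Nat.testBit_eq_decide_div_mod_eq, Nat.shiftRight_eq_div_pow]
  rw [tb, h1, h2]
  by_cases h : (m >>> v) % 2 = 1
  · rw [h]; rfl
  · have h3 : (m >>> v) % 2 = 0 := by omega
    rw [h3]; rfl

/-- the mask of the vertex codes `f 0, ..., f (n-1)` -/
def maskOf : ℕ → (ℕ → ℕ) → ℕ
  | 0, _ => 0
  | n+1, f => Nat.lor (maskOf n f) (Nat.shiftLeft 1 (f n))

lemma testBit_maskOf (n : ℕ) (f : ℕ → ℕ) (v : ℕ) :
    (maskOf n f).testBit v = true ↔ ∃ i < n, f i = v := by
  induction n with
  | zero => simp [maskOf]
  | succ n ih =>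
    have h1 : maskOf (n+1) f = maskOf n f ||| (1 <<< (f n)) := rfl
    rw [h1, Nat.testBit_or, Bool.or_eq_true, ih]
    have h2 : (1 <<< (f n) : ℕ).testBit v = true ↔ f n = v := by
      rw [Nat.one_shiftLeft, Nat.testBit_two_pow]
      simp
    rw [h2]
    constructor
    · rintro (⟨i, hi, h⟩ | h)
      · exact ⟨i, by omega, h⟩
      · exact ⟨n, by omega, h⟩
    · rintro ⟨i, hi, h⟩
      rcases Nat.lt_succ_iff_lt_or_eq.1 hi with h' | h'
      · exact Or.inl ⟨i, h', h⟩
      · exact Or.inr (h' ▸ h)

lemma not_testBit_of_land {a b v : ℕ} (h : Nat.land a b = 0) (ha : a.testBit v = true) :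
    b.testBit v = false := by
  have h1 : (a &&& b).testBit v = false := by
    have : a &&& b = 0 := h
    rw [this, Nat.zero_testBit]
  rw [Nat.testBit_and, ha, Bool.true_and] at h1
  exact h1

/-- check of the three masks of a half-space: vertices outside `L` are above the level or on it,
vertices outside `G` are below or on it, vertices outside `E` are not on it -/
def halfOK (d : ℕ) (h : ℕ → ℤ) (c : ℤ) (L E G : ℕ) : Bool :=
  allB (2^d) (fun v => (tb L v || decide (c ≤ dotB d h v)) &&
    ((tb G v || decide (dotB d h v ≤ c)) && (tb E v || !decide (dotB d h v = c)))) &&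
  anyB d (fun j => !decide (h j = 0))

/-- check of an oriented pair -/
def pairO (a b L E G : ℕ) : Bool :=
  Nat.beq (Nat.land a L) 0 && (Nat.beq (Nat.land b G) 0 &&
    (Nat.beq (Nat.land (Nat.land a E) b) (Nat.land a E) ||
      Nat.beq (Nat.land (Nat.land b E) a) (Nat.land b E)))

/-- check of a pair of simplices with the masks `a`, `b` -/
def pairOK (a b L E G : ℕ) : Bool := pairO a b L E G || pairO b a L E G

lemma testBit_of_land_eq {a b E v : ℕ} (h : Nat.land (Nat.land a E) b = Nat.land a E)
    (ha : a.testBit v = true) (hE : E.testBit v = true) : b.testBit v = true := by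
  have h1 : ((a &&& E) &&& b).testBit v = (a &&& E).testBit v := by
    have h2 : (a &&& E) &&& b = a &&& E := h
    rw [h2]
  rw [Nat.testBit_and, Nat.testBit_and, ha, hE] at h1
  simpa using h1

lemma sepW_of_pairO {d N : ℕ} {code : ℕ → ℕ → ℕ} (hcode : ∀ s i, code s i < 2^d)
    {h : ℕ → ℤ} {c : ℤ} {L E G : ℕ} (hh : halfOK d h c L E G = true) (s t : Fin N)
    (hp : pairO (maskOf (d+1) (code s)) (maskOf (d+1) (code t)) L E G = true) :
    SepW (fam d N code s) (fam d N code t) := by
  unfold halfOK at hh
  rw [Bool.and_eq_true, allB_iff, anyB_iff] at hh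
  obtain ⟨h1, j, hj, hj0⟩ := hh
  unfold pairO at hp
  rw [Bool.and_eq_true, Bool.and_eq_true, Bool.or_eq_true] at hp
  obtain ⟨h2, h3, h4⟩ := hp
  have h2' := Nat.eq_of_beq_eq_true h2
  have h3' := Nat.eq_of_beq_eq_true h3
  have hs : ∀ i : Fin (d+1), (maskOf (d+1) (code s)).testBit (code s i) = true :=
    fun i => (testBit_maskOf _ _ _).2 ⟨i, i.2, rfl⟩
  have ht : ∀ i : Fin (d+1), (maskOf (d+1) (code t)).testBit (code t i) = true :=
    fun i => (testBit_maskOf _ _ _).2 ⟨i, i.2, rfl⟩
  have key : ∀ v < 2^d, (L.testBit v = false → c ≤ dotB d h v) ∧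
      (G.testBit v = false → dotB d h v ≤ c) ∧ (dotB d h v = c → E.testBit v = true) := by
    intro v hv
    have h5 := h1 v hv
    rw [Bool.and_eq_true, Bool.and_eq_true, Bool.or_eq_true, Bool.or_eq_true, Bool.or_eq_true,
      tb_eq, tb_eq, tb_eq] at h5
    obtain ⟨h6, h7, h8⟩ := h5
    refine ⟨fun h9 => ?_, fun h9 => ?_, fun h9 => ?_⟩
    · rcases h6 with h6 | h6
      · rw [h9] at h6; exact absurd h6 (by simp)
      · exact of_decide_eq_true h6
    · rcases h7 with h7 | h7
      · rw [h9] at h7; exact absurd h7 (by simp)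
      · exact of_decide_eq_true h7
    · rcases h8 with h8 | h8
      · exact h8
      · simp [h9] at h8
  refine ⟨fun j : Fin d => ((h j : ℤ) : ℝ), (c : ℝ), ?_, ?_, ?_, ?_⟩
  · intro hcon
    have := congrFun hcon ⟨j, hj⟩
    simp only [Pi.zero_apply, Int.cast_eq_zero] at this
    simp [this] at hj0
  · intro i
    unfold fam
    rw [← dotB_eq]
    exact_mod_cast (key _ (hcode s i)).1 (not_testBit_of_land h2' (hs i))
  · intro i
    unfold fam
    rw [← dotB_eq]
    exact_mod_cast (key _ (hcode t i)).2.1 (not_testBit_of_land h3' (ht i))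
  · rcases h4 with h4 | h4
    · left
      intro i hi
      unfold fam at hi
      rw [← dotB_eq] at hi
      have h5 : dotB d h (code s i) = c := by exact_mod_cast hi
      have h6 := testBit_of_land_eq (Nat.eq_of_beq_eq_true h4) (hs i)
        ((key _ (hcode s i)).2.2 h5)
      obtain ⟨k, hk, hk2⟩ := (testBit_maskOf _ _ _).1 h6
      exact ⟨⟨k, hk⟩, by unfold fam; simp only [hk2]⟩
    · right
      intro i hi
      unfold fam at hi
      rw [← dotB_eq] at hi
      have h5 : dotB d h (code t i) = c := by exact_mod_cast hi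
      have h6 := testBit_of_land_eq (Nat.eq_of_beq_eq_true h4) (ht i)
        ((key _ (hcode t i)).2.2 h5)
      obtain ⟨k, hk, hk2⟩ := (testBit_maskOf _ _ _).1 h6
      exact ⟨⟨k, hk⟩, by unfold fam; simp only [hk2]⟩

/-- check of all pairs of one simplex with the `n` first simplices; the digits of `r` to the base
`2^b`, `M = 2^b - 1`, are the numbers of the half-spaces plus one, starting with the simplex number
`n - 1` -/
def rowB (b M : ℕ) (mk : ℕ → ℕ) (mL mE mG : ℕ → ℕ) (a : ℕ) (n : ℕ) : ℕ → Bool :=
  Nat.rec (fun _ => true) (fun n ih r =>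
    and (Nat.rec (motive := fun _ => Bool) false
      (fun k _ => pairOK a (mk n) (mL k) (mE k) (mG k)) (Nat.land r M))
      (ih (Nat.shiftRight r b))) n

lemma rowB_sound (b M : ℕ) (mk : ℕ → ℕ) (mL mE mG : ℕ → ℕ) (a : ℕ) :
    ∀ n r, rowB b M mk mL mE mG a n r = true →
      ∀ t < n, ∃ k < M, pairOK a (mk t) (mL k) (mE k) (mG k) = true := by
  intro n
  induction n with
  | zero => intro r _ t ht; exact absurd ht (Nat.not_lt_zero _)
  | succ n ih =>
    intro r hr t ht
    have hr' : and (Nat.rec (motive := fun _ => Bool) false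
      (fun k _ => pairOK a (mk n) (mL k) (mE k) (mG k)) (Nat.land r M))
      (rowB b M mk mL mE mG a n (Nat.shiftRight r b)) = true := hr
    rw [Bool.and_eq_true] at hr'
    rcases Nat.lt_succ_iff_lt_or_eq.1 ht with h | h
    · exact ih _ hr'.2 t h
    · subst h
      have h1 := hr'.1
      have h2 : Nat.land r M ≤ M := Nat.and_le_right
      cases h3 : Nat.land r M with
      | zero => rw [h3] at h1; exact absurd h1 (by simp)
      | succ k => rw [h3] at h1 h2; exact ⟨k, h2, h1⟩

/-- check of the values of a functional at all vertices, by halving the cube; the coefficients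
`g j` are shifted by `o` -/
def treeB (o : ℕ) (p : ℕ → ℕ → Bool) (g : ℕ → ℕ) (n : ℕ) : ℕ → ℕ → Bool :=
  Nat.rec (fun v x => p v x) (fun n ih v x =>
    and (ih v (Nat.add x o)) (ih (Nat.add v (Nat.shiftLeft 1 n)) (Nat.add x (g n)))) n

lemma treeB_succ (o : ℕ) (p : ℕ → ℕ → Bool) (g : ℕ → ℕ) (n v x : ℕ) :
    treeB o p g (n+1) v x = (treeB o p g n v (x + o) && treeB o p g n (v + 2^n) (x + g n)) := by
  rw [← Nat.one_shiftLeft]; rfl

lemma treeB_sound (o : ℕ) (p : ℕ → ℕ → Bool) (g : ℕ → ℕ) :
    ∀ n v x, treeB o p g n v x = true → ∀ u < 2^n,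
      p (v + u) (x + ∑ j ∈ Finset.range n, if u.testBit j then g j else o) = true := by
  intro n
  induction n with
  | zero =>
    intro v x h u hu
    have : u = 0 := by simpa using hu
    subst this
    have h' : p v x = true := h
    simpa using h'
  | succ n ih =>
    intro v x h u hu
    rw [treeB_succ, Bool.and_eq_true] at h
    rw [Finset.sum_range_succ]
    by_cases hun : u < 2^n
    · have h1 := ih v (x + o) h.1 u hun
      have h2 : u.testBit n = false := Nat.testBit_lt_two_pow hun
      rw [h2]
      simp only [Bool.false_eq_true, if_false]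
      rw [show x + (∑ j ∈ Finset.range n, (if u.testBit j then g j else o) + o) =
        x + o + ∑ j ∈ Finset.range n, (if u.testBit j then g j else o) by ring]
      exact h1
    · have hle : 2^n ≤ u := not_lt.1 hun
      obtain ⟨w, rfl⟩ := Nat.exists_eq_add_of_le hle
      have hw : w < 2^n := by rw [pow_succ] at hu; omega
      have h1 := ih (v + 2^n) (x + g n) h.2 w hw
      have h2 : (2^n + w).testBit n = true := by
        rw [Nat.testBit_two_pow_add_eq, Nat.testBit_lt_two_pow hw]; rfl
      have h3 : ∀ j ∈ Finset.range n, (if (2^n + w).testBit j then g j else o) =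
          (if w.testBit j then g j else o) := by
        intro j hj
        rw [Nat.testBit_two_pow_add_gt (Finset.mem_range.1 hj)]
      rw [h2, if_pos rfl, Finset.sum_congr rfl h3, ← add_assoc v]
      rw [show x + (∑ j ∈ Finset.range n, (if w.testBit j then g j else o) + g n) =
        x + g n + ∑ j ∈ Finset.range n, (if w.testBit j then g j else o) by ring]
      exact h1

/-- fast version of `halfOK`: the coefficients are `g j - o`, the level is `c - d * o` -/
def halfT (o d : ℕ) (g : ℕ → ℕ) (c L E G : ℕ) : Bool :=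
  treeB o (fun v x => (tb L v || Nat.ble c x) && ((tb G v || Nat.ble x c) &&
    (tb E v || !Nat.beq x c))) g d 0 0 && anyB d (fun j => !Nat.beq (g j) o)

lemma halfOK_of_halfT {o d : ℕ} {g : ℕ → ℕ} {c L E G : ℕ} (hh : halfT o d g c L E G = true) :
    halfOK d (fun j => (g j : ℤ) - o) ((c : ℤ) - d * o) L E G = true := by
  unfold halfT at hh
  rw [Bool.and_eq_true, anyB_iff] at hh
  obtain ⟨h1, j, hj, hj0⟩ := hh
  unfold halfOK
  rw [Bool.and_eq_true, allB_iff, anyB_iff]
  refine ⟨fun v hv => ?_, j, hj, ?_⟩
  · have h2 := treeB_sound o _ g d 0 0 h1 v hv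
    rw [Nat.zero_add, Nat.zero_add] at h2
    set x := ∑ j ∈ Finset.range d, (if v.testBit j then g j else o) with hx
    have h3 : dotB d (fun j => (g j : ℤ) - o) v = (x : ℤ) - d * o := by
      rw [dotB, sumB_eq, hx, Nat.cast_sum]
      rw [← Finset.sum_range (fun j => if (v >>> j) % 2 = 0 then (0:ℤ) else (g j : ℤ) - o)]
      have h4 : ((d : ℤ) * o) = ∑ _j ∈ Finset.range d, (o : ℤ) := by
        rw [Finset.sum_const, Finset.card_range, nsmul_eq_mul]
      rw [h4, ← Finset.sum_sub_distrib]
      refine Finset.sum_congr rfl fun j _ => ?_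
      have h5 : v.testBit j = decide ((v >>> j) % 2 = 1) := by
        rw [Nat.testBit_eq_decide_div_mod_eq, Nat.shiftRight_eq_div_pow]
      rcases Nat.mod_two_eq_zero_or_one (v >>> j) with h6 | h6
      · simp [h5, h6]
      · simp [h5, h6]
    rw [h3]
    simp only [Bool.and_eq_true, Bool.or_eq_true] at h2 ⊢
    obtain ⟨h6, h7, h8⟩ := h2
    refine ⟨?_, ?_, ?_⟩
    · rcases h6 with h6 | h6
      · exact Or.inl h6
      · right
        have := Nat.le_of_ble_eq_true h6
        rw [decide_eq_true_eq]; omega
    · rcases h7 with h7 | h7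
      · exact Or.inl h7
      · right
        have := Nat.le_of_ble_eq_true h7
        rw [decide_eq_true_eq]; omega
    · rcases h8 with h8 | h8
      · exact Or.inl h8
      · right
        rw [Bool.not_eq_true'] at h8 ⊢
        have : x ≠ c := Nat.ne_of_beq_eq_false h8
        rw [decide_eq_false_iff_not]; omega
  · rw [Bool.not_eq_true'] at hj0 ⊢
    have : g j ≠ o := Nat.ne_of_beq_eq_false hj0
    rw [decide_eq_false_iff_not, sub_eq_zero]
    exact_mod_cast this

/-- triangulation from the masks -/
theorem tri_of_masks {d N K : ℕ} (code : ℕ → ℕ → ℕ) (mk : ℕ → ℕ) (D : ℕ → ℕ) (h : ℕ → ℕ → ℤ)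
    (c : ℕ → ℤ) (mL mE mG : ℕ → ℕ) (hcode : ∀ s i, code s i < 2^d)
    (hmk : ∀ s < N, maskOf (d+1) (code s) = mk s)
    (hhalf : ∀ k < K, halfOK d (h k) (c k) (mL k) (mE k) (mG k) = true)
    (hpair : ∀ s < N, ∀ t < s, ∃ k < K, pairOK (mk s) (mk t) (mL k) (mE k) (mG k) = true)
    (hdet : ∀ s < N, (detE d code s).natAbs = D s ∧ D s ≠ 0)
    (hsum : ∑ s : Fin N, D s = d.factorial) :
    IsTriangulation (fam d N code) ∧ IsVertexFamily (fam d N code) := by
  have hv : IsVertexFamily (fam d N code) := by
    intro s i j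
    unfold fam vtx
    rcases Nat.mod_two_eq_zero_or_one ((code s i) >>> (j : ℕ)) with h | h <;> simp [h]
  have hsep : ∀ s t : Fin N, s ≠ t → SepW (fam d N code s) (fam d N code t) ∨
      SepW (fam d N code t) (fam d N code s) := by
    have h1 : ∀ s t : Fin N, t < s → SepW (fam d N code s) (fam d N code t) ∨
        SepW (fam d N code t) (fam d N code s) := by
      intro s t hst
      obtain ⟨k, hk, hk2⟩ := hpair s s.2 t hst
      rw [← hmk s s.2, ← hmk t t.2, pairOK, Bool.or_eq_true] at hk2
      rcases hk2 with h2 | h2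
      · exact Or.inl (sepW_of_pairO hcode (hhalf k hk) s t h2)
      · exact Or.inr (sepW_of_pairO hcode (hhalf k hk) t s h2)
    intro s t hst
    rcases lt_or_gt_of_ne hst with h | h
    · exact (h1 t s h).symm
    · exact h1 s t h
  refine ⟨isTriangulation_of_inter _ ?_ ?_ ?_ ?_ ?_, hv⟩
  · intro s i j
    rcases hv s i j with h | h <;> rw [h] <;> norm_num
  · intro s
    rw [detE_eq]
    obtain ⟨h1, h2⟩ := hdet s s.2
    intro hcon
    have h4 : detE d code s = 0 := by exact_mod_cast hcon
    rw [h4] at h1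
    exact h2 h1.symm
  · intro s t hst
    rcases hsep s t hst with h | h
    · exact h.volume_inter
    · rw [inter_comm]; exact h.volume_inter
  · intro s t hst
    rcases hsep s t hst with h | h
    · exact h.inter
    · rw [inter_comm, h.inter, inter_comm]
  · have h4 : ∀ s : Fin N, vdet (fam d N code s) = ((D s : ℕ) : ℝ) := by
      intro s
      rw [vdet, detE_eq, ← (hdet s s.2).1, Nat.cast_natAbs, Int.cast_abs]
    simp only [h4]
    exact_mod_cast hsum

end Helper67.Cube
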